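import Mathlib

set_option autoImplicit false

namespace Pool.Agent.Helper464.Cact

/-- Vertices are functions; a cactus of depth `d` uses the first `d` coordinates. -/
abbrev W := ℕ → ℕ

/-- The vertex set of the cactus of depth `d` and cycle length `N`. -/
def K (d N : ℕ) : Set W := {x | (∀ k, x k < N) ∧ ∀ k, d ≤ k → x k = 0}

/-- Cyclic adjacency (or equality) of `a, b < N`. -/
def Cy (N a b : ℕ) : Prop :=
  a = b ∨ b = a + 1 ∨ a = b + 1 ∨ (a = 0 ∧ b + 1 = N) ∨ (b = 0 ∧ a + 1 = N)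

/-- Adjacency (or equality) of two vertices. -/
def Ad (N : ℕ) (x y : W) : Prop :=
  x = y ∨ ∃ k, (∀ j, j < k → x j = y j) ∧ Cy N (x k) (y k) ∧ ∀ j, k < j → x j = 0 ∧ y j = 0

/-- `x` and `y` lie in the same cell of depth `k`. -/
def Ce (k : ℕ) (x y : W) : Prop := ∀ j, j < k → x j = y j

/-- The vertex number `y` of the top cycle of the cell of depth `k` of `p`. -/
def vt (p : W) (k y : ℕ) : W := fun j => if j < k then p j else if j = k then y else 0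

/-- Connectedness of a set for a symmetric relation. -/
def Cn {V : Type} (r : V → V → Prop) (H : Set V) : Prop :=
  ∀ A : Set V, A ⊆ H → A.Nonempty → (∀ a ∈ A, ∀ b ∈ H, r a b → b ∈ A) → A = H

/-- `Q` meets three different cells of depth `k`. -/
def M3 (k : ℕ) (Q : Set W) : Prop :=
  ∃ a ∈ Q, ∃ b ∈ Q, ∃ c ∈ Q, ¬ Ce k a b ∧ ¬ Ce k b c ∧ ¬ Ce k a c

/-- `Q` contains a full cell of depth `j`. -/
def Cov (d N j : ℕ) (Q : Set W) : Prop :=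
  ∃ z ∈ K d N, ∀ w ∈ K d N, Ce j z w → w ∈ Q

/-- Antisymmetry. -/
def Anti (α : W → W → ℤ) : Prop := ∀ x y, α x y = - α y x

/-- Degree of `α` along the top cycle of the cell of depth `k` of `p`. -/
def td (α : W → W → ℤ) (N k : ℕ) (p : W) : ℤ :=
  ∑ y ∈ Finset.range N, α (vt p k y) (vt p k ((y + 1) % N))

/-- All degrees along top cycles are nonnegative. -/
def NN (α : W → W → ℤ) (d N : ℕ) : Prop := ∀ k, k < d → ∀ p ∈ K d N, 0 ≤ td α N k p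

/-- Pull back of an edge function. -/
def pull (f : W → W) (α : W → W → ℤ) : W → W → ℤ := fun x y => α (f x) (f y)

structure HMap (d N N₁ : ℕ) (h : W → W) : Prop where
  maps : ∀ x ∈ K d N₁, h x ∈ K d N
  surj : ∀ y ∈ K d N, ∃ x ∈ K d N₁, h x = y
  slow : ∀ x ∈ K d N₁, ∀ y ∈ K d N₁, ∀ z ∈ K d N₁,
    Ad N₁ x y → Ad N₁ y z → Ad N (h x) (h z)
  good : ∀ Q, Q ⊆ K d N₁ → Cn (Ad N₁) Q → ∀ j, j ≤ d → M3 j (h '' Q) → Cov d N j (h '' Q)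
  cell : ∀ k, k ≤ d → ∀ x ∈ K d N₁, ∀ y ∈ K d N₁, Ce k x y → Ce k (h x) (h y)
  deg : ∀ α, Anti α → NN α d N → ∀ k, k < d → ∀ x ∈ K d N₁,
    td α N k (h x) ≤ td (pull h α) N₁ k x

structure GMap (d N d' N' : ℕ) (g : W → W) : Prop where
  maps : ∀ x ∈ K d' N', g x ∈ K d N
  surj : ∀ y ∈ K d N, ∃ x ∈ K d' N', g x = y
  hom : ∀ x ∈ K d' N', ∀ y ∈ K d' N', Ad N' x y → Ad N (g x) (g y)
  fine4 : ∀ Q, Q ⊆ K d' N' → Cn (Ad N') Q → ∀ k, k ≤ d' → ¬ M3 k Q → d' ≤ k + 2 →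
    (g '' Q).ncard ≤ 4
  fine3 : ∀ Q, Q ⊆ K d' N' → Cn (Ad N') Q → ∀ k, k + 2 < d' → ¬ M3 k Q → ∀ F, F ⊆ Q →
    (∃ p, ∀ y, y < N' → vt p (k + 2) y ∈ F) → (g '' Q \ g '' F).ncard ≤ 3
  nn : ∀ α, Anti α → NN α d N → NN (pull g α) d' N'
  pos : ∀ i, 1 ≤ i → i < d → ∃ i', 2 ≤ i' ∧ i' < d' ∧
    (∀ α, Anti α → NN α d N → (∀ p ∈ K d N, 0 < td α N i p) →
      ∀ p ∈ K d' N', 0 < td (pull g α) N' i' p) ∧
    ∀ x ∈ K d' N', ∃ S : Finset W, S.card ≤ 4 ∧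
      ∀ y ∈ K d' N', Ce (i' - 1) x y → ∃ s ∈ S, Ce i s (g y)

structure StageMap (d N d' N' : ℕ) (f : W → W) : Prop where
  maps : ∀ x ∈ K d' N', f x ∈ K d N
  surj : ∀ y ∈ K d N, ∃ x ∈ K d' N', f x = y
  slow : ∀ x ∈ K d' N', ∀ y ∈ K d' N', ∀ z ∈ K d' N',
    Ad N' x y → Ad N' y z → Ad N (f x) (f z)
  good : ∀ Q, Q ⊆ K d' N' → Cn (Ad N') Q → ∀ j, j ≤ d → M3 j (f '' Q) → Cov d N j (f '' Q)
  fine4 : ∀ Q, Q ⊆ K d' N' → Cn (Ad N') Q → ∀ k, k ≤ d' → ¬ M3 k Q → d' ≤ k + 2 →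
    (f '' Q).ncard ≤ 4
  fine3 : ∀ Q, Q ⊆ K d' N' → Cn (Ad N') Q → ∀ k, k + 2 < d' → ¬ M3 k Q → ∀ F, F ⊆ Q →
    (∃ p, ∀ y, y < N' → vt p (k + 2) y ∈ F) → (f '' Q \ f '' F).ncard ≤ 3
  nn : ∀ α, Anti α → NN α d N → NN (pull f α) d' N'
  pers : ∀ i, 2 ≤ i → i < d → ∃ i', 2 ≤ i' ∧ i' < d' ∧
    (∀ α, Anti α → NN α d N → (∀ p ∈ K d N, 0 < td α N i p) →
      ∀ p ∈ K d' N', 0 < td (pull f α) N' i' p) ∧
    ∀ Q, Q ⊆ K d' N' → Cn (Ad N') Q → M3 (i - 1) (f '' Q) → M3 (i' - 1) Q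

end Pool.Agent.Helper464.Cact
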