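import Mathlib

set_option autoImplicit false

namespace Pool.Agent.Helper464.CardGB

/-- Vertices are functions; a cactus of depth `d` uses the first `d` coordinates. -/
abbrev W := ℕ → ℕ

/-- The vertex set of the cactus of depth `d` and cycle length `N`. -/
def K (d N : ℕ) : Set W := {x | (∀ k, x k < N) ∧ ∀ k, d ≤ k → x k = 0}

/-- Cyclic adjacency (or equality) of `a, b < N`. -/
def Cy (N a b : ℕ) : Prop :=
  a = b ∨ b = a + 1 ∨ a = b + 1 ∨ (a = 0 ∧ b + 1 = N) ∨ (b = 0 ∧ a + 1 = N)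

/-- Adjacency (or equality) of two vertices. -/
def Ad (N : ℕ) (x y : W) : Prop :=
  x = y ∨ ∃ k, (∀ j, j < k → x j = y j) ∧ Cy N (x k) (y k) ∧ ∀ j, k < j → x j = 0 ∧ y j = 0

/-- `x` and `y` lie in the same cell of depth `k`. -/
def Ce (k : ℕ) (x y : W) : Prop := ∀ j, j < k → x j = y j

/-- The vertex number `y` of the top cycle of the cell of depth `k` of `p`. -/
def vt (p : W) (k y : ℕ) : W := fun j => if j < k then p j else if j = k then y else 0

/-- Connectedness of a set for a symmetric relation. -/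
def Cn {V : Type} (r : V → V → Prop) (H : Set V) : Prop :=
  ∀ A : Set V, A ⊆ H → A.Nonempty → (∀ a ∈ A, ∀ b ∈ H, r a b → b ∈ A) → A = H

/-- `Q` meets three different cells of depth `k`. -/
def M3 (k : ℕ) (Q : Set W) : Prop :=
  ∃ a ∈ Q, ∃ b ∈ Q, ∃ c ∈ Q, ¬ Ce k a b ∧ ¬ Ce k b c ∧ ¬ Ce k a c

/-- `Q` contains a full cell of depth `j`. -/
def Cov (d N j : ℕ) (Q : Set W) : Prop :=
  ∃ z ∈ K d N, ∀ w ∈ K d N, Ce j z w → w ∈ Q

/-- Antisymmetry. -/
def Anti (α : W → W → ℤ) : Prop := ∀ x y, α x y = - α y x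

/-- Degree of `α` along the top cycle of the cell of depth `k` of `p`. -/
def td (α : W → W → ℤ) (N k : ℕ) (p : W) : ℤ :=
  ∑ y ∈ Finset.range N, α (vt p k y) (vt p k ((y + 1) % N))

/-- All degrees along top cycles are nonnegative. -/
def NN (α : W → W → ℤ) (d N : ℕ) : Prop := ∀ k, k < d → ∀ p ∈ K d N, 0 ≤ td α N k p

/-- Pull back of an edge function. -/
def pull (f : W → W) (α : W → W → ℤ) : W → W → ℤ := fun x y => α (f x) (f y)


/-- The base of the number system used for the time. -/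
def Bs (N : ℕ) : ℕ := 2 * (N + 1)

theorem Bs_pos (N : ℕ) : 0 < Bs N := by unfold Bs; omega

/-- The standard walk through the cactus. -/
def Om (d N t : ℕ) : W := fun k =>
  if k < d then ((t / (2 * Bs N ^ (d - 1 - k))) % (N + 1)) % N else 0

theorem Om_mem {d N : ℕ} (hN : 0 < N) (t : ℕ) : Om d N t ∈ K d N := by
  refine ⟨fun k => ?_, fun k hk => ?_⟩
  · unfold Om
    split_ifs
    · exact Nat.mod_lt _ hN
    · exact hN
  · unfold Om
    rw [if_neg (by omega)]

theorem K_ext {d N : ℕ} {x y : W} (hx : x ∈ K d N) (hy : y ∈ K d N) (h : Ce d x y) : x = y := by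
  funext k
  by_cases hk : k < d
  · exact h k hk
  · rw [hx.2 k (by omega), hy.2 k (by omega)]

/-- times in the same double block of depth `i` give the same cell of depth `i` -/
theorem Om_Ce {d N i t t' : ℕ} (h : t / (2 * Bs N ^ (d - i)) = t' / (2 * Bs N ^ (d - i))) :
    Ce i (Om d N t) (Om d N t') := by
  intro k hk
  unfold Om
  by_cases hkd : k < d
  · rw [if_pos hkd, if_pos hkd]
    have e : 2 * Bs N ^ (d - 1 - k) = (2 * Bs N ^ (d - i)) * Bs N ^ (d - 1 - k - (d - i)) := by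
      rw [mul_assoc, ← pow_add]
      congr 2
      omega
    have h2 : ∀ m : ℕ, m / ((2 * Bs N ^ (d - i)) * Bs N ^ (d - 1 - k - (d - i)))
        = m / (2 * Bs N ^ (d - i)) / Bs N ^ (d - 1 - k - (d - i)) :=
      fun m => (Nat.div_div_eq_div_mul _ _ _).symm
    rw [e, h2, h2, h]
  · rw [if_neg hkd, if_neg hkd]

/-- zero lower digits -/
theorem Om_zero {d N i a k : ℕ} (ha : Bs N ^ (d - i) ∣ a) (hk : i ≤ k) : Om d N a k = 0 := by
  unfold Om
  split_ifs with hkd
  · obtain ⟨c, hc⟩ : Bs N ^ (d - 1 - k + 1) ∣ a :=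
      dvd_trans (pow_dvd_pow _ (by omega)) ha
    have e : a = (2 * Bs N ^ (d - 1 - k)) * ((N + 1) * c) := by
      rw [hc, pow_succ]
      unfold Bs
      ring
    rw [e, Nat.mul_div_cancel_left _ (by have := Bs_pos N; positivity), Nat.mul_mod_right,
      Nat.zero_mod]
  · rfl

/-- maximal lower digits -/
theorem Om_max {d N i a k : ℕ} (ha : Bs N ^ (d - i) ∣ a) (hk : i ≤ k) (ha0 : 0 < a) :
    Om d N (a - 1) k = 0 := by
  unfold Om
  split_ifs with hkd
  · obtain ⟨c, hc⟩ : Bs N ^ (d - 1 - k + 1) ∣ a :=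
      dvd_trans (pow_dvd_pow _ (by omega)) ha
    have e : a = (2 * Bs N ^ (d - 1 - k)) * ((N + 1) * c) := by
      rw [hc, pow_succ]
      unfold Bs
      ring
    have hc0 : 0 < c := by
      rcases Nat.eq_zero_or_pos c with h | h
      · subst h; simp at e; omega
      · exact h
    set L := 2 * Bs N ^ (d - 1 - k) with hL
    have hLpos : 0 < L := by have := Bs_pos N; positivity
    have h1 : (a - 1) / L = (N + 1) * c - 1 := by
      rw [Nat.div_eq_iff hLpos]
      have h2 : 0 < (N + 1) * c := by positivity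
      obtain ⟨m, hm⟩ : ∃ m, (N + 1) * c = m + 1 := ⟨(N + 1) * c - 1, by omega⟩
      rw [e, hm]
      have : L * (m + 1) = L * m + L := by ring
      have h3 : (m + 1 - 1) * L = L * m := by rw [Nat.add_sub_cancel]; ring
      rw [h3, this]
      omega
    rw [h1]
    obtain ⟨c', hc'⟩ : ∃ c', c = c' + 1 := ⟨c - 1, by omega⟩
    have h4 : (N + 1) * c - 1 = N + (N + 1) * c' := by
      rw [hc']
      have : (N + 1) * (c' + 1) = (N + 1) * c' + (N + 1) := by ring
      omega
    rw [h4, Nat.add_mul_mod_self_left, Nat.mod_eq_of_lt (by omega : N < N + 1), Nat.mod_self]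
  · rfl

/-- the digit number `i` -/
theorem Om_digit {d N i c s r : ℕ} (hi : i < d) (hs : s < Bs N) (hr : r < Bs N ^ (d - 1 - i)) :
    Om d N (Bs N ^ (d - i) * c + s * Bs N ^ (d - 1 - i) + r) i = (s / 2) % N := by
  unfold Om
  rw [if_pos hi]
  have hL : 0 < Bs N ^ (d - 1 - i) := by have := Bs_pos N; positivity
  have e : Bs N ^ (d - i) = Bs N ^ (d - 1 - i) * Bs N := by
    rw [← pow_succ]; congr 1; omega
  have h1 : (Bs N ^ (d - i) * c + s * Bs N ^ (d - 1 - i) + r) / (Bs N ^ (d - 1 - i))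
      = Bs N * c + s := by
    have : Bs N ^ (d - i) * c + s * Bs N ^ (d - 1 - i) + r
        = r + Bs N ^ (d - 1 - i) * (Bs N * c + s) := by rw [e]; ring
    rw [this, Nat.add_mul_div_left _ _ hL, Nat.div_eq_of_lt hr, zero_add]
  rw [mul_comm 2, ← Nat.div_div_eq_div_mul, h1]
  have h2 : (Bs N * c + s) / 2 = (N + 1) * c + s / 2 := by
    unfold Bs
    have : 2 * (N + 1) * c + s = s + 2 * ((N + 1) * c) := by ring
    rw [this, Nat.add_mul_div_left _ _ (by norm_num)]
    omega
  rw [h2, Nat.mul_add_mod, Nat.mod_eq_of_lt (a := s / 2) (b := N + 1)]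
  unfold Bs at hs
  omega

/-- A block of depth `i` covers the cell. -/
theorem Om_cover {d N : ℕ} (hN : 0 < N) : ∀ n i, d - i = n → i ≤ d → ∀ a, Bs N ^ (d - i) ∣ a →
    ∀ z ∈ K d N, Ce i (Om d N a) z → ∃ r, r < Bs N ^ (d - i) ∧ Om d N (a + r) = z := by
  intro n
  induction n with
  | zero =>
    intro i hi hid a _ z hz hc
    have : i = d := by omega
    subst this
    refine ⟨0, ?_, ?_⟩
    · have := Bs_pos N; positivity
    · rw [add_zero]
      exact K_ext (Om_mem hN a) hz hc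
  | succ n ih =>
    intro i hi hid a ha z hz hc
    have hid' : i < d := by omega
    obtain ⟨c, hac⟩ := ha
    have e : Bs N ^ (d - i) = Bs N ^ (d - 1 - i) * Bs N := by
      rw [← pow_succ]; congr 1; omega
    have e1 : d - (i + 1) = d - 1 - i := by omega
    have hL : 0 < Bs N ^ (d - 1 - i) := by have := Bs_pos N; positivity
    have hzi : z i < N := hz.1 i
    have hs : 2 * z i + 1 < Bs N := by unfold Bs; omega
    have ha' : Bs N ^ (d - (i + 1)) ∣ a + (2 * z i) * Bs N ^ (d - 1 - i) := by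
      rw [e1, hac, e]
      exact Dvd.intro (Bs N * c + 2 * z i) (by ring)
    have hce : Ce (i + 1) (Om d N (a + (2 * z i) * Bs N ^ (d - 1 - i))) z := by
      intro j hj
      rcases Nat.lt_or_ge j i with h | h
      · rw [← hc j h]
        refine (Om_Ce (d := d) (N := N) (i := i) ?_ j h)
        have h2 : a + (2 * z i) * Bs N ^ (d - 1 - i) < a + Bs N ^ (d - i) := by
          rw [e]
          have : (2 * z i) * Bs N ^ (d - 1 - i) < Bs N ^ (d - 1 - i) * Bs N := by
            rw [mul_comm]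
            exact Nat.mul_lt_mul_of_pos_left (by omega) hL
          omega
        have hM : 0 < Bs N ^ (d - i) := by have := Bs_pos N; positivity
        have h3 : ∀ m : ℕ, m / (2 * Bs N ^ (d - i)) = m / Bs N ^ (d - i) / 2 := by
          intro m; rw [Nat.div_div_eq_div_mul, mul_comm]
        rw [h3, h3]
        congr 1
        rw [hac] at h2 ⊢
        rw [Nat.mul_div_cancel_left _ hM, Nat.mul_add_div hM]
        rw [Nat.div_eq_of_lt (by omega : 2 * z i * Bs N ^ (d - 1 - i) < Bs N ^ (d - i))]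
        rfl
      · have : j = i := by omega
        subst this
        have h4 := Om_digit (d := d) (N := N) (i := j) (c := c) (s := 2 * z j) (r := 0) hid'
          (by omega) hL
        rw [add_zero, ← hac] at h4
        rw [h4, Nat.mul_div_cancel_left _ (by norm_num), Nat.mod_eq_of_lt hzi]
    obtain ⟨r, hr, hrz⟩ := ih (i + 1) (by omega) (by omega) _ ha' z hz hce
    refine ⟨2 * z i * Bs N ^ (d - 1 - i) + r, ?_, ?_⟩
    · rw [e]
      rw [e1] at hr
      have h5 : 2 * z i * Bs N ^ (d - 1 - i) + r < (2 * z i + 1) * Bs N ^ (d - 1 - i) := by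
        rw [add_mul, one_mul]; omega
      have h6 : (2 * z i + 1) * Bs N ^ (d - 1 - i) ≤ Bs N ^ (d - 1 - i) * Bs N := by
        rw [mul_comm]
        exact Nat.mul_le_mul_left _ (by omega)
      omega
    · rw [← add_assoc]; exact hrz

theorem Om_surj {d N : ℕ} (hN : 0 < N) {z : W} (hz : z ∈ K d N) :
    ∃ t, t < Bs N ^ d ∧ Om d N t = z := by
  obtain ⟨r, hr, h⟩ := Om_cover hN d 0 (by omega) (by omega) 0 (dvd_zero _) z hz
    (fun j hj => absurd hj (by omega))
  exact ⟨r, by simpa using hr, by simpa using h⟩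


open Classical in
/-- The set of vertices visited during the time interval `s..e`. -/
noncomputable def im (d N s e : ℕ) : Finset W := (Finset.Icc s e).image (Om d N)

theorem mem_im {d N s e : ℕ} {z : W} : z ∈ im d N s e ↔ ∃ t, s ≤ t ∧ t ≤ e ∧ Om d N t = z := by
  classical
  unfold im
  rw [Finset.mem_image]
  constructor
  · rintro ⟨t, ht, h⟩
    rw [Finset.mem_Icc] at ht
    exact ⟨t, ht.1, ht.2, h⟩
  · rintro ⟨t, h1, h2, h⟩
    exact ⟨t, Finset.mem_Icc.2 ⟨h1, h2⟩, h⟩


/-- Double blocks inside `s..e`. -/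
def DB (d N s e i a : ℕ) : Prop :=
  1 ≤ i ∧ i ≤ d ∧ 2 * Bs N ^ (d - i) ∣ a ∧ s ≤ a ∧ a + 2 * Bs N ^ (d - i) ≤ e + 1

theorem Ce_refl {i : ℕ} (x : W) : Ce i x x := fun _ _ => rfl

theorem Ce_symm {i : ℕ} {x y : W} (h : Ce i x y) : Ce i y x := fun j hj => (h j hj).symm

theorem Ce_trans {i : ℕ} {x y z : W} (h : Ce i x y) (h' : Ce i y z) : Ce i x z :=
  fun j hj => (h j hj).trans (h' j hj)

/-- parametrisation of a cell -/
def cellMap (d N i : ℕ) (z : W) (φ : Fin (d - i) → Fin N) : W := fun j =>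
  if _h : j < i then z j else if h' : j < d then (φ ⟨j - i, by omega⟩ : ℕ) else 0

theorem cellMap_inj {d N i : ℕ} (z : W) : Function.Injective (cellMap d N i z) := by
  intro φ ψ h
  funext ⟨j, hj⟩
  have h1 := congrFun h (j + i)
  unfold cellMap at h1
  rw [dif_neg (by omega), dif_pos (by omega), dif_neg (by omega), dif_pos (by omega)] at h1
  have e : (⟨j + i - i, by omega⟩ : Fin (d - i)) = ⟨j, hj⟩ := by
    apply Fin.ext; simp
  rw [e] at h1
  exact Fin.ext h1

theorem cell_range {d N i : ℕ} (hi : i ≤ d) {z : W} (hz : z ∈ K d N) :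
    {w | w ∈ K d N ∧ Ce i z w} = Set.range (cellMap d N i z) := by
  ext w
  constructor
  · rintro ⟨hw, hc⟩
    refine ⟨fun j => ⟨w (j + i), hw.1 _⟩, ?_⟩
    funext j
    unfold cellMap
    split_ifs with h1 h2
    · exact hc j h1
    · have : j - i + i = j := by omega
      simp only [this]
    · exact (hw.2 j (by omega)).symm
  · rintro ⟨φ, rfl⟩
    refine ⟨⟨fun k => ?_, fun k hk => ?_⟩, fun j hj => ?_⟩
    · unfold cellMap
      split_ifs with h1 h2
      · exact hz.1 k
      · exact (φ _).2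
      · exact lt_of_le_of_lt (Nat.zero_le _) (hz.1 0)
    · unfold cellMap
      rw [dif_neg (by omega), dif_neg (by omega)]
    · unfold cellMap
      rw [dif_pos hj]

theorem card_cell {d N i : ℕ} (hi : i ≤ d) {z : W} (hz : z ∈ K d N) :
    {w | w ∈ K d N ∧ Ce i z w}.ncard = N ^ (d - i) := by
  rw [cell_range hi hz, ← Set.image_univ, Set.ncard_image_of_injective _ (cellMap_inj z),
    Set.ncard_univ]
  simp

theorem finite_K (d N : ℕ) : (K d N).Finite := by
  rcases Set.eq_empty_or_nonempty (K d N) with h | ⟨z, hz⟩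
  · rw [h]; exact Set.finite_empty
  · have h1 := cell_range (Nat.zero_le d) hz
    have h2 : K d N = {w | w ∈ K d N ∧ Ce 0 z w} := by
      ext w
      exact ⟨fun hw => ⟨hw, fun j hj => absurd hj (by omega)⟩, fun hw => hw.1⟩
    rw [h2, h1]
    exact Set.finite_range _

theorem im_all {d N : ℕ} (hN : 0 < N) :
    (↑(im d N 0 (Bs N ^ d - 1)) : Set W) = K d N ∧ (im d N 0 (Bs N ^ d - 1)).card = N ^ d := by
  have h1 : (↑(im d N 0 (Bs N ^ d - 1)) : Set W) = K d N := by
    ext z
    rw [Finset.mem_coe, mem_im]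
    constructor
    · rintro ⟨t, _, _, rfl⟩
      exact Om_mem hN t
    · intro hz
      obtain ⟨t, ht, h⟩ := Om_surj hN hz
      exact ⟨t, Nat.zero_le _, by omega, h⟩
  refine ⟨h1, ?_⟩
  rw [← Set.ncard_coe_finset, h1]
  have hz := Om_mem (d := d) hN 0
  have h2 : K d N = {w | w ∈ K d N ∧ Ce 0 (Om d N 0) w} := by
    ext w
    exact ⟨fun hw => ⟨hw, fun j hj => absurd hj (by omega)⟩, fun hw => hw.1⟩
  rw [h2, card_cell (Nat.zero_le d) hz, Nat.sub_zero]

theorem block_cases {d N s e i t : ℕ} (hst : s ≤ t) (hte : t ≤ e) :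
    Ce i (Om d N s) (Om d N t) ∨ Ce i (Om d N e) (Om d N t) ∨
      (s / (2 * Bs N ^ (d - i)) < t / (2 * Bs N ^ (d - i)) ∧
        t / (2 * Bs N ^ (d - i)) < e / (2 * Bs N ^ (d - i))) := by
  have h1 : s / (2 * Bs N ^ (d - i)) ≤ t / (2 * Bs N ^ (d - i)) := Nat.div_le_div_right hst
  have h2 : t / (2 * Bs N ^ (d - i)) ≤ e / (2 * Bs N ^ (d - i)) := Nat.div_le_div_right hte
  rcases Nat.lt_or_eq_of_le h1 with h3 | h3
  · rcases Nat.lt_or_eq_of_le h2 with h4 | h4
    · exact Or.inr (Or.inr ⟨h3, h4⟩)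
    · exact Or.inr (Or.inl (Om_Ce h4.symm))
  · exact Or.inl (Om_Ce h3)

theorem block_inside {L s e b : ℕ} (hL : 0 < L) (h1 : s / L < b) (h2 : b < e / L) :
    s ≤ L * b ∧ L * b + L ≤ e := by
  constructor
  · have h3 : s < L * (s / L + 1) := by
      have := Nat.lt_mul_div_succ s hL
      exact this
    have h4 : L * (s / L + 1) ≤ L * b := Nat.mul_le_mul_left _ h1
    omega
  · have h3 : L * (e / L) ≤ e := Nat.mul_div_le e L
    have h4 : L * (b + 1) ≤ L * (e / L) := Nat.mul_le_mul_left _ h2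
    have h5 : L * (b + 1) = L * b + L := by ring
    omega

/-- an interval without double blocks of depth `i` has a small image -/
theorem im_small {d N s e i : ℕ} (hN : 0 < N) (hse : s ≤ e) (hi1 : 1 ≤ i) (hi : i ≤ d)
    (h : ∀ a, ¬ DB d N s e i a) : (im d N s e).card ≤ 2 * N ^ (d - i) := by
  have hL : 0 < 2 * Bs N ^ (d - i) := by have := Bs_pos N; positivity
  have hsub : (↑(im d N s e) : Set W) ⊆ {w | w ∈ K d N ∧ Ce i (Om d N s) w} ∪
      {w | w ∈ K d N ∧ Ce i (Om d N e) w} := by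
    intro w hw
    rw [Finset.mem_coe, mem_im] at hw
    obtain ⟨t, h1, h2, rfl⟩ := hw
    rcases block_cases (d := d) (N := N) (i := i) h1 h2 with h3 | h3 | ⟨h3, h4⟩
    · exact Or.inl ⟨Om_mem hN t, h3⟩
    · exact Or.inr ⟨Om_mem hN t, h3⟩
    · exfalso
      obtain ⟨h5, h6⟩ := block_inside hL h3 h4
      exact h _ ⟨hi1, hi, dvd_mul_right _ _, h5, by omega⟩
  rw [← Set.ncard_coe_finset]
  have hfin : ({w | w ∈ K d N ∧ Ce i (Om d N s) w} ∪
      {w | w ∈ K d N ∧ Ce i (Om d N e) w}).Finite :=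
    ((finite_K d N).subset fun w hw => hw.1).union ((finite_K d N).subset fun w hw => hw.1)
  calc (↑(im d N s e) : Set W).ncard ≤ _ := Set.ncard_le_ncard hsub hfin
    _ ≤ _ := Set.ncard_union_le _ _
    _ = 2 * N ^ (d - i) := by
        rw [card_cell hi (Om_mem hN s), card_cell hi (Om_mem hN e)]; ring

/-- the cell of an interior block is contained in the image -/
theorem cell_sub_im {d N s e i b : ℕ} (hN : 0 < N) (hi : i ≤ d)
    (h1 : s / (2 * Bs N ^ (d - i)) < b) (h2 : b < e / (2 * Bs N ^ (d - i))) :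
    {w | w ∈ K d N ∧ Ce i (Om d N (2 * Bs N ^ (d - i) * b)) w} ⊆ (↑(im d N s e) : Set W) := by
  have hL : 0 < 2 * Bs N ^ (d - i) := by have := Bs_pos N; positivity
  obtain ⟨h5, h6⟩ := block_inside hL h1 h2
  rintro w ⟨hw, hc⟩
  obtain ⟨r, hr, hrw⟩ := Om_cover hN (d - i) i rfl hi (2 * Bs N ^ (d - i) * b)
    (Dvd.intro (2 * b) (by ring)) w hw hc
  rw [Finset.mem_coe, mem_im]
  exact ⟨_, by omega, by omega, hrw⟩

/-- a small image touches at most four cells -/
theorem im_touch {d N s e i : ℕ} (hN : 3 ≤ N) (hse : s ≤ e) (hi1 : 1 ≤ i) (hi : i < d)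
    (h : (im d N s e).card ≤ 2 * N ^ (d - i) + 2) :
    ∃ S : Finset W, S.card ≤ 4 ∧ ∀ t, s ≤ t → t ≤ e → ∃ σ ∈ S, Ce i σ (Om d N t) := by
  classical
  have hN0 : 0 < N := by omega
  set L := 2 * Bs N ^ (d - i) with hLdef
  have hL : 0 < L := by have := Bs_pos N; positivity
  have hpow : 3 ≤ N ^ (d - i) := by
    calc 3 ≤ N := hN
      _ = N ^ 1 := (pow_one N).symm
      _ ≤ N ^ (d - i) := Nat.pow_le_pow_right hN0 (by omega)
  -- three cells give a contradiction
  have key : ∀ b1 b2 b3 : ℕ, s / L < b1 → b1 < e / L → s / L < b2 → b2 < e / L →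
      s / L < b3 → b3 < e / L → ¬ Ce i (Om d N (L * b1)) (Om d N (L * b2)) →
      ¬ Ce i (Om d N (L * b1)) (Om d N (L * b3)) →
      ¬ Ce i (Om d N (L * b2)) (Om d N (L * b3)) → False := by
    intro b1 b2 b3 p1 p2 p3 p4 p5 p6 q1 q2 q3
    have c1 := cell_sub_im (d := d) hN0 hi.le p1 p2
    have c2 := cell_sub_im (d := d) hN0 hi.le p3 p4
    have c3 := cell_sub_im (d := d) hN0 hi.le p5 p6
    rw [← hLdef] at c1 c2 c3
    set C1 := {w | w ∈ K d N ∧ Ce i (Om d N (L * b1)) w} with hC1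
    set C2 := {w | w ∈ K d N ∧ Ce i (Om d N (L * b2)) w} with hC2
    set C3 := {w | w ∈ K d N ∧ Ce i (Om d N (L * b3)) w} with hC3
    have f1 : C1.Finite := (finite_K d N).subset fun w hw => hw.1
    have f2 : C2.Finite := (finite_K d N).subset fun w hw => hw.1
    have f3 : C3.Finite := (finite_K d N).subset fun w hw => hw.1
    have d12 : Disjoint C1 C2 := by
      rw [Set.disjoint_left]
      rintro w ⟨_, hw1⟩ ⟨_, hw2⟩
      exact q1 (Ce_trans hw1 (Ce_symm hw2))
    have d123 : Disjoint (C1 ∪ C2) C3 := by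
      rw [Set.disjoint_left]
      rintro w (⟨_, hw1⟩ | ⟨_, hw1⟩) ⟨_, hw2⟩
      · exact q2 (Ce_trans hw1 (Ce_symm hw2))
      · exact q3 (Ce_trans hw1 (Ce_symm hw2))
    have hcard : ((C1 ∪ C2) ∪ C3).ncard = 3 * N ^ (d - i) := by
      rw [Set.ncard_union_eq d123 (f1.union f2) f3, Set.ncard_union_eq d12 f1 f2,
        hC1, hC2, hC3, card_cell hi.le (Om_mem hN0 _), card_cell hi.le (Om_mem hN0 _),
        card_cell hi.le (Om_mem hN0 _)]
      ring
    have hle : ((C1 ∪ C2) ∪ C3).ncard ≤ (im d N s e).card := by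
      rw [← Set.ncard_coe_finset]
      exact Set.ncard_le_ncard (Set.union_subset (Set.union_subset c1 c2) c3)
        (Finset.finite_toSet _)
    omega
  have hint : ∀ t, Ce i (Om d N (L * (t / L))) (Om d N t) := by
    intro t
    apply Om_Ce
    rw [← hLdef, Nat.mul_div_cancel_left _ hL]
  by_cases hb : ∃ b1, s / L < b1 ∧ b1 < e / L
  · obtain ⟨b1, p1, p2⟩ := hb
    by_cases hb2 : ∃ b2, s / L < b2 ∧ b2 < e / L ∧ ¬ Ce i (Om d N (L * b1)) (Om d N (L * b2))
    · obtain ⟨b2, p3, p4, q1⟩ := hb2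
      refine ⟨{Om d N s, Om d N e, Om d N (L * b1), Om d N (L * b2)}, Finset.card_le_four, ?_⟩
      intro t h1 h2
      rcases block_cases (d := d) (N := N) (i := i) h1 h2 with h3 | h3 | ⟨h3, h4⟩
      · exact ⟨_, by simp, h3⟩
      · exact ⟨_, by simp, h3⟩
      · rw [← hLdef] at h3 h4
        by_cases hc1 : Ce i (Om d N (L * b1)) (Om d N (L * (t / L)))
        · exact ⟨Om d N (L * b1), by simp, Ce_trans hc1 (hint t)⟩
        · by_cases hc2 : Ce i (Om d N (L * b2)) (Om d N (L * (t / L)))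
          · exact ⟨Om d N (L * b2), by simp, Ce_trans hc2 (hint t)⟩
          · exact (key b1 b2 (t / L) p1 p2 p3 p4 h3 h4 q1 hc1 hc2).elim
    · push Not at hb2
      refine ⟨{Om d N s, Om d N e, Om d N (L * b1)}, ?_, ?_⟩
      · exact le_trans Finset.card_le_three (by norm_num)
      · intro t h1 h2
        rcases block_cases (d := d) (N := N) (i := i) h1 h2 with h3 | h3 | ⟨h3, h4⟩
        · exact ⟨_, by simp, h3⟩
        · exact ⟨_, by simp, h3⟩
        · rw [← hLdef] at h3 h4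
          exact ⟨Om d N (L * b1), by simp, Ce_trans (hb2 _ h3 h4) (hint t)⟩
  · push Not at hb
    refine ⟨{Om d N s, Om d N e}, ?_, ?_⟩
    · exact le_trans Finset.card_le_two (by norm_num)
    · intro t h1 h2
      rcases block_cases (d := d) (N := N) (i := i) h1 h2 with h3 | h3 | ⟨h3, h4⟩
      · exact ⟨_, by simp, h3⟩
      · exact ⟨_, by simp, h3⟩
      · rw [← hLdef] at h3 h4
        have := hb _ h3
        omega

end Pool.Agent.Helper464.CardGB
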