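import Pool.Agent.Helper464.Chain
import Pool.Agent.Helper464.CardGB

set_option autoImplicit false

namespace Pool.Agent.Helper464.Card

open Pool.Agent.Helper464.Cact Pool.Agent.Helper464.Omega Pool.Agent.Helper464.Chain

theorem card_cell {d N i : ℕ} (hi : i ≤ d) {z : W} (hz : z ∈ K d N) :
    {w | w ∈ K d N ∧ Ce i z w}.ncard = N ^ (d - i) :=
  CardGB.card_cell hi hz

theorem finite_K (d N : ℕ) : (K d N).Finite := CardGB.finite_K d N

theorem im_all {d N : ℕ} (hN : 0 < N) :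
    (↑(im d N 0 (Bs N ^ d - 1)) : Set W) = K d N ∧ (im d N 0 (Bs N ^ d - 1)).card = N ^ d :=
  CardGB.im_all hN

/-- an interval without double blocks of depth `i` has a small image -/
theorem im_small {d N s e i : ℕ} (hN : 0 < N) (hse : s ≤ e) (hi1 : 1 ≤ i) (hi : i ≤ d)
    (h : ∀ a, ¬ DB d N s e i a) : (im d N s e).card ≤ 2 * N ^ (d - i) :=
  CardGB.im_small hN hse hi1 hi h

/-- a small image touches at most four cells -/
theorem im_touch {d N s e i : ℕ} (hN : 3 ≤ N) (hse : s ≤ e) (hi1 : 1 ≤ i) (hi : i < d)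
    (h : (im d N s e).card ≤ 2 * N ^ (d - i) + 2) :
    ∃ S : Finset W, S.card ≤ 4 ∧ ∀ t, s ≤ t → t ≤ e → ∃ σ ∈ S, Ce i σ (Om d N t) :=
  CardGB.im_touch hN hse hi1 hi h

end Pool.Agent.Helper464.Card
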