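import Pool.Agent.Helper464.Omega

set_option autoImplicit false

namespace Pool.Agent.Helper464.Chain

open Pool.Agent.Helper464.Cact Pool.Agent.Helper464.Omega

open Classical in
/-- The set of vertices visited during the time interval `s..e`. -/
noncomputable def im (d N s e : ℕ) : Finset W := (Finset.Icc s e).image (Om d N)

theorem mem_im {d N s e : ℕ} {z : W} : z ∈ im d N s e ↔ ∃ t, s ≤ t ∧ t ≤ e ∧ Om d N t = z := by
  classical
  unfold im
  rw [Finset.mem_image]
  constructor
  · rintro ⟨t, ht, h⟩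
    rw [Finset.mem_Icc] at ht
    exact ⟨t, ht.1, ht.2, h⟩
  · rintro ⟨t, h1, h2, h⟩
    exact ⟨t, Finset.mem_Icc.2 ⟨h1, h2⟩, h⟩

theorem im_mono {d N s e s' e' : ℕ} (h1 : s ≤ s') (h2 : e' ≤ e) : im d N s' e' ⊆ im d N s e := by
  intro z hz
  rw [mem_im] at hz ⊢
  obtain ⟨t, h3, h4, h5⟩ := hz
  exact ⟨t, by omega, by omega, h5⟩

theorem im_self {d N s : ℕ} : (im d N s s).card = 1 := by
  classical
  unfold im
  rw [Finset.Icc_self, Finset.image_singleton, Finset.card_singleton]

theorem im_left {d N s e : ℕ} : (im d N s e).card ≤ (im d N (s + 1) e).card + 1 := by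
  classical
  have : im d N s e ⊆ insert (Om d N s) (im d N (s + 1) e) := by
    intro z hz
    rw [mem_im] at hz
    obtain ⟨t, h3, h4, h5⟩ := hz
    rw [Finset.mem_insert, mem_im]
    rcases Nat.eq_or_lt_of_le h3 with h6 | h6
    · left; rw [← h5, h6]
    · right; exact ⟨t, by omega, h4, h5⟩
  exact le_trans (Finset.card_le_card this) (Finset.card_insert_le _ _)

theorem im_right {d N s e : ℕ} : (im d N s e).card ≤ (im d N s (e - 1)).card + 1 := by
  classical
  have : im d N s e ⊆ insert (Om d N e) (im d N s (e - 1)) := by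
    intro z hz
    rw [mem_im] at hz
    obtain ⟨t, h3, h4, h5⟩ := hz
    rw [Finset.mem_insert, mem_im]
    rcases Nat.eq_or_lt_of_le h4 with h6 | h6
    · left; rw [← h5, h6]
    · right; exact ⟨t, h3, by omega, h5⟩
  exact le_trans (Finset.card_le_card this) (Finset.card_insert_le _ _)

theorem im_pos {d N s e : ℕ} (h : s ≤ e) : 1 ≤ (im d N s e).card := by
  rw [← im_self (d := d) (N := N) (s := s)]
  exact Finset.card_le_card (im_mono le_rfl h)

/-- The intervals of the chain of the time `t` inside `s..e`. -/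
def Ch (s e t s' e' : ℕ) : Prop := (s ≤ s' ∧ s' ≤ t ∧ e' = e) ∨ (s' = t ∧ t ≤ e' ∧ e' ≤ e)

theorem Ch_trans {s e t s1 e1 s2 e2 : ℕ} (h1 : Ch s e t s1 e1) (h2 : Ch s1 e1 t s2 e2) :
    Ch s e t s2 e2 := by
  unfold Ch at *
  omega

theorem Ch_bounds {s e t s1 e1 : ℕ} (h1 : Ch s e t s1 e1) (hs : s ≤ t) (ht : t ≤ e) :
    s ≤ s1 ∧ s1 ≤ t ∧ t ≤ e1 ∧ e1 ≤ e := by
  unfold Ch at *
  omega

theorem exists_Ch {d N c : ℕ} (hc : 1 ≤ c) : ∀ n s e t, e - s = n → s ≤ t → t ≤ e →
    c ≤ (im d N s e).card → ∃ s' e', Ch s e t s' e' ∧ (im d N s' e').card = c := by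
  intro n
  induction n with
  | zero =>
    intro s e t hn hs ht h
    have h1 : s = e := by omega
    subst h1
    rw [im_self] at h
    exact ⟨s, s, Or.inl ⟨le_rfl, hs, rfl⟩, by rw [im_self]; omega⟩
  | succ n ih =>
    intro s e t hn hs ht h
    rcases Nat.eq_or_lt_of_le h with h1 | h1
    · exact ⟨s, e, Or.inl ⟨le_rfl, hs, rfl⟩, h1.symm⟩
    · rcases Nat.eq_or_lt_of_le hs with h2 | h2
      · have h3 := im_right (d := d) (N := N) (s := s) (e := e)
        obtain ⟨s', e', h4, h5⟩ := ih s (e - 1) t (by omega) hs (by omega) (by omega)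
        refine ⟨s', e', ?_, h5⟩
        unfold Ch at *
        omega
      · have h3 := im_left (d := d) (N := N) (s := s) (e := e)
        obtain ⟨s', e', h4, h5⟩ := ih (s + 1) e t (by omega) (by omega) ht (by omega)
        refine ⟨s', e', ?_, h5⟩
        unfold Ch at *
        omega

theorem Ch_nested {d N s e t s1 e1 s2 e2 : ℕ} (h1 : Ch s e t s1 e1) (h2 : Ch s e t s2 e2)
    (hs : s ≤ t) (ht : t ≤ e) :
    im d N s1 e1 ⊆ im d N s2 e2 ∨ im d N s2 e2 ⊆ im d N s1 e1 := by
  have : (s2 ≤ s1 ∧ e1 ≤ e2) ∨ (s1 ≤ s2 ∧ e2 ≤ e1) := by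
    unfold Ch at *; omega
  rcases this with h | h
  · left; exact im_mono h.1 h.2
  · right; exact im_mono h.1 h.2

theorem Ch_subset {d N s e t s1 e1 s2 e2 : ℕ} (h1 : Ch s e t s1 e1) (h2 : Ch s e t s2 e2)
    (hs : s ≤ t) (ht : t ≤ e) (hc : (im d N s1 e1).card ≤ (im d N s2 e2).card) :
    im d N s1 e1 ⊆ im d N s2 e2 := by
  rcases Ch_nested (d := d) (N := N) h1 h2 hs ht with h | h
  · exact h
  · rw [Finset.eq_of_subset_of_card_le h hc]

theorem Ch_unique {d N s e t s1 e1 s2 e2 : ℕ} (h1 : Ch s e t s1 e1) (h2 : Ch s e t s2 e2)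
    (hs : s ≤ t) (ht : t ≤ e) (hc : (im d N s1 e1).card = (im d N s2 e2).card) :
    im d N s1 e1 = im d N s2 e2 :=
  Finset.Subset.antisymm (Ch_subset h1 h2 hs ht hc.le) (Ch_subset h2 h1 hs ht hc.ge)

/-- Double blocks inside `s..e`. -/
def DB (d N s e i a : ℕ) : Prop :=
  1 ≤ i ∧ i ≤ d ∧ 2 * Bs N ^ (d - i) ∣ a ∧ s ≤ a ∧ a + 2 * Bs N ^ (d - i) ≤ e + 1

/-- The relation between times. -/
def Rel (d N s e t t' : ℕ) : Prop :=
  t = t' ∨ t' = t + 1 ∨ t = t' + 1 ∨
    ∃ i a, DB d N s e i a ∧ ((t = a ∧ t' = a + Bs N ^ (d - i)) ∨ (t' = a ∧ t = a + Bs N ^ (d - i)))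

theorem Rel_symm {d N s e t t' : ℕ} (h : Rel d N s e t t') : Rel d N s e t' t := by
  rcases h with h | h | h | ⟨i, a, h1, h2⟩
  · exact Or.inl h.symm
  · exact Or.inr (Or.inr (Or.inl h))
  · exact Or.inr (Or.inl h)
  · exact Or.inr (Or.inr (Or.inr ⟨i, a, h1, h2.symm⟩))

theorem Rel_Ad {d N s e t t' : ℕ} (hN : 0 < N) (he : e < Bs N ^ d) (ht : t ≤ e) (ht' : t' ≤ e)
    (h : Rel d N s e t t') : Ad N (Om d N t) (Om d N t') := by
  have symm : ∀ x y : W, Ad N x y → Ad N y x := by
    intro x y hxy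
    rcases hxy with hxy | ⟨k, h1, h2, h3⟩
    · exact Or.inl hxy.symm
    · refine Or.inr ⟨k, fun j hj => (h1 j hj).symm, ?_, fun j hj => (h3 j hj).symm⟩
      unfold Cy at *
      omega
  rcases h with h | h | h | ⟨i, a, h1, h2⟩
  · exact Or.inl (by rw [h])
  · rw [h]; exact Om_step hN (by omega)
  · rw [h]; exact symm _ _ (Om_step hN (by omega))
  · have h3 : Om d N (a + Bs N ^ (d - i)) = Om d N a := by
      have := Om_period (d := d) (N := N) (i := i) (a := a) (r := 0) h1.2.2.1
        (by have := Bs_pos N; positivity)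
      simpa using this
    rcases h2 with ⟨h4, h5⟩ | ⟨h4, h5⟩
    · rw [h4, h5, h3]; exact Or.inl rfl
    · rw [h4, h5, h3]; exact Or.inl rfl

open Classical in
/-- Continuity of the chains along a step of time. -/
theorem cont_step {d N s e t s1 e1 s2 e2 : ℕ} (hs : s ≤ t) (ht : t + 1 ≤ e)
    (h1 : Ch s e t s1 e1) (h2 : Ch s e (t + 1) s2 e2)
    (hc : (im d N s1 e1).card = (im d N s2 e2).card) :
    (im d N s2 e2 \ im d N s1 e1).card ≤ 1 := by
  classical
  rcases h1 with ⟨h3, h4, h5⟩ | ⟨h3, h4, h5⟩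
  · have h6 : Ch s e (t + 1) s1 e1 := Or.inl ⟨h3, by omega, h5⟩
    rw [Ch_unique h2 h6 (by omega) ht hc.symm]
    simp
  · subst h3
    rcases Nat.eq_or_lt_of_le h4 with h6 | h6
    · subst h6
      rw [im_self] at hc
      exact le_trans (Finset.card_le_card Finset.sdiff_subset) hc.ge
    · have h7 : Ch s e (s1 + 1) (s1 + 1) e1 := Or.inr ⟨rfl, by omega, h5⟩
      have h8 := im_left (d := d) (N := N) (s := s1) (e := e1)
      have h9 : im d N (s1 + 1) e1 ⊆ im d N s1 e1 := im_mono (by omega) le_rfl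
      have h10 : im d N (s1 + 1) e1 ⊆ im d N s2 e2 :=
        Ch_subset h7 h2 (by omega) ht (by rw [← hc]; exact Finset.card_le_card h9)
      calc (im d N s2 e2 \ im d N s1 e1).card
          ≤ (im d N s2 e2 \ im d N (s1 + 1) e1).card :=
            Finset.card_le_card (Finset.sdiff_subset_sdiff (Finset.Subset.refl _) h9)
        _ = (im d N s2 e2).card - (im d N (s1 + 1) e1).card :=
            Finset.card_sdiff_of_subset h10
        _ ≤ 1 := by omega

theorem im_shift {d N i a n : ℕ} (ha : 2 * Bs N ^ (d - i) ∣ a) (hn : n < Bs N ^ (d - i)) :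
    im d N (a + Bs N ^ (d - i)) (a + Bs N ^ (d - i) + n) = im d N a (a + n) := by
  ext z
  rw [mem_im, mem_im]
  constructor
  · rintro ⟨t, h1, h2, h3⟩
    refine ⟨t - Bs N ^ (d - i), by omega, by omega, ?_⟩
    rw [← h3]
    have := Om_period (d := d) (N := N) (i := i) (a := a) (r := t - (a + Bs N ^ (d - i))) ha
      (by omega)
    have e1 : a + Bs N ^ (d - i) + (t - (a + Bs N ^ (d - i))) = t := by omega
    have e2 : a + (t - (a + Bs N ^ (d - i))) = t - Bs N ^ (d - i) := by omega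
    rw [e1, e2] at this
    exact this.symm
  · rintro ⟨t, h1, h2, h3⟩
    refine ⟨t + Bs N ^ (d - i), by omega, by omega, ?_⟩
    rw [← h3]
    have := Om_period (d := d) (N := N) (i := i) (a := a) (r := t - a) ha (by omega)
    have e1 : a + Bs N ^ (d - i) + (t - a) = t + Bs N ^ (d - i) := by omega
    have e2 : a + (t - a) = t := by omega
    rw [e1, e2] at this
    exact this

/-- Equality of the chains at a jump. -/
theorem cont_jump {d N s e i a s1 e1 s2 e2 : ℕ} (hdb : DB d N s e i a)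
    (h1 : Ch s e a s1 e1) (h2 : Ch s e (a + Bs N ^ (d - i)) s2 e2)
    (hc : (im d N s1 e1).card = (im d N s2 e2).card) :
    im d N s2 e2 = im d N s1 e1 := by
  obtain ⟨hi1, hi2, ha, hsa, hae⟩ := hdb
  set L := Bs N ^ (d - i) with hL
  have hLpos : 0 < L := by have := Bs_pos N; positivity
  -- a member of the chain of a + L with the same image
  have key : ∃ s3 e3, Ch s e (a + L) s3 e3 ∧ im d N s3 e3 = im d N s1 e1 := by
    rcases h1 with ⟨h3, h4, h5⟩ | ⟨h3, h4, h5⟩
    · exact ⟨s1, e1, Or.inl ⟨h3, by omega, h5⟩, rfl⟩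
    · subst h3
      rcases Nat.lt_or_ge e1 (s1 + L) with h6 | h6
      · refine ⟨s1 + L, s1 + L + (e1 - s1), Or.inr ⟨rfl, by omega, by omega⟩, ?_⟩
        have := im_shift (d := d) (N := N) (i := i) (a := s1) (n := e1 - s1) ha (by omega)
        rw [← hL] at this
        rw [this]
        congr 1
        omega
      · -- the full block is covered
        have hfull : im d N s1 (s1 + (L - 1)) = im d N (s1 + L) (s1 + L + (L - 1)) := by
          have := im_shift (d := d) (N := N) (i := i) (a := s1) (n := L - 1) ha (by omega)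
          rw [← hL] at this
          exact this.symm
        rcases Nat.lt_or_ge e1 (s1 + L + (L - 1)) with h7 | h7
        · refine ⟨s1 + L, s1 + L + (L - 1), Or.inr ⟨rfl, by omega, by omega⟩, ?_⟩
          refine Finset.Subset.antisymm ?_ ?_
          · rw [← hfull]; exact im_mono le_rfl (by omega)
          · intro z hz
            rw [mem_im] at hz
            obtain ⟨t, h8, h9, h10⟩ := hz
            rcases Nat.lt_or_ge t (s1 + L) with h11 | h11
            · rw [← hfull, mem_im]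
              exact ⟨t, h8, by omega, h10⟩
            · rw [mem_im]
              exact ⟨t, h11, by omega, h10⟩
        · refine ⟨s1 + L, e1, Or.inr ⟨rfl, by omega, h5⟩, ?_⟩
          refine Finset.Subset.antisymm (im_mono (by omega) le_rfl) ?_
          intro z hz
          rw [mem_im] at hz
          obtain ⟨t, h8, h9, h10⟩ := hz
          rcases Nat.lt_or_ge t (s1 + L) with h11 | h11
          · have : z ∈ im d N (s1 + L) (s1 + L + (L - 1)) := by
              rw [← hfull, mem_im]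
              exact ⟨t, h8, by omega, h10⟩
            exact im_mono le_rfl h7 this
          · rw [mem_im]
            exact ⟨t, h11, h9, h10⟩
  obtain ⟨s3, e3, h3, h4⟩ := key
  rw [← h4]
  exact Ch_unique h2 h3 (by omega) (by omega) (by rw [h4]; exact hc.symm)

open Classical in
/-- Continuity of the chains. -/
theorem cont {d N s e t t' s1 e1 s2 e2 : ℕ} (hs : s ≤ t) (ht : t ≤ e) (hs' : s ≤ t')
    (ht' : t' ≤ e) (hr : Rel d N s e t t')
    (h1 : Ch s e t s1 e1) (h2 : Ch s e t' s2 e2)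
    (hc : (im d N s1 e1).card = (im d N s2 e2).card) :
    (im d N s2 e2 \ im d N s1 e1).card ≤ 1 := by
  classical
  rcases hr with h | h | h | ⟨i, a, h3, h4⟩
  · subst h
    rw [Ch_unique h2 h1 hs ht hc.symm]
    simp
  · subst h
    exact cont_step hs ht' h1 h2 hc
  · subst h
    have := cont_step hs' ht h2 h1 hc.symm
    rwa [Finset.card_sdiff_comm hc.symm]
  · rcases h4 with ⟨h5, h6⟩ | ⟨h5, h6⟩
    · subst h5; subst h6
      rw [cont_jump h3 h1 h2 hc]
      simp
    · subst h5; subst h6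
      rw [cont_jump h3 h2 h1 hc.symm]
      simp

end Pool.Agent.Helper464.Chain
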