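import Mathlib

set_option autoImplicit false
set_option linter.unusedSectionVars false

namespace Pool.Agent.Helper464.Contr

open Set Filter Topology unitInterval

section Basic

variable {X U : Type}

/-- The space of compatible sequences of (control, state) pairs. -/
def Mset (F : X → U → X) : Set (ℕ → U × X) :=
  {p | ∀ k, (p k).2 = F (p (k + 1)).2 (p k).1}

/-- Recompute the state at level `k` from the state at level `k + n`, using the controls `u`. -/
def back (F : X → U → X) (u : ℕ → U) (x : ℕ → X) : ℕ → ℕ → X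
  | 0, k => x k
  | n + 1, k => F (back F u x n (k + 1)) (u k)

theorem back_eq_self (F : X → U → X) (u : ℕ → U) (p : ℕ → U × X) (hp : p ∈ Mset F) (m k : ℕ)
    (h : ∀ j, k ≤ j → u j = (p j).1) : back F u (fun j => (p j).2) m k = (p k).2 := by
  induction m generalizing k with
  | zero => rfl
  | succ m ih =>
    have h1 : back F u (fun j => (p j).2) m (k + 1) = (p (k + 1)).2 :=
      ih (k + 1) (fun j hj => h j (by omega))
    show F (back F u (fun j => (p j).2) m (k + 1)) (u k) = (p k).2
    rw [h1, h k le_rfl]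
    exact (hp k).symm

theorem back_stable (F : X → U → X) (u : ℕ → U) (p : ℕ → U × X) (hp : p ∈ Mset F) (n m k : ℕ)
    (h : ∀ j, k + n ≤ j → u j = (p j).1) :
    back F u (fun j => (p j).2) (n + m) k = back F u (fun j => (p j).2) n k := by
  induction n generalizing k with
  | zero =>
    rw [Nat.zero_add]
    exact back_eq_self F u p hp m k (fun j hj => h j (by omega))
  | succ n ih =>
    have e : n + 1 + m = (n + m) + 1 := by omega
    rw [e]
    show F (back F u (fun j => (p j).2) (n + m) (k + 1)) (u k)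
      = F (back F u (fun j => (p j).2) n (k + 1)) (u k)
    rw [ih (k + 1) (fun j hj => h j (by omega))]

end Basic

/-- The schedule: at time `t` level `k` has been contracted by the amount
`max 0 (1 - (k+1)(1-t))`. -/
noncomputable def lam (k : ℕ) (t : I) : I :=
  ⟨max 0 (1 - (k + 1) * (1 - (t : ℝ))), by
    refine ⟨le_max_left _ _, max_le zero_le_one ?_⟩
    have h1 : (0 : ℝ) ≤ 1 - (t : ℝ) := by linarith [t.2.2]
    have h2 : (0 : ℝ) ≤ (k : ℝ) + 1 := by positivity
    nlinarith [mul_nonneg h2 h1]⟩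

theorem continuous_lam (k : ℕ) : Continuous (lam k) := by
  refine Continuous.subtype_mk ?_ _
  fun_prop

theorem lam_one (k : ℕ) : lam k 1 = 1 := by
  apply Subtype.ext
  simp [lam]

theorem lam_eq_zero (k : ℕ) (t : I) (h : 1 ≤ ((k : ℝ) + 1) * (1 - (t : ℝ))) : lam k t = 0 := by
  apply Subtype.ext
  simp only [lam, Set.Icc.coe_zero]
  exact max_eq_left (by linarith)

theorem lam_zero (k : ℕ) : lam k 0 = 0 := by
  apply lam_eq_zero
  simp

section Topo

variable {X U : Type} [TopologicalSpace X] [TopologicalSpace U]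

theorem isClosed_Mset [T2Space X] (F : X → U → X) (hF : Continuous (fun p : X × U => F p.1 p.2)) :
    IsClosed (Mset F) := by
  have : Mset F = ⋂ k, {p : ℕ → U × X | (p k).2 = F (p (k + 1)).2 (p k).1} := by
    ext p; simp [Mset]
  rw [this]
  refine isClosed_iInter (fun k => isClosed_eq (by fun_prop) ?_)
  exact hF.comp (f := fun p : ℕ → U × X => ((p (k + 1)).2, (p k).1)) (by fun_prop)

theorem continuous_back (F : X → U → X) (hF : Continuous (fun p : X × U => F p.1 p.2)) (n k : ℕ) :
    Continuous (fun q : (ℕ → U) × (ℕ → X) => back F q.1 q.2 n k) := by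
  induction n generalizing k with
  | zero => show Continuous (fun q : (ℕ → U) × (ℕ → X) => q.2 k); fun_prop
  | succ n ih =>
    show Continuous (fun q : (ℕ → U) × (ℕ → X) => F (back F q.1 q.2 n (k + 1)) (q.1 k))
    exact hF.comp ((ih (k + 1)).prodMk (by fun_prop))

variable (F : X → U → X) (c : I → U → U) (x0 : X)

/-- The contracted controls. -/
noncomputable def cu (t : I) (p : ℕ → U × X) (k : ℕ) : U := c (lam k t) (p k).1

open Classical in
/-- The states belonging to the contracted controls. -/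
noncomputable def cx (t : I) (p : ℕ → U × X) (k : ℕ) : X :=
  if t = 1 then x0 else back F (cu c t p) (fun j => (p j).2) ⌈1 / (1 - (t : ℝ))⌉₊ k

theorem cx_eq (hc0 : ∀ u, c 0 u = u) (t : I) (ht : (t : ℝ) < 1) (p : ℕ → U × X)
    (hp : p ∈ Mset F) (n k : ℕ) (hn : 1 ≤ (n : ℝ) * (1 - (t : ℝ))) :
    cx F c x0 t p k = back F (cu c t p) (fun j => (p j).2) n k := by
  have ht1 : t ≠ 1 := by
    rintro rfl
    simp at ht
  have hpos : (0 : ℝ) < 1 - (t : ℝ) := by linarith
  have key : ∀ n : ℕ, 1 ≤ (n : ℝ) * (1 - (t : ℝ)) → ∀ m k,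
      back F (cu c t p) (fun j => (p j).2) (n + m) k
        = back F (cu c t p) (fun j => (p j).2) n k := by
    intro n hn m k
    refine back_stable F _ p hp n m k (fun j hj => ?_)
    unfold cu
    rw [lam_eq_zero, hc0]
    have h2 : (n : ℝ) ≤ (j : ℝ) + 1 := by
      have : n ≤ j + 1 := by omega
      exact_mod_cast this
    nlinarith
  have hn0 : 1 ≤ ((⌈1 / (1 - (t : ℝ))⌉₊ : ℕ) : ℝ) * (1 - (t : ℝ)) := by
    have h := Nat.le_ceil (1 / (1 - (t : ℝ)))
    rw [div_le_iff₀ hpos] at h
    exact h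
  unfold cx
  rw [if_neg ht1]
  have h1 := key _ hn0 n k
  have h2 := key _ hn ⌈1 / (1 - (t : ℝ))⌉₊ k
  rw [← h1, ← h2, Nat.add_comm]

theorem cx_rel (hc0 : ∀ u, c 0 u = u) (u0 : U) (hc1 : ∀ u, c 1 u = u0)
    (hF0 : ∀ x, F x u0 = x0) (t : I) (p : ℕ → U × X)
    (hp : p ∈ Mset F) (k : ℕ) :
    cx F c x0 t p k = F (cx F c x0 t p (k + 1)) (cu c t p k) := by
  by_cases ht : t = 1
  · subst ht
    simp [cx, cu, lam_one, hc1, hF0]
  · have ht' : (t : ℝ) < 1 := lt_of_le_of_ne t.2.2 (fun h => ht (Subtype.ext h))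
    have hpos : (0 : ℝ) < 1 - (t : ℝ) := by linarith
    obtain ⟨n, hn⟩ := exists_nat_ge (1 / (1 - (t : ℝ)))
    rw [div_le_iff₀ hpos] at hn
    rw [cx_eq F c x0 hc0 t ht' p hp (n + 1) k (by push_cast; nlinarith),
      cx_eq F c x0 hc0 t ht' p hp n (k + 1) hn]
    rfl

theorem continuous_cx [CompactSpace X] (hF : Continuous (fun p : X × U => F p.1 p.2))
    (hc : Continuous (fun p : I × U => c p.1 p.2))
    (hc0 : ∀ u, c 0 u = u) (u0 : U) (hc1 : ∀ u, c 1 u = u0)
    (hF0 : ∀ x, F x u0 = x0) (k : ℕ) :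
    Continuous (fun q : I × (Mset F) => cx F c x0 q.1 (q.2 : ℕ → U × X) k) := by
  have hcu : ∀ k, Continuous (fun q : I × (Mset F) => cu c q.1 (q.2 : ℕ → U × X) k) := by
    intro k
    unfold cu
    exact hc.comp (Continuous.prodMk ((continuous_lam k).comp continuous_fst)
      (continuous_fst.comp ((continuous_apply k).comp
        (continuous_subtype_val.comp continuous_snd))))
  rw [continuous_iff_continuousAt]
  rintro ⟨t, p⟩
  by_cases ht : t = 1
  · subst ht
    have hval : cx F c x0 1 (p : ℕ → U × X) k = x0 := by simp [cx]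
    rw [ContinuousAt]
    show Tendsto _ _ (𝓝 (cx F c x0 1 (p : ℕ → U × X) k))
    rw [hval, tendsto_def]
    intro V hV
    have hW : ∀ᶠ u in 𝓝 u0, ∀ y ∈ (Set.univ : Set X), F y u ∈ V := by
      refine isCompact_univ.eventually_forall_of_forall_eventually (fun y _ => ?_)
      have h1 : Tendsto (fun z : U × X => F z.2 z.1) (𝓝 (u0, y)) (𝓝 (F y u0)) :=
        (hF.comp continuous_swap).continuousAt
      rw [hF0] at h1
      exact h1 hV
    have h2 : Tendsto (fun q : I × (Mset F) => cu c q.1 (q.2 : ℕ → U × X) k) (𝓝 (1, p))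
        (𝓝 u0) := by
      have h3 := (hcu k).continuousAt (x := ((1 : I), p))
      rw [ContinuousAt] at h3
      have h4 : cu c (1 : I) (p : ℕ → U × X) k = u0 := by simp [cu, lam_one, hc1]
      simpa only [h4] using h3
    filter_upwards [h2.eventually hW] with q hq
    show cx F c x0 q.1 (q.2 : ℕ → U × X) k ∈ V
    rw [cx_rel F c x0 hc0 u0 hc1 hF0 q.1 q.2 q.2.2 k]
    exact hq _ (Set.mem_univ _)
  · have ht' : (t : ℝ) < 1 := lt_of_le_of_ne t.2.2 (fun h => ht (Subtype.ext h))
    have hpos : (0 : ℝ) < 1 - (t : ℝ) := by linarith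
    obtain ⟨n, hn⟩ := exists_nat_gt (1 / (1 - (t : ℝ)))
    rw [div_lt_iff₀ hpos] at hn
    have hcont : Continuous (fun q : I × (Mset F) =>
        back F (cu c q.1 (q.2 : ℕ → U × X)) (fun j => ((q.2 : ℕ → U × X) j).2) n k) := by
      refine (continuous_back F hF n k).comp (f := fun q : I × (Mset F) =>
        (cu c q.1 (q.2 : ℕ → U × X), fun j => ((q.2 : ℕ → U × X) j).2)) ?_
      exact Continuous.prodMk (continuous_pi hcu) (continuous_pi (fun j =>
        continuous_snd.comp ((continuous_apply j).comp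
          (continuous_subtype_val.comp continuous_snd))))
    refine hcont.continuousAt.congr ?_
    have hopen : ∀ᶠ q : I × (Mset F) in 𝓝 (t, p), 1 < (n : ℝ) * (1 - (q.1 : ℝ)) := by
      have hct : Continuous (fun q : I × (Mset F) => (n : ℝ) * (1 - (q.1 : ℝ))) := by fun_prop
      exact hct.continuousAt.eventually (lt_mem_nhds hn)
    filter_upwards [hopen] with q hq
    have hq1 : ((q.1 : I) : ℝ) < 1 := by
      by_contra hcon
      have h5 : (n : ℝ) * (1 - (q.1 : ℝ)) ≤ 0 :=
        mul_nonpos_of_nonneg_of_nonpos (Nat.cast_nonneg n) (by linarith)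
      linarith
    exact (cx_eq F c x0 hc0 q.1 hq1 q.2 q.2.2 n k hq.le).symm

/-- The space of compatible sequences is contractible. -/
theorem contractible_Mset [CompactSpace X] (hF : Continuous (fun p : X × U => F p.1 p.2))
    (hc : Continuous (fun p : I × U => c p.1 p.2))
    (hc0 : ∀ u, c 0 u = u) (u0 : U) (hc1 : ∀ u, c 1 u = u0)
    (hF0 : ∀ x, F x u0 = x0) : ContractibleSpace (Mset F) := by
  have hcu : ∀ k, Continuous (fun q : I × (Mset F) => cu c q.1 (q.2 : ℕ → U × X) k) := by
    intro k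
    unfold cu
    exact hc.comp (Continuous.prodMk ((continuous_lam k).comp continuous_fst)
      (continuous_fst.comp ((continuous_apply k).comp
        (continuous_subtype_val.comp continuous_snd))))
  have hcx := continuous_cx F c x0 hF hc hc0 u0 hc1 hF0
  rw [contractible_iff_id_nullhomotopic]
  have hbase : (fun _ : ℕ => (u0, x0)) ∈ Mset F := by
    intro k
    simp [hF0]
  refine ⟨⟨fun _ => (u0, x0), hbase⟩, ⟨⟨⟨fun q => ⟨fun k =>
    (cu c q.1 (q.2 : ℕ → U × X) k, cx F c x0 q.1 (q.2 : ℕ → U × X) k), ?_⟩, ?_⟩, ?_, ?_⟩⟩⟩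
  · intro k
    exact cx_rel F c x0 hc0 u0 hc1 hF0 q.1 q.2 q.2.2 k
  · exact Continuous.subtype_mk (continuous_pi (fun k => (hcu k).prodMk (hcx k))) _
  · intro p
    apply Subtype.ext
    funext k
    show (cu c 0 (p : ℕ → U × X) k, cx F c x0 0 (p : ℕ → U × X) k) = (p : ℕ → U × X) k
    have h1 : cu c 0 (p : ℕ → U × X) k = ((p : ℕ → U × X) k).1 := by
      simp [cu, lam_zero, hc0]
    have h2 : cx F c x0 0 (p : ℕ → U × X) k = ((p : ℕ → U × X) k).2 := by
      rw [cx_eq F c x0 hc0 0 (by simp) p p.2 1 k (by simp)]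
      refine back_eq_self F _ _ p.2 1 k (fun j _ => ?_)
      simp [cu, lam_zero, hc0]
    rw [h1, h2]
  · intro p
    apply Subtype.ext
    funext k
    show (cu c 1 (p : ℕ → U × X) k, cx F c x0 1 (p : ℕ → U × X) k) = (u0, x0)
    simp [cu, cx, lam_one, hc1]

end Topo

end Pool.Agent.Helper464.Contr
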