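import Mathlib

set_option autoImplicit false
set_option linter.unusedSectionVars false

namespace Pool.Agent.Helper464.GlueTB

/-- Connectedness of a set for a symmetric relation. -/
def Cn {V : Type} (r : V → V → Prop) (H : Set V) : Prop :=
  ∀ A : Set V, A ⊆ H → A.Nonempty → (∀ a ∈ A, ∀ b ∈ H, r a b → b ∈ A) → A = H

/-- The inverse limit. -/
def Lim (V : ℕ → Type) (f : ∀ n, V (n + 1) → V n) : Type :=
  {x : ∀ n, V n // ∀ n, f n (x (n + 1)) = x n}

instance (V : ℕ → Type) (f : ∀ n, V (n + 1) → V n) [∀ n, TopologicalSpace (V n)] :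
    TopologicalSpace (Lim V f) := inferInstanceAs (TopologicalSpace {x : ∀ n, V n // _})

/-- The bonding map from level `m + k` to level `m`. -/
def proj {V : ℕ → Type} (f : ∀ n, V (n + 1) → V n) (m : ℕ) : ∀ k, V (m + k) → V m
  | 0 => id
  | k + 1 => fun x => proj f m k (f (m + k) x)

section aux

variable {V : ℕ → Type} {f : ∀ n, V (n + 1) → V n}

theorem lim_compact [∀ n, Finite (V n)] [∀ n, TopologicalSpace (V n)]
    [∀ n, DiscreteTopology (V n)] : CompactSpace (Lim V f) := by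
  have hc : IsClosed {x : ∀ n, V n | ∀ n, f n (x (n + 1)) = x n} := by
    simp only [Set.setOf_forall]
    refine isClosed_iInter fun n => ?_
    exact isClosed_eq ((continuous_of_discreteTopology (f := f n)).comp (continuous_apply _))
      (continuous_apply _)
  exact isCompact_iff_compactSpace.1 hc.isCompact

theorem cont_coord [∀ n, TopologicalSpace (V n)] (n : ℕ) :
    Continuous (fun x : Lim V f => x.1 n) :=
  (continuous_apply n).comp continuous_subtype_val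

theorem closed_coord [∀ n, TopologicalSpace (V n)] [∀ n, DiscreteTopology (V n)] (m : ℕ)
    (A : Set (V m)) : IsClosed {x : Lim V f | x.1 m ∈ A} :=
  (isClosed_discrete A).preimage (cont_coord m)

theorem proj_coord (x : Lim V f) (m k : ℕ) : proj f m k (x.1 (m + k)) = x.1 m := by
  induction k with
  | zero => rfl
  | succ k ih =>
    have h : f (m + k) (x.1 (m + (k + 1))) = x.1 (m + k) := x.2 (m + k)
    change proj f m k (f (m + k) (x.1 (m + (k + 1)))) = x.1 m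
    rw [h, ih]

variable {Y : Type}

def PP (Φ : Lim V f → Y) (m : ℕ) (y : Y) : Set (V m) := {v | ∃ x, Φ x = y ∧ x.1 m = v}

def HH (Φ : Lim V f → Y) (K : Set Y) (m : ℕ) : Set (V m) := {v | ∃ x, Φ x ∈ K ∧ x.1 m = v}

theorem image_PP (Φ : Lim V f → Y) (m : ℕ) (y : Y) : f m '' PP Φ (m + 1) y = PP Φ m y := by
  ext v
  constructor
  · rintro ⟨w, ⟨x, hx, rfl⟩, rfl⟩
    exact ⟨x, hx, (x.2 m).symm⟩
  · rintro ⟨x, hx, rfl⟩
    exact ⟨x.1 (m + 1), ⟨x, hx, rfl⟩, x.2 m⟩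

theorem image_HH (Φ : Lim V f → Y) (K : Set Y) (m : ℕ) : f m '' HH Φ K (m + 1) = HH Φ K m := by
  ext v
  constructor
  · rintro ⟨w, ⟨x, hx, rfl⟩, rfl⟩
    exact ⟨x, hx, (x.2 m).symm⟩
  · rintro ⟨x, hx, rfl⟩
    exact ⟨x.1 (m + 1), ⟨x, hx, rfl⟩, x.2 m⟩

theorem PP_nonempty {Φ : Lim V f → Y} (hs : Function.Surjective Φ) (m : ℕ) (y : Y) :
    (PP Φ m y).Nonempty := by
  obtain ⟨x, hx⟩ := hs y
  exact ⟨x.1 m, x, hx, rfl⟩

theorem PP_sub_HH {Φ : Lim V f → Y} {K : Set Y} (m : ℕ) {y : Y} (hy : y ∈ K) :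
    PP Φ m y ⊆ HH Φ K m := by
  rintro v ⟨x, hx, rfl⟩
  exact ⟨x, by rw [hx]; exact hy, rfl⟩

variable [∀ n, Finite (V n)] [∀ n, TopologicalSpace (V n)] [∀ n, DiscreteTopology (V n)]

theorem Cn_PP (adj : ∀ n, V n → V n → Prop) [MetricSpace Y]
    (M : Type) [MetricSpace M] (q : Lim V f → M) (hq : Continuous q)
    (hqs : Function.Surjective q)
    (hqR : ∀ x y : Lim V f, q x = q y ↔ ∀ n, adj n (x.1 n) (y.1 n))
    (F : M → Y) (hF : Continuous F) (hmono : ∀ y : Y, IsConnected (F ⁻¹' {y})) (m : ℕ) (y : Y) :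
    Cn (adj m) (PP (F ∘ q) m y) := by
  haveI : CompactSpace (Lim V f) := lim_compact
  intro A hA hAne hAadj
  by_contra hne
  obtain ⟨b, hb, hbA⟩ : ∃ b ∈ PP (F ∘ q) m y, b ∉ A := by
    by_contra h
    push Not at h
    exact hne (Set.Subset.antisymm hA h)
  have hS : IsClosed {x : Lim V f | (F ∘ q) x = y} :=
    isClosed_eq (hF.comp hq) continuous_const
  have c1 : IsClosed (q '' ({x : Lim V f | (F ∘ q) x = y} ∩ {x | x.1 m ∈ A})) :=
    ((hS.inter (closed_coord m A)).isCompact.image hq).isClosed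
  have c2 : IsClosed (q '' ({x : Lim V f | (F ∘ q) x = y} ∩ {x | x.1 m ∈ Aᶜ})) :=
    ((hS.inter (closed_coord m Aᶜ)).isCompact.image hq).isClosed
  have hpre := isPreconnected_closed_iff.1 (hmono y).isPreconnected _ _ c1 c2 ?_ ?_ ?_
  · obtain ⟨z, -, ⟨x, ⟨hx1, hx2⟩, hxz⟩, ⟨x', ⟨hx1', hx2'⟩, hxz'⟩⟩ := hpre
    have h := (hqR x x').1 (hxz.trans hxz'.symm) m
    exact hx2' (hAadj _ hx2 _ ⟨x', hx1', rfl⟩ h)
  · intro z hz
    obtain ⟨x, rfl⟩ := hqs z
    by_cases h : x.1 m ∈ A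
    · left; exact ⟨x, ⟨hz, h⟩, rfl⟩
    · right; exact ⟨x, ⟨hz, h⟩, rfl⟩
  · obtain ⟨a, ha⟩ := hAne
    obtain ⟨x, hx, hxa⟩ := hA ha
    exact ⟨q x, hx, x, ⟨hx, by rw [Set.mem_setOf_eq, hxa]; exact ha⟩, rfl⟩
  · obtain ⟨x, hx, hxa⟩ := hb
    exact ⟨q x, hx, x, ⟨hx, by rw [Set.mem_setOf_eq, hxa]; exact hbA⟩, rfl⟩

theorem Cn_HH (adj : ∀ n, V n → V n → Prop) [MetricSpace Y] {Φ : Lim V f → Y}
    (hΦ : Continuous Φ) (hs : Function.Surjective Φ) {K : Set Y} (hK : IsCompact K)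
    (hKc : IsPreconnected K) (m : ℕ)
    (hP : ∀ y, Cn (adj m) (PP Φ m y)) : Cn (adj m) (HH Φ K m) := by
  haveI : CompactSpace (Lim V f) := lim_compact
  intro A hA hAne hAadj
  by_contra hne
  obtain ⟨b, hb, hbA⟩ : ∃ b ∈ HH Φ K m, b ∉ A := by
    by_contra h
    push Not at h
    exact hne (Set.Subset.antisymm hA h)
  have hS : IsClosed {x : Lim V f | Φ x ∈ K} := hK.isClosed.preimage hΦ
  have c1 : IsClosed (Φ '' ({x : Lim V f | Φ x ∈ K} ∩ {x | x.1 m ∈ A})) :=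
    ((hS.inter (closed_coord m A)).isCompact.image hΦ).isClosed
  have c2 : IsClosed (Φ '' ({x : Lim V f | Φ x ∈ K} ∩ {x | x.1 m ∈ Aᶜ})) :=
    ((hS.inter (closed_coord m Aᶜ)).isCompact.image hΦ).isClosed
  have hpre := isPreconnected_closed_iff.1 hKc _ _ c1 c2 ?_ ?_ ?_
  · obtain ⟨z, hzK, ⟨x, ⟨hx1, hx2⟩, hxz⟩, ⟨x', ⟨hx1', hx2'⟩, hxz'⟩⟩ := hpre
    have h := hP z (A ∩ PP Φ m z) Set.inter_subset_right ⟨x.1 m, hx2, x, hxz, rfl⟩ ?_
    · have : x'.1 m ∈ A ∩ PP Φ m z := by rw [h]; exact ⟨x', hxz', rfl⟩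
      exact hx2' this.1
    · rintro a ⟨ha, ha'⟩ b hb hab
      exact ⟨hAadj a ha b (PP_sub_HH m hzK hb) hab, hb⟩
  · intro z hz
    obtain ⟨x, rfl⟩ := hs z
    by_cases h : x.1 m ∈ A
    · left; exact ⟨x, ⟨hz, h⟩, rfl⟩
    · right; exact ⟨x, ⟨hz, h⟩, rfl⟩
  · obtain ⟨a, ha⟩ := hAne
    obtain ⟨x, hx, hxa⟩ := hA ha
    exact ⟨Φ x, hx, x, ⟨hx, by rw [Set.mem_setOf_eq, hxa]; exact ha⟩, rfl⟩
  · obtain ⟨x, hx, hxa⟩ := hb
    exact ⟨Φ x, hx, x, ⟨hx, by rw [Set.mem_setOf_eq, hxa]; exact hbA⟩, rfl⟩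

/-- Upper semicontinuity. -/
theorem usc [MetricSpace Y] {Φ : Lim V f → Y} (hΦ : Continuous Φ) (m : ℕ) (y : Y) :
    ∃ δ : ℝ, 0 < δ ∧ ∀ y', dist y' y < δ → PP Φ m y' ⊆ PP Φ m y := by
  haveI : CompactSpace (Lim V f) := lim_compact
  have hc : IsClosed (Φ '' {x : Lim V f | x.1 m ∈ (PP Φ m y)ᶜ}) :=
    ((closed_coord m _).isCompact.image hΦ).isClosed
  have hy : y ∉ Φ '' {x : Lim V f | x.1 m ∈ (PP Φ m y)ᶜ} := by
    rintro ⟨x, hx, hxy⟩
    exact hx ⟨x, hxy, rfl⟩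
  obtain ⟨δ, hδ, hb⟩ := Metric.isOpen_iff.1 hc.isOpen_compl y hy
  refine ⟨δ, hδ, ?_⟩
  rintro y' hy' v ⟨x, hx, rfl⟩
  by_contra h
  exact hb hy' ⟨x, h, hx⟩

theorem coord_eq_down {x x' : Lim V f} {n : ℕ} (h : x.1 (n + 1) = x'.1 (n + 1)) :
    x.1 n = x'.1 n := by
  rw [← x.2 n, ← x'.2 n, h]

theorem eventually_ne {x x' : Lim V f} (h : x ≠ x') :
    ∀ᶠ n in Filter.atTop, x.1 n ≠ x'.1 n := by
  have : ∃ n, x.1 n ≠ x'.1 n := by
    by_contra hc
    push Not at hc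
    exact h (Subtype.ext (funext hc))
  obtain ⟨n, hn⟩ := this
  filter_upwards [Filter.eventually_ge_atTop n] with m hm
  induction m, hm using Nat.le_induction with
  | base => exact hn
  | succ m _ ih => exact fun e => ih (coord_eq_down e)

theorem eventually_not_mem [MetricSpace Y] {Φ : Lim V f → Y} (hΦ : Continuous Φ) {x : Lim V f}
    {y : Y} (h : Φ x ≠ y) : ∀ᶠ n in Filter.atTop, x.1 n ∉ PP Φ n y := by
  have : CompactSpace (Lim V f) := lim_compact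
  have : ∃ n, x.1 n ∉ PP Φ n y := by
    by_contra hc
    push Not at hc
    have key := IsCompact.nonempty_iInter_of_sequence_nonempty_isCompact_isClosed
      (fun n => {x' : Lim V f | Φ x' = y} ∩ {x' | x'.1 n ∈ ({x.1 n} : Set (V n))}) ?_ ?_ ?_ ?_
    · obtain ⟨x', hx'⟩ := key
      rw [Set.mem_iInter] at hx'
      have e : x' = x := Subtype.ext (funext fun n => (hx' n).2)
      exact h (by rw [← e]; exact (hx' 0).1)
    · rintro n x' ⟨h1, h2⟩
      exact ⟨h1, coord_eq_down h2⟩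
    · intro n
      obtain ⟨x', h1, h2⟩ := hc n
      exact ⟨x', h1, h2⟩
    · exact ((isClosed_eq hΦ continuous_const).inter (closed_coord 0 _)).isCompact
    · intro n
      exact (isClosed_eq hΦ continuous_const).inter (closed_coord n _)
  obtain ⟨n, hn⟩ := this
  filter_upwards [Filter.eventually_ge_atTop n] with m hm
  induction m, hm using Nat.le_induction with
  | base => exact hn
  | succ m _ ih =>
    intro e
    apply ih
    rw [← image_PP]
    exact ⟨_, e, x.2 m⟩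

theorem G_mono {Φ : Lim V f → Y} {K : Set Y} {y : Y} {n m : ℕ} (hnm : n ≤ m)
    (h : 4 ≤ (HH Φ K n \ PP Φ n y).ncard) : 4 ≤ (HH Φ K m \ PP Φ m y).ncard := by
  induction m, hnm using Nat.le_induction with
  | base => exact h
  | succ m _ ih =>
    refine ih.trans ?_
    have h1 : HH Φ K m \ PP Φ m y ⊆ f m '' (HH Φ K (m + 1) \ PP Φ (m + 1) y) := by
      rintro v ⟨hv1, hv2⟩
      rw [← image_HH] at hv1
      obtain ⟨w, hw, rfl⟩ := hv1
      refine ⟨w, ⟨hw, fun hw' => hv2 ?_⟩, rfl⟩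
      rw [← image_PP]
      exact ⟨w, hw', rfl⟩
    exact (Set.ncard_le_ncard h1 (Set.toFinite _)).trans (Set.ncard_image_le (Set.toFinite _))

theorem G_point [MetricSpace Y] {Φ : Lim V f → Y} (hΦ : Continuous Φ)
    (hs : Function.Surjective Φ) {K : Set Y} (hinf : K.Infinite) (y : Y) :
    ∃ n, 4 ≤ (HH Φ K n \ PP Φ n y).ncard := by
  classical
  obtain ⟨t, ht, hcard⟩ := (hinf.diff (Set.finite_singleton y)).exists_subset_card_eq 4
  choose g hg using hs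
  have e1 : ∀ᶠ n in Filter.atTop, ∀ z ∈ t, (g z).1 n ∉ PP Φ n y := by
    rw [Filter.eventually_all_finset]
    intro z hz
    refine eventually_not_mem hΦ ?_
    rw [hg]
    exact (ht hz).2
  have e2 : ∀ᶠ n in Filter.atTop, ∀ z ∈ t, ∀ z' ∈ t, z ≠ z' → (g z).1 n ≠ (g z').1 n := by
    rw [Filter.eventually_all_finset]
    intro z hz
    rw [Filter.eventually_all_finset]
    intro z' hz'
    by_cases hzz : z = z'
    · filter_upwards with n h
      exact absurd hzz h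
    · have : g z ≠ g z' := fun e => hzz (by rw [← hg z, ← hg z', e])
      filter_upwards [eventually_ne this] with n hn _
      exact hn
  obtain ⟨n, h1, h2⟩ := (e1.and e2).exists
  refine ⟨n, ?_⟩
  have hinj : Set.InjOn (fun z => (g z).1 n) (t : Set Y) := by
    intro z hz z' hz' h
    by_contra hne
    exact h2 z hz z' hz' hne h
  have h3 : (t.image (fun z => (g z).1 n) : Set (V n)) ⊆ HH Φ K n \ PP Φ n y := by
    intro v hv
    rw [Finset.mem_coe, Finset.mem_image] at hv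
    obtain ⟨z, hz, rfl⟩ := hv
    exact ⟨⟨g z, by rw [hg]; exact (ht hz).1, rfl⟩, h1 z hz⟩
  have h4 := Set.ncard_le_ncard h3 (Set.toFinite _)
  rwa [Set.ncard_coe_finset, Finset.card_image_of_injOn hinj, hcard] at h4

theorem big_level [MetricSpace Y] {Φ : Lim V f → Y} (hΦ : Continuous Φ)
    (hs : Function.Surjective Φ) {K : Set Y} (hK : IsCompact K) (hinf : K.Infinite) :
    ∃ n, ∀ y ∈ K, 4 ≤ (HH Φ K n \ PP Φ n y).ncard := by
  refine hK.induction_on (p := fun s => ∃ n, ∀ y ∈ s, 4 ≤ (HH Φ K n \ PP Φ n y).ncard) ?_ ?_ ?_ ?_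
  · exact ⟨0, by simp⟩
  · rintro s t hst ⟨n, hn⟩
    exact ⟨n, fun y hy => hn y (hst hy)⟩
  · rintro s t ⟨n, hn⟩ ⟨n', hn'⟩
    refine ⟨max n n', ?_⟩
    rintro y (hy | hy)
    · exact G_mono (le_max_left _ _) (hn y hy)
    · exact G_mono (le_max_right _ _) (hn' y hy)
  · intro y hy
    obtain ⟨n, hn⟩ := G_point hΦ hs hinf y
    obtain ⟨δ, hδ, hd⟩ := usc hΦ n y
    refine ⟨Metric.ball y δ, mem_nhdsWithin_of_mem_nhds (Metric.ball_mem_nhds y hδ), n, ?_⟩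
    intro y' hy'
    refine hn.trans (Set.ncard_le_ncard ?_ (Set.toFinite _))
    exact Set.diff_subset_diff_right (hd y' hy')

theorem const_diff {W : Type} {r : W → W → Prop} {Q : Set W} (hQ : Cn r Q) {s1 s2 : W → ℤ}
    {α : W → W → ℤ} (h1 : ∀ u ∈ Q, ∀ v ∈ Q, r u v → s1 v - s1 u = α u v)
    (h2 : ∀ u ∈ Q, ∀ v ∈ Q, r u v → s2 v - s2 u = α u v) :
    ∃ d : ℤ, ∀ u ∈ Q, s1 u - s2 u = d := by
  by_cases hne : Q.Nonempty
  · obtain ⟨u0, hu0⟩ := hne
    refine ⟨s1 u0 - s2 u0, ?_⟩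
    have := hQ {u ∈ Q | s1 u - s2 u = s1 u0 - s2 u0} (fun u hu => hu.1) ⟨u0, hu0, rfl⟩ ?_
    · intro u hu
      rw [← this] at hu
      exact hu.2
    · rintro a ⟨ha, ha'⟩ b hb hab
      refine ⟨hb, ?_⟩
      have e1 := h1 a ha b hb hab
      have e2 := h2 a ha b hb hab
      linarith
  · exact ⟨0, fun u hu => absurd ⟨u, hu⟩ hne⟩

theorem glue (N : ℕ) {W : Type} {r : W → W → Prop} {P : ℕ → Set W} {s : ℕ → W → ℤ}
    {α : W → W → ℤ} (hC : ∀ i, Cn r (P i))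
    (hs : ∀ i, ∀ u ∈ P i, ∀ v ∈ P i, r u v → s i v - s i u = α u v)
    (hnest : ∀ i, i + 1 < N → P i ⊆ P (i + 1) ∨ P (i + 1) ⊆ P i) :
    ∃ c : ℕ → ℤ, ∀ i, i + 1 < N → ∀ u ∈ P i ∩ P (i + 1), s i u + c i = s (i + 1) u + c (i + 1) := by
  have key : ∀ i, ∃ d : ℤ, i + 1 < N → ∀ u ∈ P i ∩ P (i + 1), s i u - s (i + 1) u = d := by
    intro i
    by_cases hi : i + 1 < N
    · rcases hnest i hi with h | h
      · obtain ⟨d, hd⟩ := const_diff (hC i) (hs i)
          (fun u hu v hv huv => hs (i + 1) u (h hu) v (h hv) huv)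
        exact ⟨d, fun _ u hu => hd u hu.1⟩
      · obtain ⟨d, hd⟩ := const_diff (hC (i + 1))
          (fun u hu v hv huv => hs i u (h hu) v (h hv) huv) (hs (i + 1))
        exact ⟨d, fun _ u hu => hd u hu.2⟩
    · exact ⟨0, fun h => absurd h hi⟩
  choose d hd using key
  refine ⟨fun i => ∑ j ∈ Finset.range i, d j, ?_⟩
  intro i hi u hu
  have := hd i hi u hu
  have h2 : ∑ j ∈ Finset.range (i + 1), d j = ∑ j ∈ Finset.range i, d j + d i :=
    Finset.sum_range_succ _ _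
  change s i u + ∑ j ∈ Finset.range i, d j = s (i + 1) u + ∑ j ∈ Finset.range (i + 1), d j
  rw [h2]
  linarith

end aux

theorem no_chainable (V : ℕ → Type) [∀ n, Finite (V n)] [∀ n, TopologicalSpace (V n)]
    [∀ n, DiscreteTopology (V n)] (adj : ∀ n, V n → V n → Prop) (f : ∀ n, V (n + 1) → V n)
    (hrefl : ∀ n x, adj n x x) (hsymm : ∀ n x y, adj n x y → adj n y x)
    (hslow : ∀ n x y z, adj (n + 1) x y → adj (n + 1) y z → adj n (f n x) (f n z))
    (M : Type) [MetricSpace M] [CompactSpace M] (q : Lim V f → M) (hq : Continuous q)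
    (hqs : Function.Surjective q)
    (hqR : ∀ x y : Lim V f, q x = q y ↔ ∀ n, adj n (x.1 n) (y.1 n))
    (T2 : ∀ H : (∀ m, Set (V m)), (∀ m, Cn (adj m) (H m)) → (∀ m, f m '' H (m + 1) = H m) →
      ∀ n, 5 ≤ (H n).ncard → ∃ α : V (n + 1) → V (n + 1) → ℤ,
        (∀ k, ¬ ∃ s : V (n + 1 + k) → ℤ, ∀ u ∈ H (n + 1 + k), ∀ v ∈ H (n + 1 + k),
          adj (n + 1 + k) u v → s v - s u = α (proj f (n + 1) k u) (proj f (n + 1) k v)) ∧
        (∀ F : Set (V (n + 1)), F ⊆ H (n + 1) → F.Nonempty → Cn (adj (n + 1)) F →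
          4 ≤ (H n \ f n '' F).ncard →
          ∃ s : V (n + 1) → ℤ, ∀ u ∈ F, ∀ v ∈ F, adj (n + 1) u v → s v - s u = α u v))
    (Y : Type) [MetricSpace Y] (F : M → Y) (hF : Continuous F) (hFs : Function.Surjective F)
    (hmono : ∀ y : Y, IsConnected (F ⁻¹' {y})) :
    ¬ ∃ K : Set Y, IsCompact K ∧ IsConnected K ∧ K.Nontrivial ∧
      ∀ ε : ℝ, 0 < ε → ∃ (n : ℕ) (U : Fin n → Set Y),
        (∀ i, IsOpen (U i)) ∧
        (∀ i, Metric.diam (U i ∩ K) < ε) ∧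
        K ⊆ ⋃ i, U i ∧
        (∀ i j, (U i ∩ U j ∩ K).Nonempty ↔ (i.val ≤ j.val + 1 ∧ j.val ≤ i.val + 1)) := by
  rintro ⟨K, hK, hKc, hKn, hchain⟩
  have hcomp : CompactSpace (Lim V f) := lim_compact
  set Φ : Lim V f → Y := F ∘ q with hΦdef
  have hΦ : Continuous Φ := hF.comp hq
  have hΦs : Function.Surjective Φ := hFs.comp hqs
  have hinf : K.Infinite := hKc.isPreconnected.infinite_of_nontrivial hKn
  have hCP : ∀ m y, Cn (adj m) (PP Φ m y) := fun m y =>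
    Cn_PP adj M q hq hqs hqR F hF hmono m y
  have hCH : ∀ m, Cn (adj m) (HH Φ K m) := fun m =>
    Cn_HH adj hΦ hΦs hK hKc.isPreconnected m (hCP m)
  obtain ⟨n, hn⟩ := big_level hΦ hΦs hK hinf
  obtain ⟨y0, hy0⟩ := hKc.nonempty
  have h5 : 5 ≤ (HH Φ K n).ncard := by
    have h1 := hn y0 hy0
    have h2 := Set.ncard_diff_add_ncard_of_subset (PP_sub_HH (Φ := Φ) n hy0) (Set.toFinite _)
    have h3 : 0 < (PP Φ n y0).ncard := (Set.ncard_pos (Set.toFinite _)).2 (PP_nonempty hΦs n y0)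
    omega
  obtain ⟨α, hα1, hα2⟩ := T2 (fun m => HH Φ K m) hCH (fun m => image_HH Φ K m) n h5
  have hpot : ∀ y : K, ∃ s : V (n + 1) → ℤ, ∀ u ∈ PP Φ (n + 1) y, ∀ v ∈ PP Φ (n + 1) y,
      adj (n + 1) u v → s v - s u = α u v := by
    rintro ⟨y, hy⟩
    refine hα2 _ (PP_sub_HH _ hy) (PP_nonempty hΦs _ y) (hCP _ y) ?_
    rw [image_PP]
    exact hn y hy
  choose s hs using hpot
  choose δ hδ hδP using fun y : Y => usc hΦ (n + 1) y
  obtain ⟨ε, hε, hleb⟩ := lebesgue_number_lemma_of_metric (s := K)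
    (c := fun y : K => Metric.ball (y : Y) (δ y / 2)) hK (fun y => Metric.isOpen_ball) (by
      intro y hy
      rw [Set.mem_iUnion]
      exact ⟨⟨y, hy⟩, Metric.mem_ball_self (by have := hδ y; positivity)⟩)
  obtain ⟨N, U, hUo, hUd, hUc, hUU⟩ := hchain ε hε
  have hx : ∀ i : Fin N, ∃ z : K, ∀ y ∈ U i ∩ K, dist y z < δ z / 2 := by
    intro i
    obtain ⟨x, ⟨hx1, -⟩, hx2⟩ := (hUU i i).2 ⟨by omega, by omega⟩
    obtain ⟨z, hz⟩ := hleb x hx2
    refine ⟨z, ?_⟩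
    intro y hy
    apply hz
    have hb : Bornology.IsBounded (U i ∩ K) := hK.isBounded.subset Set.inter_subset_right
    exact (Metric.dist_le_diam_of_mem hb hy ⟨hx1, hx2⟩).trans_lt (hUd i)
  choose z hz using hx
  let z' : ℕ → K := fun i => if h : i < N then z ⟨i, h⟩ else ⟨y0, hy0⟩
  have hz' : ∀ i : Fin N, z' i = z i := by
    intro i
    simp [z']
  have hnest : ∀ i, i + 1 < N → PP Φ (n + 1) (z' i) ⊆ PP Φ (n + 1) (z' (i + 1)) ∨
      PP Φ (n + 1) (z' (i + 1)) ⊆ PP Φ (n + 1) (z' i) := by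
    intro i hi
    have hi' : i < N := by omega
    obtain ⟨x, ⟨hx1, hx2⟩, hx3⟩ := (hUU ⟨i, hi'⟩ ⟨i + 1, hi⟩).2
      ⟨by simp only; omega, by simp only; omega⟩
    have d1 := hz ⟨i, hi'⟩ x ⟨hx1, hx3⟩
    have d2 := hz ⟨i + 1, hi⟩ x ⟨hx2, hx3⟩
    have e1 : z' i = z ⟨i, hi'⟩ := hz' ⟨i, hi'⟩
    have e2 : z' (i + 1) = z ⟨i + 1, hi⟩ := hz' ⟨i + 1, hi⟩
    rw [e1, e2]
    have d3 : dist ((z ⟨i, hi'⟩ : K) : Y) (z ⟨i + 1, hi⟩ : K) <
        δ (z ⟨i, hi'⟩ : K) / 2 + δ (z ⟨i + 1, hi⟩ : K) / 2 := by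
      calc dist ((z ⟨i, hi'⟩ : K) : Y) (z ⟨i + 1, hi⟩ : K)
          ≤ dist ((z ⟨i, hi'⟩ : K) : Y) x + dist x (z ⟨i + 1, hi⟩ : K) := dist_triangle _ _ _
        _ < _ := by rw [dist_comm _ x]; linarith
    rcases le_total (δ (z ⟨i, hi'⟩ : K)) (δ (z ⟨i + 1, hi⟩ : K)) with h | h
    · left
      exact hδP _ _ (by linarith)
    · right
      exact hδP _ _ (by rw [dist_comm]; linarith)
  obtain ⟨c, hc⟩ := glue N (P := fun i => PP Φ (n + 1) (z' i)) (s := fun i => s (z' i))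
    (fun i => hCP _ _) (fun i => hs (z' i)) hnest
  let S : Fin N → V (n + 1) → ℤ := fun i v => s (z' i) v + c i
  have hPi : ∀ (i : Fin N) (x : Lim V f), Φ x ∈ U i → Φ x ∈ K →
      x.1 (n + 1) ∈ PP Φ (n + 1) (z' i) := by
    intro i x h1 h2
    rw [hz']
    refine hδP _ (Φ x) ?_ ⟨x, rfl, rfl⟩
    have h3 := hz i (Φ x) ⟨h1, h2⟩
    have := hδ (z i : K)
    linarith
  have hSeq : ∀ (i j : Fin N) (x : Lim V f), Φ x ∈ U i → Φ x ∈ U j → Φ x ∈ K →
      S i (x.1 (n + 1)) = S j (x.1 (n + 1)) := by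
    intro i j x h1 h2 h3
    have hij := (hUU i j).1 ⟨Φ x, ⟨h1, h2⟩, h3⟩
    have m1 := hPi i x h1 h3
    have m2 := hPi j x h2 h3
    rcases lt_trichotomy i.val j.val with h | h | h
    · have e : j.val = i.val + 1 := by omega
      have := hc i.val (by omega) (x.1 (n + 1)) ⟨m1, by rw [← e]; exact m2⟩
      simp only [S]
      rw [e]
      exact this
    · have : i = j := Fin.ext h
      rw [this]
    · have e : i.val = j.val + 1 := by omega
      have := hc j.val (by omega) (x.1 (n + 1)) ⟨m2, by rw [← e]; exact m1⟩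
      simp only [S]
      rw [e]
      exact this.symm
  have hadj_down : ∀ l (x x' : Lim V f), adj (l + 1) (x.1 (l + 1)) (x'.1 (l + 1)) →
      adj l (x.1 l) (x'.1 l) := by
    intro l x x' h
    have := hslow l _ _ _ h (hrefl (l + 1) _)
    rwa [x.2 l, x'.2 l] at this
  have hadj_down' : ∀ l k (x x' : Lim V f), adj (l + k) (x.1 (l + k)) (x'.1 (l + k)) →
      adj l (x.1 l) (x'.1 l) := by
    intro l k
    induction k with
    | zero => intro x x' h; exact h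
    | succ k ih => intro x x' h; exact ih x x' (hadj_down (l + k) x x' h)
  -- compactness
  have hk : ∃ k, ∀ x x' : Lim V f, Φ x ∈ K → Φ x' ∈ K →
      adj (n + 1 + k) (x.1 (n + 1 + k)) (x'.1 (n + 1 + k)) → ∃ i, Φ x ∈ U i ∧ Φ x' ∈ U i := by
    by_contra hcon
    push Not at hcon
    let B : Set (Lim V f × Lim V f) :=
      {p | Φ p.1 ∈ K ∧ Φ p.2 ∈ K} ∩ (⋃ i, {p | Φ p.1 ∈ U i ∧ Φ p.2 ∈ U i})ᶜ
    have hB : IsClosed B := by
      refine IsClosed.inter ?_ ?_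
      · exact (hK.isClosed.preimage (hΦ.comp continuous_fst)).inter
          (hK.isClosed.preimage (hΦ.comp continuous_snd))
      · rw [isClosed_compl_iff]
        refine isOpen_iUnion fun i => ?_
        exact ((hUo i).preimage (hΦ.comp continuous_fst)).inter
          ((hUo i).preimage (hΦ.comp continuous_snd))
    have hA : ∀ k, IsClosed {p : Lim V f × Lim V f |
        adj (n + 1 + k) (p.1.1 (n + 1 + k)) (p.2.1 (n + 1 + k))} := by
      intro k
      have hcont : Continuous (fun p : Lim V f × Lim V f =>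
          (p.1.1 (n + 1 + k), p.2.1 (n + 1 + k))) :=
        ((cont_coord (n + 1 + k)).comp continuous_fst).prodMk
          ((cont_coord (n + 1 + k)).comp continuous_snd)
      exact (isClosed_discrete {p : V (n + 1 + k) × V (n + 1 + k) | adj (n + 1 + k) p.1 p.2}).preimage
        hcont
    have key := IsCompact.nonempty_iInter_of_sequence_nonempty_isCompact_isClosed
      (fun k => B ∩ {p : Lim V f × Lim V f |
        adj (n + 1 + k) (p.1.1 (n + 1 + k)) (p.2.1 (n + 1 + k))}) ?_ ?_ ?_ ?_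
    · obtain ⟨⟨x, x'⟩, hxx⟩ := key
      rw [Set.mem_iInter] at hxx
      have h1 : q x = q x' := by
        rw [hqR]
        intro l
        have h2 := (hxx l).2
        have h3 : ∀ j, adj (l + j) (x.1 (l + j)) (x'.1 (l + j)) → adj l (x.1 l) (x'.1 l) :=
          fun j h => hadj_down' l j x x' h
        have h4 : l + (n + 1) = n + 1 + l := by omega
        apply h3 (n + 1)
        rw [h4]
        exact h2
      have h5' : Φ x = Φ x' := by simp only [hΦdef, Function.comp_apply, h1]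
      have h6 := (hxx 0).1
      have h7 := hUc h6.1.1
      rw [Set.mem_iUnion] at h7
      obtain ⟨i, hi⟩ := h7
      apply h6.2
      rw [Set.mem_iUnion]
      exact ⟨i, hi, by rw [← h5']; exact hi⟩
    · rintro k ⟨x, x'⟩ ⟨h1, h2⟩
      exact ⟨h1, hadj_down (n + 1 + k) x x' h2⟩
    · intro k
      obtain ⟨x, x', h1, h2, h3, h4⟩ := hcon k
      refine ⟨(x, x'), ⟨⟨h1, h2⟩, ?_⟩, h3⟩
      intro h
      rw [Set.mem_iUnion] at h
      obtain ⟨i, hi1, hi2⟩ := h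
      exact h4 i hi1 hi2
    · exact (hB.inter (hA 0)).isCompact
    · intro k
      exact hB.inter (hA k)
  obtain ⟨k, hk⟩ := hk
  apply hα1 k
  have hch : ∀ u : V (n + 1 + k), ∃ (w : ℤ), u ∈ HH Φ K (n + 1 + k) → ∃ (x : Lim V f) (i : Fin N),
      Φ x ∈ K ∧ x.1 (n + 1 + k) = u ∧ Φ x ∈ U i ∧ w = S i (x.1 (n + 1)) := by
    intro u
    by_cases hu : u ∈ HH Φ K (n + 1 + k)
    · obtain ⟨x, hx1, hx2⟩ := hu
      have h7 := hUc hx1
      rw [Set.mem_iUnion] at h7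
      obtain ⟨i, hi⟩ := h7
      exact ⟨S i (x.1 (n + 1)), fun _ => ⟨x, i, hx1, hx2, hi, rfl⟩⟩
    · exact ⟨0, fun h => absurd h hu⟩
  choose w hw using hch
  refine ⟨w, ?_⟩
  intro u hu v hv huv
  obtain ⟨x, i, hx1, rfl, hx3, hx4⟩ := hw u hu
  obtain ⟨x', i', hx1', rfl, hx3', hx4'⟩ := hw v hv
  obtain ⟨j, hj1, hj2⟩ := hk x x' hx1 hx1' huv
  rw [hx4, hx4', hSeq i j x hx3 hj1 hx1, hSeq i' j x' hx3' hj2 hx1', proj_coord, proj_coord]
  have h1 := hs (z' j) _ (hPi j x hj1 hx1) _ (hPi j x' hj2 hx1') (hadj_down' _ _ _ _ huv)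
  simp only [S]
  linarith

end Pool.Agent.Helper464.GlueTB
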