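import Pool.Agent.Helper464.TimeGA

set_option autoImplicit false

namespace Pool.Agent.Helper464.Tw

theorem exists_tw {X : Type} (O : ℕ → X) (s e t : ℕ) (hs : s ≤ t) (ht : t ≤ e)
    (D : Finset (ℕ × ℕ)) (hD : ∀ p ∈ D, s ≤ p.1 ∧ p.1 + p.2 ≤ e ∧ O (p.1 + p.2) = O p.1) :
    ∃ (w : ℕ → ℕ) (n : ℕ), w 0 = t ∧ (∀ y, n ≤ y → w y = t) ∧ (∀ y, s ≤ w y ∧ w y ≤ e) ∧
      (∀ y, w y = w (y + 1) ∨ w (y + 1) = w y + 1 ∨ w y = w (y + 1) + 1 ∨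
        ∃ p ∈ D, (w y = p.1 ∧ w (y + 1) = p.1 + p.2) ∨ (w (y + 1) = p.1 ∧ w y = p.1 + p.2)) ∧
      (∀ r, s ≤ r → r ≤ e → ∃ y, y ≤ n ∧ w y = r) ∧
      ∀ α : X → X → ℤ, (∀ x y, α x y = - α y x) →
        ∑ y ∈ Finset.range n, α (O (w y)) (O (w (y + 1)))
          = ∑ p ∈ D, ∑ r ∈ Finset.range p.2, α (O (p.1 + r)) (O (p.1 + r + 1)) :=
  Pool.Agent.Helper464.TimeGA.exists_tw O s e t hs ht D hD

end Pool.Agent.Helper464.Tw
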