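import Pool.Agent.Helper464.Card
import Pool.Agent.Helper464.Tw

set_option autoImplicit false

namespace Pool.Agent.Helper464.Gmap

open Pool.Agent.Helper464.Cact Pool.Agent.Helper464.Omega Pool.Agent.Helper464.Chain
  Pool.Agent.Helper464.Card

/-- states: the interval and the time -/
abbrev St := ℕ × ℕ × ℕ

def Valid (d N : ℕ) (σ : St) : Prop := σ.1 ≤ σ.2.2 ∧ σ.2.2 ≤ σ.2.1 ∧ σ.2.1 < Bs N ^ d

open Classical in
/-- the set of loops available in `s..e` -/
noncomputable def Dset (d N s e : ℕ) : Finset (ℕ × ℕ) :=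
  (((Finset.range (d + 1)) ×ˢ (Finset.range (e + 1))).filter
    (fun p => DB d N s e p.1 p.2)).image (fun p => (p.2, Bs N ^ (d - p.1)))

theorem mem_Dset {d N s e : ℕ} {p : ℕ × ℕ} :
    p ∈ Dset d N s e ↔ ∃ i a, DB d N s e i a ∧ p = (a, Bs N ^ (d - i)) := by
  classical
  unfold Dset
  rw [Finset.mem_image]
  constructor
  · rintro ⟨q, hq, h⟩
    rw [Finset.mem_filter] at hq
    exact ⟨q.1, q.2, hq.2, h.symm⟩
  · rintro ⟨i, a, h1, h2⟩
    refine ⟨(i, a), ?_, h2.symm⟩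
    rw [Finset.mem_filter, Finset.mem_product, Finset.mem_range, Finset.mem_range]
    refine ⟨⟨?_, ?_⟩, h1⟩
    · have := h1.2.1; simp only; omega
    · have h3 := h1.2.2.2.2
      have : 0 < Bs N ^ (d - i) := by have := Bs_pos N; positivity
      simp only; omega

/-- The data of the closed time walks. -/
structure Walks (d N : ℕ) (w : St → ℕ → ℕ) (n : St → ℕ) : Prop where
  zero : ∀ σ, Valid d N σ → w σ 0 = σ.2.2
  late : ∀ σ, Valid d N σ → ∀ y, n σ ≤ y → w σ y = σ.2.2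
  bd : ∀ σ, Valid d N σ → ∀ y, σ.1 ≤ w σ y ∧ w σ y ≤ σ.2.1
  rel : ∀ σ, Valid d N σ → ∀ y, Rel d N σ.1 σ.2.1 (w σ y) (w σ (y + 1))
  cov : ∀ σ, Valid d N σ → ∀ r, σ.1 ≤ r → r ≤ σ.2.1 → ∃ y, y ≤ n σ ∧ w σ y = r
  deg : ∀ σ, Valid d N σ → ∀ α : W → W → ℤ, Anti α →
    ∑ y ∈ Finset.range (n σ), α (Om d N (w σ y)) (Om d N (w σ (y + 1)))
      = ∑ p ∈ Dset d N σ.1 σ.2.1, Sg d N α p.1 p.2

theorem exists_walks (d N : ℕ) : ∃ w n, Walks d N w n := by
  classical
  have H : ∀ σ : St, ∃ (w : ℕ → ℕ) (n : ℕ), Valid d N σ →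
      (w 0 = σ.2.2 ∧ (∀ y, n ≤ y → w y = σ.2.2) ∧ (∀ y, σ.1 ≤ w y ∧ w y ≤ σ.2.1) ∧
      (∀ y, w y = w (y + 1) ∨ w (y + 1) = w y + 1 ∨ w y = w (y + 1) + 1 ∨
        ∃ p ∈ Dset d N σ.1 σ.2.1, (w y = p.1 ∧ w (y + 1) = p.1 + p.2) ∨
          (w (y + 1) = p.1 ∧ w y = p.1 + p.2)) ∧
      (∀ r, σ.1 ≤ r → r ≤ σ.2.1 → ∃ y, y ≤ n ∧ w y = r) ∧
      ∀ α : W → W → ℤ, (∀ x y, α x y = - α y x) →
        ∑ y ∈ Finset.range n, α (Om d N (w y)) (Om d N (w (y + 1)))
          = ∑ p ∈ Dset d N σ.1 σ.2.1,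
            ∑ r ∈ Finset.range p.2, α (Om d N (p.1 + r)) (Om d N (p.1 + r + 1))) := by
    intro σ
    by_cases hσ : Valid d N σ
    · obtain ⟨w, n, h⟩ := Tw.exists_tw (Om d N) σ.1 σ.2.1 σ.2.2 hσ.1 hσ.2.1
        (Dset d N σ.1 σ.2.1) (by
          intro p hp
          rw [mem_Dset] at hp
          obtain ⟨i, a, h1, h2⟩ := hp
          have hL : 0 < Bs N ^ (d - i) := by have := Bs_pos N; positivity
          rw [h2]
          refine ⟨h1.2.2.2.1, ?_, ?_⟩
          · have := h1.2.2.2.2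
            simp only
            omega
          · have := Om_period (d := d) (N := N) (i := i) (a := a) (r := 0) h1.2.2.1 hL
            simpa using this)
      exact ⟨w, n, fun _ => h⟩
    · exact ⟨fun _ => 0, 0, fun h => absurd h hσ⟩
  choose w n H using H
  refine ⟨w, n, ⟨fun σ h => (H σ h).1, fun σ h => (H σ h).2.1, fun σ h => (H σ h).2.2.1, ?_,
    fun σ h => (H σ h).2.2.2.2.1, fun σ h α hα => (H σ h).2.2.2.2.2 α hα⟩⟩
  intro σ h y
  rcases (H σ h).2.2.2.1 y with h1 | h1 | h1 | ⟨p, hp, h1⟩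
  · exact Or.inl h1
  · exact Or.inr (Or.inl h1)
  · exact Or.inr (Or.inr (Or.inl h1))
  · rw [mem_Dset] at hp
    obtain ⟨i, a, h2, h3⟩ := hp
    rw [h3] at h1
    exact Or.inr (Or.inr (Or.inr ⟨i, a, h2, h1⟩))

/-- The successor interval. -/
theorem exists_succ (d N : ℕ) : ∃ sc : St → ℕ × ℕ, ∀ σ, Valid d N σ →
    2 ≤ (im d N σ.1 σ.2.1).card →
    Ch σ.1 σ.2.1 σ.2.2 (sc σ).1 (sc σ).2 ∧
      (im d N (sc σ).1 (sc σ).2).card + 1 = (im d N σ.1 σ.2.1).card := by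
  classical
  have H : ∀ σ : St, ∃ p : ℕ × ℕ, Valid d N σ → 2 ≤ (im d N σ.1 σ.2.1).card →
      Ch σ.1 σ.2.1 σ.2.2 p.1 p.2 ∧ (im d N p.1 p.2).card + 1 = (im d N σ.1 σ.2.1).card := by
    intro σ
    by_cases hσ : Valid d N σ ∧ 2 ≤ (im d N σ.1 σ.2.1).card
    · obtain ⟨s', e', h1, h2⟩ := exists_Ch (d := d) (N := N)
        (c := (im d N σ.1 σ.2.1).card - 1) (by omega) _ σ.1 σ.2.1 σ.2.2 rfl hσ.1.1 hσ.1.2.1
        (by omega)
      exact ⟨(s', e'), fun _ _ => ⟨h1, by simp only; omega⟩⟩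
    · exact ⟨(0, 0), fun h1 h2 => absurd ⟨h1, h2⟩ hσ⟩
  choose sc H using H
  exact ⟨sc, H⟩

/-- The state after reading the first `k` coordinates. -/
def st (d N : ℕ) (w : St → ℕ → ℕ) (sc : St → ℕ × ℕ) : ℕ → W → St
  | 0, _ => (0, Bs N ^ d - 1, 0)
  | k + 1, x =>
    ((sc ((st d N w sc k x).1, (st d N w sc k x).2.1, w (st d N w sc k x) (x k))).1,
      (sc ((st d N w sc k x).1, (st d N w sc k x).2.1, w (st d N w sc k x) (x k))).2,
      w (st d N w sc k x) (x k))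

section

variable {d N : ℕ} {w : St → ℕ → ℕ} {n : St → ℕ} {sc : St → ℕ × ℕ}

/-- the image of the interval of the state -/
noncomputable def Im (d N : ℕ) (σ : St) : Finset W := im d N σ.1 σ.2.1

theorem st_inv (hN : 0 < N) (hw : Walks d N w n)
    (hsc : ∀ σ, Valid d N σ → 2 ≤ (im d N σ.1 σ.2.1).card →
      Ch σ.1 σ.2.1 σ.2.2 (sc σ).1 (sc σ).2 ∧
        (im d N (sc σ).1 (sc σ).2).card + 1 = (im d N σ.1 σ.2.1).card) (x : W) :
    ∀ k, k + 1 ≤ N ^ d → Valid d N (st d N w sc k x) ∧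
      (Im d N (st d N w sc k x)).card + k = N ^ d := by
  intro k
  induction k with
  | zero =>
    intro _
    have hB : 0 < Bs N ^ d := by have := Bs_pos N; positivity
    refine ⟨⟨Nat.zero_le _, Nat.zero_le _, ?_⟩, ?_⟩
    · show Bs N ^ d - 1 < Bs N ^ d
      omega
    · show (im d N 0 (Bs N ^ d - 1)).card + 0 = N ^ d
      rw [add_zero]
      exact (im_all hN).2
  | succ k ih =>
    intro hk
    obtain ⟨h1, h2⟩ := ih (by omega)
    set σ := st d N w sc k x with hσ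
    have h3 : Valid d N (σ.1, σ.2.1, w σ (x k)) :=
      ⟨(hw.bd σ h1 _).1, (hw.bd σ h1 _).2, h1.2.2⟩
    have h4 : 2 ≤ (im d N σ.1 σ.2.1).card := by
      have : (im d N σ.1 σ.2.1).card + k = N ^ d := h2
      omega
    obtain ⟨h5, h6⟩ := hsc _ h3 h4
    have h7 := Ch_bounds h5 h3.1 h3.2.1
    refine ⟨⟨h7.2.1, h7.2.2.1, ?_⟩, ?_⟩
    · show (sc (σ.1, σ.2.1, w σ (x k))).2 < Bs N ^ d
      have := h1.2.2
      have := h7.2.2.2
      simp only at this
      omega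
    · show (im d N (sc (σ.1, σ.2.1, w σ (x k))).1 (sc (σ.1, σ.2.1, w σ (x k))).2).card
        + (k + 1) = N ^ d
      have : (im d N σ.1 σ.2.1).card + k = N ^ d := h2
      simp only at h6
      omega

theorem st_congr {x y : W} : ∀ k, Ce k x y → st d N w sc k x = st d N w sc k y := by
  intro k
  induction k with
  | zero => intro _; rfl
  | succ k ih =>
    intro h
    have h1 := ih (fun j hj => h j (by omega))
    have h2 : x k = y k := h k (by omega)
    show ((sc ((st d N w sc k x).1, (st d N w sc k x).2.1, w (st d N w sc k x) (x k))).1,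
      (sc ((st d N w sc k x).1, (st d N w sc k x).2.1, w (st d N w sc k x) (x k))).2,
      w (st d N w sc k x) (x k)) = _
    rw [h1, h2]
    rfl

/-- nested intervals -/
theorem st_nested (hN : 0 < N) (hw : Walks d N w n)
    (hsc : ∀ σ, Valid d N σ → 2 ≤ (im d N σ.1 σ.2.1).card →
      Ch σ.1 σ.2.1 σ.2.2 (sc σ).1 (sc σ).2 ∧
        (im d N (sc σ).1 (sc σ).2).card + 1 = (im d N σ.1 σ.2.1).card) (x : W) (k : ℕ) :
    ∀ r, k + r + 1 ≤ N ^ d → (st d N w sc k x).1 ≤ (st d N w sc (k + r) x).1 ∧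
      (st d N w sc (k + r) x).2.1 ≤ (st d N w sc k x).2.1 := by
  intro r
  induction r with
  | zero => intro _; exact ⟨le_rfl, le_rfl⟩
  | succ r ih =>
    intro hk
    obtain ⟨h1, h2⟩ := ih (by omega)
    obtain ⟨h3, h4⟩ := st_inv hN hw hsc x (k + r) (by omega)
    set σ := st d N w sc (k + r) x with hσ
    have h5 : Valid d N (σ.1, σ.2.1, w σ (x (k + r))) :=
      ⟨(hw.bd σ h3 _).1, (hw.bd σ h3 _).2, h3.2.2⟩
    have h6 : 2 ≤ (im d N σ.1 σ.2.1).card := by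
      have : (im d N σ.1 σ.2.1).card + (k + r) = N ^ d := h4
      omega
    have h7 := Ch_bounds (hsc _ h5 h6).1 h5.1 h5.2.1
    simp only at h7
    show _ ≤ (sc (σ.1, σ.2.1, w σ (x (k + r)))).1 ∧
      (sc (σ.1, σ.2.1, w σ (x (k + r)))).2 ≤ _
    omega

/-- zero continuation -/
theorem st_zero (hN : 0 < N) (hw : Walks d N w n)
    (hsc : ∀ σ, Valid d N σ → 2 ≤ (im d N σ.1 σ.2.1).card →
      Ch σ.1 σ.2.1 σ.2.2 (sc σ).1 (sc σ).2 ∧
        (im d N (sc σ).1 (sc σ).2).card + 1 = (im d N σ.1 σ.2.1).card) (x : W) (k : ℕ)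
    (hx : ∀ j, k ≤ j → x j = 0) :
    ∀ r, k + r + 1 ≤ N ^ d → (st d N w sc (k + r) x).2.2 = (st d N w sc k x).2.2 ∧
      Ch (st d N w sc k x).1 (st d N w sc k x).2.1 (st d N w sc k x).2.2
        (st d N w sc (k + r) x).1 (st d N w sc (k + r) x).2.1 := by
  intro r
  induction r with
  | zero =>
    intro hk
    obtain ⟨h3, h4⟩ := st_inv hN hw hsc x k (by omega)
    exact ⟨rfl, Or.inl ⟨le_rfl, h3.1, rfl⟩⟩
  | succ r ih =>
    intro hk
    obtain ⟨h1, h2⟩ := ih (by omega)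
    obtain ⟨h3, h4⟩ := st_inv hN hw hsc x (k + r) (by omega)
    set σ := st d N w sc (k + r) x with hσ
    have hxk : x (k + r) = 0 := hx _ (by omega)
    have h0 : w σ (x (k + r)) = σ.2.2 := by rw [hxk]; exact hw.zero σ h3
    have h6 : 2 ≤ (im d N σ.1 σ.2.1).card := by
      have : (im d N σ.1 σ.2.1).card + (k + r) = N ^ d := h4
      omega
    have h7 := (hsc σ h3 h6).1
    have e : st d N w sc (k + (r + 1)) x = ((sc σ).1, (sc σ).2, σ.2.2) := by
      show ((sc (σ.1, σ.2.1, w σ (x (k + r)))).1, (sc (σ.1, σ.2.1, w σ (x (k + r)))).2,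
        w σ (x (k + r))) = _
      rw [h0]
    rw [e]
    refine ⟨h1, ?_⟩
    rw [h1] at h7
    exact Ch_trans h2 h7

/-- The map of the cactus of depth `N ^ d - 1`. -/
def gm (d N : ℕ) (w : St → ℕ → ℕ) (sc : St → ℕ × ℕ) (x : W) : W :=
  Om d N (st d N w sc (N ^ d - 1) x).2.2

/-- all data -/
structure Dat (d N : ℕ) (w : St → ℕ → ℕ) (n : St → ℕ) (sc : St → ℕ × ℕ) (N' : ℕ) : Prop where
  hN : 0 < N
  hw : Walks d N w n
  hsc : ∀ σ, Valid d N σ → 2 ≤ (im d N σ.1 σ.2.1).card →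
      Ch σ.1 σ.2.1 σ.2.2 (sc σ).1 (sc σ).2 ∧
        (im d N (sc σ).1 (sc σ).2).card + 1 = (im d N σ.1 σ.2.1).card
  hN' : ∀ σ, Valid d N σ → n σ + 1 ≤ N'
  h9 : 9 ≤ N'

variable {N' : ℕ}

theorem gm_mem_Im (D : Dat d N w n sc N') (x : W) (k : ℕ) (hk : k + 1 ≤ N ^ d) :
    gm d N w sc x ∈ Im d N (st d N w sc k x) := by
  obtain ⟨h1, h2⟩ := st_nested D.hN D.hw D.hsc x k (N ^ d - 1 - k) (by omega)
  have e : k + (N ^ d - 1 - k) = N ^ d - 1 := by omega
  rw [e] at h1 h2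
  obtain ⟨h3, h4⟩ := st_inv D.hN D.hw D.hsc x (N ^ d - 1) (by omega)
  unfold Im gm
  rw [mem_im]
  exact ⟨_, le_trans h1 h3.1, le_trans h3.2.1 h2, rfl⟩

theorem Ce_vt (p : W) (k y : ℕ) : Ce k p (vt p k y) := by
  intro j hj
  unfold vt
  rw [if_pos hj]

theorem vt_at (p : W) (k y : ℕ) : vt p k y k = y := by
  unfold vt
  rw [if_neg (lt_irrefl k), if_pos rfl]

theorem vt_after {p : W} {k y j : ℕ} (h : k < j) : vt p k y j = 0 := by
  unfold vt
  rw [if_neg (by omega), if_neg (by omega)]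

theorem st_vt (p : W) (k y : ℕ) :
    st d N w sc (k + 1) (vt p k y)
      = ((sc ((st d N w sc k p).1, (st d N w sc k p).2.1, w (st d N w sc k p) y)).1,
      (sc ((st d N w sc k p).1, (st d N w sc k p).2.1, w (st d N w sc k p) y)).2,
      w (st d N w sc k p) y) := by
  have h1 : st d N w sc k (vt p k y) = st d N w sc k p := (st_congr k (Ce_vt p k y)).symm
  show ((sc ((st d N w sc k (vt p k y)).1, (st d N w sc k (vt p k y)).2.1,
      w (st d N w sc k (vt p k y)) (vt p k y k))).1,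
      (sc ((st d N w sc k (vt p k y)).1, (st d N w sc k (vt p k y)).2.1,
      w (st d N w sc k (vt p k y)) (vt p k y k))).2,
      w (st d N w sc k (vt p k y)) (vt p k y k)) = _
  rw [h1, vt_at]

theorem gm_vt (D : Dat d N w n sc N') (p : W) (k y : ℕ) (hk : k + 1 < N ^ d) :
    gm d N w sc (vt p k y) = Om d N (w (st d N w sc k p) y) := by
  have h1 := (st_zero D.hN D.hw D.hsc (vt p k y) (k + 1) (fun j hj => vt_after (by omega))
    (N ^ d - 1 - (k + 1)) (by omega)).1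
  have e : k + 1 + (N ^ d - 1 - (k + 1)) = N ^ d - 1 := by omega
  rw [e, st_vt] at h1
  unfold gm
  rw [h1]

theorem gm_cover (D : Dat d N w n sc N') (p : W) (k : ℕ) (hk : k + 1 < N ^ d) {z : W}
    (hz : z ∈ Im d N (st d N w sc k p)) : ∃ y, y < N' ∧ gm d N w sc (vt p k y) = z := by
  obtain ⟨h3, h4⟩ := st_inv D.hN D.hw D.hsc p k (by omega)
  unfold Im at hz
  rw [mem_im] at hz
  obtain ⟨r, h5, h6, h7⟩ := hz
  obtain ⟨y, h8, h9⟩ := D.hw.cov _ h3 r h5 h6
  refine ⟨y, ?_, ?_⟩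
  · have := D.hN' _ h3; omega
  · rw [gm_vt D p k y hk, h9, h7]

/-- the relation of the times of adjacent vertices of a top cycle -/
theorem rel_Cy (D : Dat d N w n sc N') {σ : St} (hσ : Valid d N σ) {a b : ℕ}
    (h : Cy N' a b) : Rel d N σ.1 σ.2.1 (w σ a) (w σ b) := by
  have hn := D.hN' σ hσ
  rcases h with h | h | h | ⟨h1, h2⟩ | ⟨h1, h2⟩
  · rw [h]; exact Or.inl rfl
  · rw [h]; exact D.hw.rel σ hσ a
  · rw [h]; exact Rel_symm (D.hw.rel σ hσ b)
  · left
    rw [h1, D.hw.zero σ hσ, D.hw.late σ hσ b (by omega)]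
  · left
    rw [h1, D.hw.zero σ hσ, D.hw.late σ hσ a (by omega)]

/-- normal form of adjacency in the cactus -/
theorem Ad_cases {d' N' : ℕ} {x x' : W} (hx : x ∈ K d' N') (hx' : x' ∈ K d' N')
    (h : Ad N' x x') : x = x' ∨ ∃ j, j < d' ∧ Ce j x x' ∧ Cy N' (x j) (x' j) ∧
      x = vt x j (x j) ∧ x' = vt x j (x' j) := by
  rcases h with h | ⟨j, h1, h2, h3⟩
  · exact Or.inl h
  · by_cases hj : j < d'
    · refine Or.inr ⟨j, hj, h1, h2, ?_, ?_⟩
      · exact eq_vt (fun _ _ => rfl) (fun i hi => (h3 i hi).1)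
      · exact eq_vt h1 (fun i hi => (h3 i hi).2)
    · left
      funext i
      rcases Nat.lt_or_ge i j with h4 | h4
      · exact h1 i h4
      · rw [hx.2 i (by omega), hx'.2 i (by omega)]

theorem gm_hom (D : Dat d N w n sc N') {x x' : W} (hx : x ∈ K (N ^ d - 1) N')
    (hx' : x' ∈ K (N ^ d - 1) N') (h : Ad N' x x') :
    Ad N (gm d N w sc x) (gm d N w sc x') := by
  rcases Ad_cases hx hx' h with h1 | ⟨j, h1, h2, h3, h4, h5⟩
  · rw [h1]; exact Or.inl rfl
  · obtain ⟨h6, h7⟩ := st_inv D.hN D.hw D.hsc x j (by omega)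
    rw [h4, h5, gm_vt D x j _ (by omega), gm_vt D x j _ (by omega)]
    exact Rel_Ad D.hN h6.2.2 (D.hw.bd _ h6 _).2 (D.hw.bd _ h6 _).2 (rel_Cy D h6 h3)

open Classical in
/-- adjacent vertices have nearly the same images -/
theorem Im_cont (D : Dat d N w n sc N') {x x' : W} (hx : x ∈ K (N ^ d - 1) N')
    (hx' : x' ∈ K (N ^ d - 1) N') (h : Ad N' x x') (k : ℕ) (hk : k + 1 ≤ N ^ d) :
    (Im d N (st d N w sc k x') \ Im d N (st d N w sc k x)).card ≤ 1 := by
  rcases Ad_cases hx hx' h with h1 | ⟨j, h1, h2, h3, h4, h5⟩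
  · rw [h1]; simp
  · by_cases hjk : j < k
    · obtain ⟨h6, h7⟩ := st_inv D.hN D.hw D.hsc x j (by omega)
      set σ := st d N w sc j x with hσ
      have hz1 := (st_zero D.hN D.hw D.hsc x (j + 1) (fun i hi => by
        rw [h4]; exact vt_after (by omega)) (k - (j + 1)) (by omega)).2
      have hz2 := (st_zero D.hN D.hw D.hsc x' (j + 1) (fun i hi => by
        rw [h5]; exact vt_after (by omega)) (k - (j + 1)) (by omega)).2
      have e : j + 1 + (k - (j + 1)) = k := by omega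
      rw [e] at hz1 hz2
      have e1 := st_vt (d := d) (N := N) (w := w) (sc := sc) x j (x j)
      rw [← h4] at e1
      have e2 := st_vt (d := d) (N := N) (w := w) (sc := sc) x j (x' j)
      rw [← h5] at e2
      have e1' := e1
      rw [← hσ] at e1 e2
      rw [e1] at hz1
      rw [e2] at hz2
      have hv1 : Valid d N (σ.1, σ.2.1, w σ (x j)) :=
        ⟨(D.hw.bd σ h6 _).1, (D.hw.bd σ h6 _).2, h6.2.2⟩
      have hv2 : Valid d N (σ.1, σ.2.1, w σ (x' j)) :=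
        ⟨(D.hw.bd σ h6 _).1, (D.hw.bd σ h6 _).2, h6.2.2⟩
      have hc : 2 ≤ (im d N σ.1 σ.2.1).card := by
        have : (im d N σ.1 σ.2.1).card + j = N ^ d := h7
        omega
      have hs1 := (D.hsc _ hv1 hc).1
      have hs2 := (D.hsc _ hv2 hc).1
      have hi1 := (st_inv D.hN D.hw D.hsc x k hk).2
      have hi2 := (st_inv D.hN D.hw D.hsc x' k hk).2
      refine cont (d := d) (N := N) (s := σ.1) (e := σ.2.1) hv1.1 hv1.2.1 hv2.1 hv2.2.1
        (rel_Cy D h6 h3) (Ch_trans hs1 hz1) (Ch_trans hs2 hz2) ?_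
      unfold Im at hi1 hi2
      omega
    · have : st d N w sc k x = st d N w sc k x' :=
        st_congr k (fun i hi => h2 i (by omega))
      rw [this]; simp

/-- A set meeting at most two cells. -/
theorem two_cells (D : Dat d N w n sc N') {Q : Set W} (hQ : Q ⊆ K (N ^ d - 1) N')
    (hconn : Cn (Ad N') Q) {k : ℕ} (hk : k + 1 ≤ N ^ d) (hM : ¬ M3 k Q) (hne : Q.Nonempty) :
    ∃ a ∈ Q, ∃ b ∈ Q, (∀ q ∈ Q, Ce k a q ∨ Ce k b q) ∧
      (Im d N (st d N w sc k b) ∪ Im d N (st d N w sc k a) : Set W).ncard + k ≤ N ^ d + 1 := by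
  classical
  obtain ⟨a, ha⟩ := hne
  have hcard : ∀ x, (Im d N (st d N w sc k x)).card + k = N ^ d :=
    fun x => (st_inv D.hN D.hw D.hsc x k hk).2
  by_cases hall : ∀ q ∈ Q, Ce k a q
  · refine ⟨a, ha, a, ha, fun q hq => Or.inl (hall q hq), ?_⟩
    rw [Set.union_self, Set.ncard_coe_finset]
    have := hcard a
    omega
  · push Not at hall
    obtain ⟨b, hb, hab⟩ := hall
    have h2 : ∀ q ∈ Q, Ce k a q ∨ Ce k b q := by
      intro q hq
      by_contra hc
      push Not at hc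
      exact hM ⟨a, ha, b, hb, q, hq, hab, hc.2, hc.1⟩
    -- an edge between the two cells
    have hedge : ∃ a' ∈ Q, ∃ b' ∈ Q, Ce k a a' ∧ ¬ Ce k a b' ∧ Ad N' a' b' := by
      by_contra hc
      push Not at hc
      have := hconn {q | q ∈ Q ∧ Ce k a q} (fun q hq => hq.1) ⟨a, ha, fun _ _ => rfl⟩
        (fun a' ha' b' hb' hadj => ⟨hb', by
          by_contra hcc
          exact hc a' ha'.1 b' hb' ha'.2 hcc hadj⟩)
      have h3 : b ∈ {q | q ∈ Q ∧ Ce k a q} := by rw [this]; exact hb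
      exact hab h3.2
    obtain ⟨a', ha', b', hb', h3, h4, h5⟩ := hedge
    have h6 : Ce k b b' := (h2 b' hb').resolve_left h4
    refine ⟨a, ha, b, hb, h2, ?_⟩
    have e1 : st d N w sc k a = st d N w sc k a' := st_congr k h3
    have e2 : st d N w sc k b = st d N w sc k b' := st_congr k h6
    have h7 := Im_cont D (hQ ha') (hQ hb') h5 k hk
    rw [e1, e2]
    have h8 : (Im d N (st d N w sc k b') ∪ Im d N (st d N w sc k a') : Set W)
        = ↑((Im d N (st d N w sc k b') \ Im d N (st d N w sc k a'))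
          ∪ Im d N (st d N w sc k a')) := by
      rw [Finset.coe_union, Finset.coe_sdiff, Set.diff_union_self]
    rw [h8, Set.ncard_coe_finset]
    have h9 := Finset.card_union_le (Im d N (st d N w sc k b') \ Im d N (st d N w sc k a'))
      (Im d N (st d N w sc k a'))
    have := hcard a'
    omega

theorem image_sub (D : Dat d N w n sc N') {Q : Set W} {k : ℕ} (hk : k + 1 ≤ N ^ d) {a b : W}
    (h : ∀ q ∈ Q, Ce k a q ∨ Ce k b q) :
    gm d N w sc '' Q ⊆ (Im d N (st d N w sc k b) ∪ Im d N (st d N w sc k a) : Set W) := by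
  rintro _ ⟨q, hq, rfl⟩
  rcases h q hq with h1 | h1
  · right
    rw [st_congr k h1]
    exact gm_mem_Im D q k hk
  · left
    rw [st_congr k h1]
    exact gm_mem_Im D q k hk

theorem gm_fine4 (D : Dat d N w n sc N') {Q : Set W} (hQ : Q ⊆ K (N ^ d - 1) N')
    (hconn : Cn (Ad N') Q) {k : ℕ} (hk : k ≤ N ^ d - 1) (hM : ¬ M3 k Q)
    (hk2 : N ^ d - 1 ≤ k + 2) : (gm d N w sc '' Q).ncard ≤ 4 := by
  have hpos : 0 < N ^ d := by have := D.hN; positivity
  rcases Set.eq_empty_or_nonempty Q with h0 | hne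
  · rw [h0, Set.image_empty, Set.ncard_empty]; omega
  · obtain ⟨a, ha, b, hb, h1, h2⟩ := two_cells D hQ hconn (k := k) (by omega) hM hne
    have h3 := Set.ncard_le_ncard (image_sub D (k := k) (by omega) h1)
      (Set.toFinite _)
    omega

theorem gm_fine3 (D : Dat d N w n sc N') {Q : Set W} (hQ : Q ⊆ K (N ^ d - 1) N')
    (hconn : Cn (Ad N') Q) {k : ℕ} (hk : k + 2 < N ^ d - 1) (hM : ¬ M3 k Q) {F : Set W}
    (hF : F ⊆ Q) (hp : ∃ p, ∀ y, y < N' → vt p (k + 2) y ∈ F) :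
    (gm d N w sc '' Q \ gm d N w sc '' F).ncard ≤ 3 := by
  classical
  obtain ⟨p, hp⟩ := hp
  have hN'0 : 0 < N' := by have := D.h9; omega
  have hz : vt p (k + 2) 0 ∈ Q := hF (hp 0 hN'0)
  obtain ⟨a, ha, b, hb, h1, h2⟩ := two_cells D hQ hconn (k := k) (by omega) hM ⟨_, hz⟩
  -- the covered set
  have hcov : (Im d N (st d N w sc (k + 2) p) : Set W) ⊆ gm d N w sc '' F := by
    intro z hz'
    obtain ⟨y, hy, hyz⟩ := gm_cover D p (k + 2) (by omega) (Finset.mem_coe.1 hz')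
    exact ⟨_, hp y hy, hyz⟩
  have hnest : Im d N (st d N w sc (k + 2) p) ⊆ Im d N (st d N w sc k p) := by
    obtain ⟨h3, h4⟩ := st_nested D.hN D.hw D.hsc p k 2 (by omega)
    exact im_mono h3 h4
  have hcase : Im d N (st d N w sc k p) = Im d N (st d N w sc k a) ∨
      Im d N (st d N w sc k p) = Im d N (st d N w sc k b) := by
    have h5 : Ce k p (vt p (k + 2) 0) := fun j hj => Ce_vt p (k + 2) 0 j (by omega)
    rw [st_congr k h5]
    rcases h1 _ hz with h6 | h6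
    · left; rw [st_congr k h6]
    · right; rw [st_congr k h6]
  have hsub : (Im d N (st d N w sc (k + 2) p) : Set W) ⊆
      (Im d N (st d N w sc k b) ∪ Im d N (st d N w sc k a) : Set W) := by
    intro z hz'
    have h7 := hnest (Finset.mem_coe.1 hz')
    rcases hcase with h8 | h8
    · right; rw [h8] at h7; exact h7
    · left; rw [h8] at h7; exact h7
  have h9 : gm d N w sc '' Q \ gm d N w sc '' F ⊆
      (Im d N (st d N w sc k b) ∪ Im d N (st d N w sc k a) : Set W) \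
        (Im d N (st d N w sc (k + 2) p) : Set W) :=
    Set.diff_subset_diff (image_sub D (k := k) (by omega) h1) hcov
  have h10 := Set.ncard_le_ncard h9 (Set.toFinite _)
  have h11 := Set.ncard_diff hsub (Set.toFinite _)
  have h12 : (Im d N (st d N w sc (k + 2) p) : Set W).ncard + (k + 2) = N ^ d := by
    rw [Set.ncard_coe_finset]
    exact (st_inv D.hN D.hw D.hsc p (k + 2) (by omega)).2
  omega

theorem td_pull (D : Dat d N w n sc N') {α : W → W → ℤ} (hα : Anti α) (p : W) {k : ℕ}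
    (hk : k + 1 < N ^ d) : td (pull (gm d N w sc) α) N' k p
      = ∑ q ∈ Dset d N (st d N w sc k p).1 (st d N w sc k p).2.1, Sg d N α q.1 q.2 := by
  obtain ⟨h3, h4⟩ := st_inv D.hN D.hw D.hsc p k (by omega)
  set σ := st d N w sc k p with hσ
  rw [← D.hw.deg σ h3 α hα]
  unfold td pull
  have hn := D.hN' σ h3
  obtain ⟨M, hM⟩ : ∃ M, N' = n σ + M + 1 := ⟨N' - n σ - 1, by omega⟩
  have e1 : ∀ y, gm d N w sc (vt p k y) = Om d N (w σ y) := fun y => gm_vt D p k y hk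
  simp only [e1]
  rw [hM, Finset.sum_range_succ, Nat.mod_self, D.hw.zero σ h3,
    D.hw.late σ h3 (n σ + M) (by omega), anti_self hα, add_zero, Finset.sum_range_add]
  have e2 : ∑ x ∈ Finset.range M, α (Om d N (w σ (n σ + x)))
      (Om d N (w σ ((n σ + x + 1) % (n σ + M + 1)))) = 0 := by
    refine Finset.sum_eq_zero (fun x hx => ?_)
    rw [Finset.mem_range] at hx
    rw [Nat.mod_eq_of_lt (by omega), D.hw.late σ h3 _ (by omega),
      D.hw.late σ h3 _ (by omega)]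
    exact anti_self hα _
  rw [e2, add_zero]
  refine Finset.sum_congr rfl (fun x hx => ?_)
  rw [Finset.mem_range] at hx
  rw [Nat.mod_eq_of_lt (by omega)]

theorem Dset_nonneg {s e : ℕ} (hN : 0 < N) {α : W → W → ℤ} (hα : Anti α)
    (hnn : NN α d N) : ∀ q ∈ Dset d N s e, 0 ≤ Sg d N α q.1 q.2 := by
  intro q hq
  rw [mem_Dset] at hq
  obtain ⟨i, a, h1, h2⟩ := hq
  rw [h2]
  exact (Sg_double hN hα hnn h1.2.1 h1.2.2.1).1

theorem gm_nn (D : Dat d N w n sc N') {α : W → W → ℤ} (hα : Anti α) (hnn : NN α d N) :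
    NN (pull (gm d N w sc) α) (N ^ d - 1) N' := by
  intro k hk p _
  rw [td_pull D hα p (by omega)]
  exact Finset.sum_nonneg (Dset_nonneg D.hN hα hnn)

theorem gm_pos (D : Dat d N w n sc N') (h9 : 9 ≤ N) {i : ℕ} (hi1 : 1 ≤ i) (hid : i < d) :
    ∃ i', 2 ≤ i' ∧ i' < N ^ d - 1 ∧
    (∀ α, Anti α → NN α d N → (∀ p ∈ K d N, 0 < td α N i p) →
      ∀ p ∈ K (N ^ d - 1) N', 0 < td (pull (gm d N w sc) α) N' i' p) ∧
    ∀ x ∈ K (N ^ d - 1) N', ∃ S : Finset W, S.card ≤ 4 ∧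
      ∀ y ∈ K (N ^ d - 1) N', Ce (i' - 1) x y → ∃ s ∈ S, Ce i s (gm d N w sc y) := by
  have hP : 1 ≤ N ^ (d - i) := Nat.one_le_iff_ne_zero.2 (by have := D.hN; positivity)
  have hbig : 9 * N ^ (d - i) ≤ N ^ d := by
    have e : N ^ d = N ^ i * N ^ (d - i) := by rw [← pow_add]; congr 1; omega
    rw [e]
    refine Nat.mul_le_mul_right _ ?_
    calc 9 ≤ N := h9
      _ = N ^ 1 := (pow_one N).symm
      _ ≤ N ^ i := Nat.pow_le_pow_right (by omega) hi1
  refine ⟨N ^ d - 2 * N ^ (d - i) - 1, by omega, by omega, ?_, ?_⟩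
  · intro α hα hnn hpos p _
    rw [td_pull D hα p (by omega)]
    obtain ⟨h3, h4⟩ := st_inv D.hN D.hw D.hsc p (N ^ d - 2 * N ^ (d - i) - 1) (by omega)
    set σ := st d N w sc (N ^ d - 2 * N ^ (d - i) - 1) p with hσ
    have hex : ∃ a, DB d N σ.1 σ.2.1 i a := by
      by_contra hc
      push Not at hc
      have := im_small (d := d) (N := N) D.hN (le_trans h3.1 h3.2.1) hi1 hid.le hc
      unfold Im at h4
      omega
    obtain ⟨a, ha⟩ := hex
    have hmem : (a, Bs N ^ (d - i)) ∈ Dset d N σ.1 σ.2.1 := by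
      rw [mem_Dset]; exact ⟨i, a, ha, rfl⟩
    have h5 := Finset.single_le_sum (Dset_nonneg (s := σ.1) (e := σ.2.1) D.hN hα hnn) hmem
    have h6 := (Sg_double D.hN hα hnn hid.le ha.2.2.1).2 hid
    have h7 := hpos _ (Om_mem (d := d) D.hN a)
    simp only at h5
    omega
  · intro x _
    obtain ⟨h3, h4⟩ := st_inv D.hN D.hw D.hsc x (N ^ d - 2 * N ^ (d - i) - 1 - 1) (by omega)
    set σ := st d N w sc (N ^ d - 2 * N ^ (d - i) - 1 - 1) x with hσ
    obtain ⟨S, hS, h5⟩ := im_touch (d := d) (N := N) (s := σ.1) (e := σ.2.1) (i := i)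
      (by omega) (le_trans h3.1 h3.2.1) hi1 hid (by unfold Im at h4; omega)
    refine ⟨S, hS, fun y _ hxy => ?_⟩
    have h6 := gm_mem_Im D y (N ^ d - 2 * N ^ (d - i) - 1 - 1) (by omega)
    rw [← st_congr _ hxy, ← hσ] at h6
    unfold Im at h6
    rw [mem_im] at h6
    obtain ⟨t, h7, h8, h10⟩ := h6
    obtain ⟨s, h11, h12⟩ := h5 t h7 h8
    exact ⟨s, h11, by rw [← h10]; exact h12⟩

end

theorem exists_gmap (d N : ℕ) (hd : 1 ≤ d) (hN : 9 ≤ N) :
    ∃ d' N', 1 ≤ d' ∧ 9 ≤ N' ∧ ∃ g, GMap d N d' N' g := by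
  classical
  obtain ⟨w, n, hw⟩ := exists_walks d N
  obtain ⟨sc, hsc⟩ := exists_succ d N
  -- a uniform bound
  have hbound : ∃ M, ∀ σ, Valid d N σ → n σ ≤ M := by
    refine ⟨∑ a ∈ Finset.range (Bs N ^ d), ∑ b ∈ Finset.range (Bs N ^ d),
      ∑ c ∈ Finset.range (Bs N ^ d), n (a, b, c), ?_⟩
    rintro ⟨a, b, c⟩ ⟨h1, h2, h3⟩
    simp only at h1 h2 h3
    calc n (a, b, c) ≤ ∑ c ∈ Finset.range (Bs N ^ d), n (a, b, c) :=
          Finset.single_le_sum (f := fun c => n (a, b, c)) (fun _ _ => Nat.zero_le _)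
            (Finset.mem_range.2 (by omega))
      _ ≤ ∑ b ∈ Finset.range (Bs N ^ d), ∑ c ∈ Finset.range (Bs N ^ d), n (a, b, c) :=
          Finset.single_le_sum (f := fun b => ∑ c ∈ Finset.range (Bs N ^ d), n (a, b, c))
            (fun _ _ => Nat.zero_le _) (Finset.mem_range.2 (by omega))
      _ ≤ _ :=
          Finset.single_le_sum (f := fun a => ∑ b ∈ Finset.range (Bs N ^ d),
            ∑ c ∈ Finset.range (Bs N ^ d), n (a, b, c))
            (fun _ _ => Nat.zero_le _) (Finset.mem_range.2 (by omega))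
  obtain ⟨M, hM⟩ := hbound
  have D : Dat d N w n sc (M + 9) :=
    ⟨by omega, hw, hsc, fun σ hσ => by have := hM σ hσ; omega, by omega⟩
  have hpow : 9 ≤ N ^ d := by
    calc 9 ≤ N := hN
      _ = N ^ 1 := (pow_one N).symm
      _ ≤ N ^ d := Nat.pow_le_pow_right (by omega) hd
  refine ⟨N ^ d - 1, M + 9, by omega, by omega, gm d N w sc, ⟨?_, ?_, ?_, ?_, ?_, ?_, ?_⟩⟩
  · intro x _
    exact Om_mem D.hN _
  · intro z hz
    have h1 : z ∈ Im d N (st d N w sc 0 (fun _ => 0)) := by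
      have := (im_all (d := d) D.hN).1
      show z ∈ im d N 0 (Bs N ^ d - 1)
      rw [← Finset.mem_coe, this]
      exact hz
    obtain ⟨y, hy, h2⟩ := gm_cover D (fun _ => 0) 0 (by omega) h1
    refine ⟨_, ⟨fun k => ?_, fun k hk => ?_⟩, h2⟩
    · unfold vt
      split_ifs <;> omega
    · exact vt_after (by omega)
  · intro x hx y hy h
    exact gm_hom D hx hy h
  · intro Q hQ hconn k hk hM' hk2
    exact gm_fine4 D hQ hconn hk hM' hk2
  · intro Q hQ hconn k hk hM' F hF hp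
    exact gm_fine3 D hQ hconn hk hM' hF hp
  · intro α hα hnn
    exact gm_nn D hα hnn
  · intro i hi1 hid
    exact gm_pos D hN hi1 hid

end Pool.Agent.Helper464.Gmap
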