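import Mathlib

set_option autoImplicit false

namespace Pool.Agent.Helper464.MapHB

/-- Vertices are functions; a cactus of depth `d` uses the first `d` coordinates. -/
abbrev W := ℕ → ℕ

/-- The vertex set of the cactus of depth `d` and cycle length `N`. -/
def K (d N : ℕ) : Set W := {x | (∀ k, x k < N) ∧ ∀ k, d ≤ k → x k = 0}

/-- Cyclic adjacency (or equality) of `a, b < N`. -/
def Cy (N a b : ℕ) : Prop :=
  a = b ∨ b = a + 1 ∨ a = b + 1 ∨ (a = 0 ∧ b + 1 = N) ∨ (b = 0 ∧ a + 1 = N)

/-- Adjacency (or equality) of two vertices. -/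
def Ad (N : ℕ) (x y : W) : Prop :=
  x = y ∨ ∃ k, (∀ j, j < k → x j = y j) ∧ Cy N (x k) (y k) ∧ ∀ j, k < j → x j = 0 ∧ y j = 0

/-- `x` and `y` lie in the same cell of depth `k`. -/
def Ce (k : ℕ) (x y : W) : Prop := ∀ j, j < k → x j = y j

/-- The vertex number `y` of the top cycle of the cell of depth `k` of `p`. -/
def vt (p : W) (k y : ℕ) : W := fun j => if j < k then p j else if j = k then y else 0

/-- Connectedness of a set for a symmetric relation. -/
def Cn {V : Type} (r : V → V → Prop) (H : Set V) : Prop :=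
  ∀ A : Set V, A ⊆ H → A.Nonempty → (∀ a ∈ A, ∀ b ∈ H, r a b → b ∈ A) → A = H

/-- `Q` meets three different cells of depth `k`. -/
def M3 (k : ℕ) (Q : Set W) : Prop :=
  ∃ a ∈ Q, ∃ b ∈ Q, ∃ c ∈ Q, ¬ Ce k a b ∧ ¬ Ce k b c ∧ ¬ Ce k a c

/-- `Q` contains a full cell of depth `j`. -/
def Cov (d N j : ℕ) (Q : Set W) : Prop :=
  ∃ z ∈ K d N, ∀ w ∈ K d N, Ce j z w → w ∈ Q

/-- Antisymmetry. -/
def Anti (α : W → W → ℤ) : Prop := ∀ x y, α x y = - α y x

/-- Degree of `α` along the top cycle of the cell of depth `k` of `p`. -/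
def td (α : W → W → ℤ) (N k : ℕ) (p : W) : ℤ :=
  ∑ y ∈ Finset.range N, α (vt p k y) (vt p k ((y + 1) % N))

/-- All degrees along top cycles are nonnegative. -/
def NN (α : W → W → ℤ) (d N : ℕ) : Prop := ∀ k, k < d → ∀ p ∈ K d N, 0 ≤ td α N k p

/-- Pull back of an edge function. -/
def pull (f : W → W) (α : W → W → ℤ) : W → W → ℤ := fun x y => α (f x) (f y)

structure HMap (d N N₁ : ℕ) (h : W → W) : Prop where
  maps : ∀ x ∈ K d N₁, h x ∈ K d N
  surj : ∀ y ∈ K d N, ∃ x ∈ K d N₁, h x = y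
  slow : ∀ x ∈ K d N₁, ∀ y ∈ K d N₁, ∀ z ∈ K d N₁,
    Ad N₁ x y → Ad N₁ y z → Ad N (h x) (h z)
  good : ∀ Q, Q ⊆ K d N₁ → Cn (Ad N₁) Q → ∀ j, j ≤ d → M3 j (h '' Q) → Cov d N j (h '' Q)
  cell : ∀ k, k ≤ d → ∀ x ∈ K d N₁, ∀ y ∈ K d N₁, Ce k x y → Ce k (h x) (h y)
  deg : ∀ α, Anti α → NN α d N → ∀ k, k < d → ∀ x ∈ K d N₁,
    td α N k (h x) ≤ td (pull h α) N₁ k x

/-- Goodness of the walk `w 0, ..., w n` for the cells of depth `j`. -/
structure Gd (d N j : ℕ) (w : ℕ → W) (n : ℕ) : Prop where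
  pre : ∀ r, r ≤ n → ¬ Ce j (w 0) (w r) → ∀ z ∈ K d N, Ce j (w 0) z → ∃ i, i ≤ r ∧ w i = z
  suf : ∀ r, r ≤ n → ¬ Ce j (w n) (w r) → ∀ z ∈ K d N, Ce j (w n) z →
    ∃ i, r ≤ i ∧ i ≤ n ∧ w i = z
  inf : ∀ r s t, r ≤ s → s ≤ t → t ≤ n → ¬ Ce j (w r) (w s) → ¬ Ce j (w s) (w t) →
    ¬ Ce j (w r) (w t) → ∃ c ∈ K d N, ∀ z ∈ K d N, Ce j c z → ∃ i, r ≤ i ∧ i ≤ t ∧ w i = z

/-- A closed walk at `u` inside the cell of depth `k` of `u`, covering that cell. -/
structure CW (d N k : ℕ) (u : W) (w : ℕ → W) (n : ℕ) : Prop where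
  zero : w 0 = u
  last : w n = u
  step : ∀ i, i < n → Ad N (w i) (w (i + 1))
  mem : ∀ i, i ≤ n → w i ∈ K d N ∧ Ce k u (w i)
  cov : ∀ z ∈ K d N, Ce k u z → ∃ i, i ≤ n ∧ w i = z
  gd : ∀ j, k < j → j ≤ d → Gd d N j w n
  deg : ∀ α, Anti α → NN α d N → 0 ≤ ∑ i ∈ Finset.range n, α (w i) (w (i + 1)) ∧
    (k < d → td α N k u ≤ ∑ i ∈ Finset.range n, α (w i) (w (i + 1)))


/-! ### basic facts -/

lemma Cy.symm' {N a b : ℕ} (h : Cy N a b) : Cy N b a := by
  unfold Cy at *; omega

lemma Ad.symm' {N : ℕ} {x y : W} (h : Ad N x y) : Ad N y x := by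
  rcases h with h | ⟨k, h1, h2, h3⟩
  · exact Or.inl h.symm
  · exact Or.inr ⟨k, fun j hj => (h1 j hj).symm, h2.symm', fun j hj => ⟨(h3 j hj).2, (h3 j hj).1⟩⟩

lemma Ad.refl' {N : ℕ} (x : W) : Ad N x x := Or.inl rfl

lemma Ce.symm' {k : ℕ} {x y : W} (h : Ce k x y) : Ce k y x := fun j hj => (h j hj).symm
lemma Ce.trans' {k : ℕ} {x y z : W} (h : Ce k x y) (h' : Ce k y z) : Ce k x z :=
  fun j hj => (h j hj).trans (h' j hj)
lemma Ce.mono' {k l : ℕ} {x y : W} (h : Ce k x y) (hl : l ≤ k) : Ce l x y :=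
  fun j hj => h j (lt_of_lt_of_le hj hl)
lemma Ce.refl' (k : ℕ) (x : W) : Ce k x x := fun _ _ => rfl

lemma Cov.mono' {d N j : ℕ} {Q Q' : Set W} (h : Cov d N j Q) (hQ : Q ⊆ Q') : Cov d N j Q' := by
  obtain ⟨z, hz, hw⟩ := h
  exact ⟨z, hz, fun w hw1 hw2 => hQ (hw w hw1 hw2)⟩

lemma K_finite (d N : ℕ) : (K d N).Finite := by
  apply (Set.finite_range (fun f : Fin d → Fin N => fun k => if h : k < d then (f ⟨k, h⟩ : ℕ) else 0)).subset
  rintro x ⟨h1, h2⟩
  refine ⟨fun k => ⟨x k, h1 k⟩, ?_⟩
  funext k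
  by_cases hk : k < d
  · simp [hk]
  · simp [hk, h2 k (not_lt.1 hk)]

/-- slow closed walks -/
def vv (w : ℕ → W → ℕ → W) (n : ℕ → W → ℕ) (k : ℕ) (u : W) (y : ℕ) : W :=
  w k u (min (y / 2) (n k u))

/-- intermediate images -/
def st (w : ℕ → W → ℕ → W) (n : ℕ → W → ℕ) : ℕ → W → W
  | 0, _ => fun _ => 0
  | k + 1, x => vv w n k (st w n k x) (x k)

/-- all assumptions -/
structure Dat (d N N₁ : ℕ) (w : ℕ → W → ℕ → W) (n : ℕ → W → ℕ) : Prop where
  hN : 3 ≤ N
  hN1 : 9 ≤ N₁
  hn : ∀ k, k ≤ d → ∀ u ∈ K d N, 2 * n k u + 2 ≤ N₁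
  hw : ∀ k, k ≤ d → ∀ u ∈ K d N, CW d N k u (w k u) (n k u)

variable {d N N₁ : ℕ} {w : ℕ → W → ℕ → W} {n : ℕ → W → ℕ}

lemma zero_mem_K (hN : 0 < N) : (fun _ => 0 : W) ∈ K d N := ⟨fun _ => hN, fun _ _ => rfl⟩

lemma Dat.vv_mem (D : Dat d N N₁ w n) {k : ℕ} (hk : k ≤ d) {u : W} (hu : u ∈ K d N) (y : ℕ) :
    vv w n k u y ∈ K d N ∧ Ce k u (vv w n k u y) :=
  (D.hw k hk u hu).mem _ (min_le_right _ _)

lemma Dat.vv_zero (D : Dat d N N₁ w n) {k : ℕ} (hk : k ≤ d) {u : W} (hu : u ∈ K d N) :
    vv w n k u 0 = u := by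
  simp [vv, (D.hw k hk u hu).zero]

lemma Dat.vv_end (D : Dat d N N₁ w n) {k : ℕ} (hk : k ≤ d) {u : W} (hu : u ∈ K d N) {y : ℕ}
    (hy : y ≤ 1 ∨ 2 * n k u ≤ y) : vv w n k u y = u := by
  unfold vv
  rcases hy with hy | hy
  · have : y / 2 = 0 := by omega
    rw [this]; simp [(D.hw k hk u hu).zero]
  · have : min (y / 2) (n k u) = n k u := by omega
    rw [this]; exact (D.hw k hk u hu).last

lemma Dat.st_mem (D : Dat d N N₁ w n) (x : W) : ∀ k, k ≤ d → st w n k x ∈ K d N := by
  intro k
  induction k with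
  | zero => intro _; exact zero_mem_K (by have := D.hN; omega)
  | succ k ih =>
    intro hk
    exact (D.vv_mem (by omega) (ih (by omega)) _).1

lemma Dat.st_ce (D : Dat d N N₁ w n) (x : W) {k : ℕ} : ∀ k', k ≤ k' → k' ≤ d →
    Ce k (st w n k x) (st w n k' x) := by
  intro k' hk'
  induction k', hk' using Nat.le_induction with
  | base => intro _; exact Ce.refl' _ _
  | succ k' hk' ih =>
    intro hd
    have h1 := ih (by omega)
    have h2 := (D.vv_mem (k := k') (by omega) (D.st_mem x k' (by omega)) (x k')).2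
    exact h1.trans' (h2.mono' hk')

lemma st_congr {x y : W} : ∀ k, Ce k x y → st w n k x = st w n k y := by
  intro k
  induction k with
  | zero => intro _; rfl
  | succ k ih =>
    intro h
    simp only [st]
    rw [ih (h.mono' (by omega)), h k (by omega)]

lemma Dat.st_stay (D : Dat d N N₁ w n) (x : W) {k : ℕ} : ∀ k', k ≤ k' → k' ≤ d →
    (∀ j, k ≤ j → j < k' → x j = 0) → st w n k' x = st w n k x := by
  intro k' hk'
  induction k', hk' using Nat.le_induction with
  | base => intro _ _; rfl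
  | succ k' hk' ih =>
    intro hd hz
    have h1 := ih (by omega) (fun j h1 h2 => hz j h1 (by omega))
    simp only [st]
    rw [hz k' hk' (by omega), D.vv_zero (by omega) (D.st_mem x k' (by omega)), h1]

lemma vt_ce (p : W) (k y : ℕ) : Ce k p (vt p k y) := by
  intro j hj; simp [vt, hj]

lemma vt_at (p : W) (k y : ℕ) : vt p k y k = y := by simp [vt]

lemma vt_after (p : W) {k : ℕ} (y : ℕ) {j : ℕ} (hj : k < j) : vt p k y j = 0 := by
  have h1 : ¬ j < k := by omega
  have h2 : j ≠ k := by omega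
  simp [vt, h1, h2]

lemma vt_mem {p : W} (hp : p ∈ K d N₁) {k y : ℕ} (hk : k < d) (hy : y < N₁) : vt p k y ∈ K d N₁ := by
  refine ⟨fun j => ?_, fun j hj => vt_after p y (by omega)⟩
  by_cases h1 : j < k
  · rw [← vt_ce p k y j h1]; exact hp.1 j
  · by_cases h2 : j = k
    · rw [h2, vt_at]; exact hy
    · rw [vt_after p y (by omega)]; omega

lemma Dat.h_vt (D : Dat d N N₁ w n) (x : W) {k : ℕ} (hk : k < d) (y : ℕ) :
    st w n d (vt x k y) = vv w n k (st w n k x) y := by
  rw [D.st_stay (vt x k y) (k := k + 1) d hk le_rfl (fun j h1 _ => vt_after x y (by omega))]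
  simp only [st]
  rw [vt_at, st_congr k (vt_ce x k y)]

lemma Dat.h_of_zero (D : Dat d N N₁ w n) (x : W) {k : ℕ} (hk : k < d) (hz : ∀ j, k < j → x j = 0) :
    st w n d x = vv w n k (st w n k x) (x k) := by
  rw [D.st_stay x (k := k + 1) d hk le_rfl (fun j h1 _ => hz j (by omega))]
  rfl

lemma Dat.vv_slow (D : Dat d N N₁ w n) {k : ℕ} (hk : k ≤ d) {u : W} (hu : u ∈ K d N) {a b c : ℕ}
    (ha : a < N₁) (hc : c < N₁) (hab : Cy N₁ a b) (hbc : Cy N₁ b c) :
    Ad N (vv w n k u a) (vv w n k u c) := by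
  have hn := D.hn k hk u hu
  have hN1 := D.hN1
  have hcase : (a / 2 = c / 2 ∨ a / 2 + 1 = c / 2 ∨ c / 2 + 1 = a / 2) ∨
      ((a ≤ 1 ∨ 2 * n k u ≤ a) ∧ (c ≤ 1 ∨ 2 * n k u ≤ c)) := by
    unfold Cy at hab hbc
    omega
  have hstep : ∀ i j, i + 1 = j → Ad N (w k u (min i (n k u))) (w k u (min j (n k u))) := by
    intro i j hij
    by_cases h : i < n k u
    · have e1 : min i (n k u) = i := by omega
      have e2 : min j (n k u) = i + 1 := by omega
      rw [e1, e2]; exact (D.hw k hk u hu).step i h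
    · have e1 : min i (n k u) = n k u := by omega
      have e2 : min j (n k u) = n k u := by omega
      rw [e1, e2]; exact Ad.refl' _
  rcases hcase with (h | h | h) | ⟨h1, h2⟩
  · unfold vv; rw [h]; exact Ad.refl' _
  · exact hstep _ _ h
  · exact (hstep _ _ h).symm'
  · rw [D.vv_end hk hu h1, D.vv_end hk hu h2]; exact Ad.refl' _


lemma Dat.cell (D : Dat d N N₁ w n) {k : ℕ} (hk : k ≤ d) {x y : W} (h : Ce k x y) :
    Ce k (st w n d x) (st w n d y) := by
  have h1 := D.st_ce x d hk le_rfl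
  have h2 := D.st_ce y d hk le_rfl
  rw [← st_congr (w := w) (n := n) k h] at h2
  exact h1.symm'.trans' h2

lemma Dat.slow1 (D : Dat d N N₁ w n) {x y : W} (hx : x ∈ K d N₁) (hy : y ∈ K d N₁)
    (h : Ad N₁ x y) : Ad N (st w n d x) (st w n d y) := by
  rcases h with h | ⟨k, h1, h2, h3⟩
  · rw [h]; exact Ad.refl' _
  · by_cases hk : k < d
    · rw [D.h_of_zero x hk (fun j hj => (h3 j hj).1), D.h_of_zero y hk (fun j hj => (h3 j hj).2),
        ← st_congr (w := w) (n := n) k h1]
      exact D.vv_slow hk.le (D.st_mem x k hk.le) (hx.1 k) (hy.1 k) h2 (Or.inl rfl)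
    · have : x = y := by
        funext j
        rcases lt_trichotomy j k with hj | hj | hj
        · exact h1 j hj
        · rw [hj, hx.2 k (by omega), hy.2 k (by omega)]
        · rw [(h3 j hj).1, (h3 j hj).2]
      rw [this]; exact Ad.refl' _

/-- the image does not move when we leave the base point of a deeper cell -/
lemma Dat.fix (D : Dat d N N₁ w n) {y z : W} (hz : z ∈ K d N₁) {k : ℕ}
    (h1 : Ce k y z) (h2 : Cy N₁ (y k) (z k)) (h3 : ∀ j, k < j → y j = 0 ∧ z j = 0)
    (hy0 : y k = 0) (hk : k < d) : st w n d z = st w n d y := by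
  rw [D.h_of_zero z hk (fun j hj => (h3 j hj).2), D.h_of_zero y hk (fun j hj => (h3 j hj).1),
    ← st_congr (w := w) (n := n) k h1]
  have hm := D.st_mem y k hk.le
  have hn := D.hn k hk.le _ hm
  have hN1 := D.hN1
  have hzk := hz.1 k
  rw [D.vv_end hk.le hm (Or.inl (by omega : y k ≤ 1)), D.vv_end hk.le hm]
  unfold Cy at h2
  omega

lemma Dat.slow (D : Dat d N N₁ w n) {x y z : W} (hx : x ∈ K d N₁) (hy : y ∈ K d N₁)
    (hz : z ∈ K d N₁) (hxy : Ad N₁ x y) (hyz : Ad N₁ y z) : Ad N (st w n d x) (st w n d z) := by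
  have hxy' := hxy
  have hyz' := hyz
  rcases hxy with h | ⟨k, h1, h2, h3⟩
  · rw [h]; exact D.slow1 hy hz hyz
  rcases hyz with h | ⟨k', h1', h2', h3'⟩
  · rw [← h]; exact D.slow1 hx hy hxy'
  rcases lt_trichotomy k k' with hk | hk | hk
  · -- y is zero after k
    by_cases hkd : k' < d
    · rw [D.fix hz h1' h2' h3' (h3 k' hk).2 hkd]
      exact D.slow1 hx hy hxy'
    · have : y = z := by
        funext j
        rcases lt_trichotomy j k' with hj | hj | hj
        · exact h1' j hj
        · rw [hj, hy.2 k' (by omega), hz.2 k' (by omega)]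
        · rw [(h3' j hj).1, (h3' j hj).2]
      rw [← this]; exact D.slow1 hx hy hxy'
  · subst hk
    by_cases hkd : k < d
    · rw [D.h_of_zero x hkd (fun j hj => (h3 j hj).1), D.h_of_zero z hkd (fun j hj => (h3' j hj).2),
        ← st_congr (w := w) (n := n) k (Ce.trans' (x := x) (y := y) (z := z) h1 h1')]
      exact D.vv_slow hkd.le (D.st_mem x k hkd.le) (hx.1 k) (hz.1 k) h2 h2'
    · have : y = z := by
        funext j
        rcases lt_trichotomy j k with hj | hj | hj
        · exact h1' j hj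
        · rw [hj, hy.2 k (by omega), hz.2 k (by omega)]
        · rw [(h3' j hj).1, (h3' j hj).2]
      rw [← this]; exact D.slow1 hx hy hxy'
  · by_cases hkd : k < d
    · have := D.fix (y := y) (z := x) hx (Ce.symm' (x := x) (y := y) h1) h2.symm' (fun j hj => ⟨(h3 j hj).2, (h3 j hj).1⟩)
        (h3' k hk).1 hkd
      rw [this]
      exact D.slow1 hy hz hyz'
    · have : x = y := by
        funext j
        rcases lt_trichotomy j k with hj | hj | hj
        · exact h1 j hj
        · rw [hj, hx.2 k (by omega), hy.2 k (by omega)]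
        · rw [(h3 j hj).1, (h3 j hj).2]
      rw [this]; exact D.slow1 hy hz hyz'

lemma sum_slow (α : W → W → ℤ) (hα : Anti α) (f : ℕ → W) (n : ℕ) : ∀ M : ℕ,
    ∑ y ∈ Finset.range M, α (f (min (y / 2) n)) (f (min ((y + 1) / 2) n)) =
      ∑ i ∈ Finset.range (min (M / 2) n), α (f i) (f (i + 1)) := by
  have hself : ∀ x, α x x = 0 := fun x => by have := hα x x; omega
  intro M
  induction M with
  | zero => simp
  | succ M ih =>
    rw [Finset.sum_range_succ, ih]
    by_cases hM : (M + 1) / 2 = M / 2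
    · rw [hM, hself, add_zero]
    · have h1 : (M + 1) / 2 = M / 2 + 1 := by omega
      rw [h1]
      by_cases hn : M / 2 < n
      · have e1 : min (M / 2) n = M / 2 := by omega
        have e2 : min (M / 2 + 1) n = M / 2 + 1 := by omega
        rw [e1, e2, Finset.sum_range_succ]
      · have e1 : min (M / 2) n = n := by omega
        have e2 : min (M / 2 + 1) n = n := by omega
        rw [e1, e2, hself, add_zero]

lemma td_congr (α : W → W → ℤ) {k : ℕ} {p q : W} (h : Ce k p q) (N : ℕ) :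
    td α N k p = td α N k q := by
  have : ∀ y, vt p k y = vt q k y := by
    intro y; funext j
    unfold vt
    by_cases hj : j < k
    · simp [hj, h j hj]
    · simp [hj]
  unfold td
  simp only [this]

lemma Dat.deg (D : Dat d N N₁ w n) (α : W → W → ℤ) (hα : Anti α) (hNN : NN α d N) {k : ℕ}
    (hk : k < d) (x : W) :
    td α N k (st w n d x) ≤ td (pull (st w n d) α) N₁ k x := by
  have hself : ∀ x, α x x = 0 := fun x => by have := hα x x; omega
  set u := st w n k x with hu
  have hum : u ∈ K d N := D.st_mem x k hk.le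
  have hn := D.hn k hk.le u hum
  have hN1 := D.hN1
  have e0 : td α N k (st w n d x) = td α N k u := (td_congr α (D.st_ce x d hk.le le_rfl) N).symm
  rw [e0]
  have e1 : td (pull (st w n d) α) N₁ k x =
      ∑ y ∈ Finset.range N₁, α (vv w n k u y) (vv w n k u ((y + 1) % N₁)) := by
    unfold td pull
    refine Finset.sum_congr rfl (fun y _ => ?_)
    rw [D.h_vt x hk, D.h_vt x hk]
  have e2 : ∑ y ∈ Finset.range N₁, α (vv w n k u y) (vv w n k u ((y + 1) % N₁)) =
      ∑ i ∈ Finset.range (n k u), α (w k u i) (w k u (i + 1)) := by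
    obtain ⟨M, rfl⟩ : ∃ M, N₁ = M + 1 := ⟨N₁ - 1, by omega⟩
    rw [Finset.sum_range_succ, Nat.mod_self]
    rw [D.vv_end hk.le hum (Or.inr (by omega : 2 * n k u ≤ M)),
      D.vv_end hk.le hum (Or.inl (by omega : 0 ≤ 1)), hself, add_zero]
    have e3 : ∀ y ∈ Finset.range M, α (vv w n k u y) (vv w n k u ((y + 1) % (M + 1))) =
        α (w k u (min (y / 2) (n k u))) (w k u (min ((y + 1) / 2) (n k u))) := by
      intro y hy
      rw [Finset.mem_range] at hy
      rw [Nat.mod_eq_of_lt (by omega)]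
      rfl
    rw [Finset.sum_congr rfl e3, sum_slow α hα]
    congr 2
    omega
  rw [e1, e2]
  exact ((D.hw k hk.le u hum).deg α hα hNN).2 hk

lemma Dat.surj (D : Dat d N N₁ w n) {y : W} (hy : y ∈ K d N) :
    ∃ x ∈ K d N₁, st w n d x = y := by
  have hN1 := D.hN1
  have h0 : (fun _ => 0 : W) ∈ K d N₁ := zero_mem_K (by omega)
  rcases Nat.eq_zero_or_pos d with hd | hd
  · subst hd
    refine ⟨fun _ => 0, h0, ?_⟩
    funext j
    rw [hy.2 j (Nat.zero_le _)]; rfl
  · have hz : (fun _ => 0 : W) ∈ K d N := zero_mem_K (by have := D.hN; omega)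
    obtain ⟨i, hi, hwi⟩ := (D.hw 0 (Nat.zero_le _) _ hz).cov y hy (fun j hj => absurd hj (by omega))
    have hn := D.hn 0 (Nat.zero_le _) _ hz
    refine ⟨vt (fun _ => 0) 0 (2 * i), vt_mem h0 hd (by omega), ?_⟩
    rw [D.h_vt _ hd]
    show vv w n 0 (fun _ => 0) (2 * i) = y
    unfold vv
    have : min (2 * i / 2) (n 0 fun _ => 0) = i := by omega
    rw [this]; exact hwi


lemma sep {N₁ : ℕ} {Y : Set ℕ} (hC : Cn (Cy N₁) Y) {p q : ℕ} (hq : q < N₁)
    (hpY : p ∉ Y) (hqY : q ∉ Y) {y : ℕ} (hy : y ∈ Y) (h1 : p < y) (h2 : y < q) :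
    ∀ z ∈ Y, p < z ∧ z < q := by
  have := hC {z ∈ Y | p < z ∧ z < q} (fun z hz => hz.1) ⟨y, hy, h1, h2⟩ (by
    rintro a ⟨ha, ha1, ha2⟩ b hb hab
    refine ⟨hb, ?_⟩
    have e1 : b ≠ p := fun h => hpY (h ▸ hb)
    have e2 : b ≠ q := fun h => hqY (h ▸ hb)
    unfold Cy at hab
    omega)
  intro z hz
  rw [← this] at hz
  exact hz.2

lemma arcs {N₁ : ℕ} {Y : Set ℕ} (hC : Cn (Cy N₁) Y) (hY : ∀ y ∈ Y, y < N₁) {a b : ℕ} (ha : a ∈ Y)
    (hb : b ∈ Y) (hab : a < b) :
    (∀ y, a ≤ y → y ≤ b → y ∈ Y) ∨ (∀ y, y < N₁ → (y ≤ a ∨ b ≤ y) → y ∈ Y) := by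
  by_contra hcon
  push Not at hcon
  obtain ⟨⟨p, hp1, hp2, hp⟩, ⟨q, hq1, hq2, hq⟩⟩ := hcon
  have e1 : p ≠ a := fun h => hp (h ▸ ha)
  have e2 : p ≠ b := fun h => hp (h ▸ hb)
  have e3 : q ≠ a := fun h => hq (h ▸ ha)
  have e4 : q ≠ b := fun h => hq (h ▸ hb)
  have hbN := hY b hb
  rcases hq2 with h | h
  · have := sep hC (by omega : p < N₁) hq hp ha (by omega) (by omega) b hb
    omega
  · have := sep hC hq1 hp hq hb (by omega) (by omega) a ha
    omega

lemma Dat.lift (D : Dat d N N₁ w n) {k : ℕ} {u : W} {a i : ℕ} (h1 : min (a / 2) (n k u) ≤ i)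
    (h2 : i ≤ n k u) : vv w n k u (max a (2 * i)) = w k u i := by
  unfold vv
  congr 1
  omega

lemma Dat.claim (D : Dat d N N₁ w n) {j : ℕ} (hj : j ≤ d) : ∀ m k, k + m = d →
    ∀ x ∈ K d N₁, ∀ Q, Q ⊆ K d N₁ → (∀ y ∈ Q, Ce k x y) → Cn (Ad N₁) Q →
      ¬ Cov d N j (st w n d '' Q) →
      (vt x k 0 ∈ Q → ∀ y ∈ Q, Ce j (st w n k x) (st w n d y)) ∧
      (∃ a b, ∀ y ∈ Q, Ce j a (st w n d y) ∨ Ce j b (st w n d y)) := by
  intro m
  induction m with
  | zero =>
    intro k hk x hx Q hQ hQc hcn hnc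
    have key : ∀ y ∈ Q, Ce j (st w n k x) (st w n d y) := by
      intro y hy
      rw [st_congr (w := w) (n := n) k (hQc y hy)]
      exact (D.st_ce y d (by omega) le_rfl).mono' (by omega)
    exact ⟨fun _ => key, st w n k x, st w n k x, fun y hy => Or.inl (key y hy)⟩
  | succ m ih =>
    intro k hk x hx Q hQ hQc hcn hnc
    have hkd : k < d := by omega
    set h : W → W := st w n d with hh
    set u := st w n k x with hu
    have hum : u ∈ K d N := D.st_mem x k hkd.le
    have hn := D.hn k hkd.le u hum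
    have hcw := D.hw k hkd.le u hum
    have hN1 := D.hN1
    have hstk : ∀ y ∈ Q, st w n k y = u := fun y hy => (st_congr (w := w) (n := n) k (hQc y hy)).symm
    by_cases hjk : j ≤ k
    · have key : ∀ y ∈ Q, Ce j u (h y) := by
        intro y hy
        rw [← hstk y hy]
        exact (D.st_ce y d hkd.le le_rfl).mono' hjk
      exact ⟨fun _ => key, u, u, fun y hy => Or.inl (key y hy)⟩
    push Not at hjk
    by_cases hA : ∀ z ∈ Q, ∀ z' ∈ Q, z k = z' k
    · -- one cell
      rcases Set.eq_empty_or_nonempty Q with hE | ⟨z0, hz0⟩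
      · subst hE
        exact ⟨fun h => absurd h (Set.notMem_empty _), u, u, fun y hy => absurd hy (Set.notMem_empty _)⟩
      · have hce : ∀ y ∈ Q, Ce (k + 1) z0 y := by
          intro y hy i hi
          rcases Nat.lt_succ_iff_lt_or_eq.1 hi with hi | hi
          · exact (hQc z0 hz0 i hi).symm.trans (hQc y hy i hi)
          · rw [hi]; exact hA z0 hz0 y hy
        obtain ⟨i1, i2⟩ := ih (k + 1) (by omega) z0 (hQ hz0) Q hQ hce hcn hnc
        refine ⟨?_, i2⟩
        intro hb
        have hz00 : z0 k = 0 := by rw [hA z0 hz0 _ hb, vt_at]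
        have e1 : vt z0 (k + 1) 0 = vt x k 0 := by
          funext i
          rcases lt_trichotomy i k with hi | hi | hi
          · rw [← vt_ce z0 (k + 1) 0 i (by omega), ← vt_ce x k 0 i hi]; exact (hQc z0 hz0 i hi).symm
          · rw [hi, vt_at, ← vt_ce z0 (k + 1) 0 k (by omega), hz00]
          · rw [vt_after x 0 hi]
            rcases Nat.lt_or_ge (k + 1) i with h' | h'
            · rw [vt_after z0 0 h']
            · have : i = k + 1 := by omega
              rw [this, vt_at]
        have i3 := i1 (by rw [e1]; exact hb)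
        have e2 : st w n (k + 1) z0 = u := by
          simp only [st]
          rw [hstk z0 hz0, hz00, D.vv_zero hkd.le hum]
        intro y hy
        rw [← e2]; exact i3 y hy
    · push Not at hA
      obtain ⟨z1, hz1, z2, hz2, hz12⟩ := hA
      set Y : Set ℕ := {y | ∃ z ∈ Q, z k = y} with hYdef
      have hYlt : ∀ y ∈ Y, y < N₁ := by
        rintro y ⟨z, hz, rfl⟩; exact (hQ hz).1 k
      -- edges between different subcells
      have edge : ∀ a ∈ Q, ∀ b ∈ Q, Ad N₁ a b → a k ≠ b k → a = vt x k (a k) := by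
        intro a ha b hb hab hne
        rcases hab with h' | ⟨k', h1, h2, h3⟩
        · rw [h'] at hne; exact absurd rfl hne
        · have hkk : k' = k := by
            rcases lt_trichotomy k' k with hlt | heq | hgt
            · exfalso; apply hne; rw [(h3 k hlt).1, (h3 k hlt).2]
            · exact heq
            · exact absurd (h1 k hgt) hne
          subst hkk
          funext i
          rcases lt_trichotomy i k' with hi | hi | hi
          · rw [← vt_ce x k' _ i hi]; exact (hQc a ha i hi).symm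
          · rw [hi, vt_at]
          · rw [vt_after x _ hi, (h3 i hi).1]
      have base : ∀ y ∈ Y, vt x k y ∈ Q := by
        rintro y ⟨z, hz, hzy⟩
        by_contra hcon
        have := hcn {a ∈ Q | a k = y} (fun a ha => ha.1) ⟨z, hz, hzy⟩ (by
          rintro a ⟨ha, hay⟩ b hb hab
          refine ⟨hb, ?_⟩
          by_contra hby
          apply hcon
          have := edge a ha b hb hab (by rw [hay]; exact fun h => hby h.symm)
          rw [hay] at this
          rw [← this]; exact ha)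
        have e1 : z1 k = y := by rw [← this] at hz1; exact hz1.2
        have e2 : z2 k = y := by rw [← this] at hz2; exact hz2.2
        exact hz12 (e1.trans e2.symm)
      have piece : ∀ y ∈ Y, Cn (Ad N₁) {a ∈ Q | a k = y} := by
        intro y hy A hAs hAne hAcl
        have hb := base y hy
        by_cases hbA : vt x k y ∈ A
        · have := hcn (A ∪ {a ∈ Q | a k ≠ y}) (by
            rintro a (ha | ha)
            · exact (hAs ha).1
            · exact ha.1) ⟨_, Or.inl hbA⟩ (by
            rintro a ha b hb' hab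
            by_cases hby : b k = y
            · left
              rcases ha with ha | ha
              · exact hAcl a ha b ⟨hb', hby⟩ hab
              · have := edge b hb' a ha.1 hab.symm' (by rw [hby]; exact fun h => ha.2 h.symm)
                rw [hby] at this
                rw [this]; exact hbA
            · right; exact ⟨hb', hby⟩)
          apply Set.Subset.antisymm hAs
          rintro a ⟨ha, hay⟩
          rw [← this] at ha
          rcases ha with ha | ha
          · exact ha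
          · exact absurd hay ha.2
        · have := hcn A (fun a ha => (hAs ha).1) hAne (by
            intro a ha b hb' hab
            by_cases hby : b k = y
            · exact hAcl a ha b ⟨hb', hby⟩ hab
            · exfalso
              apply hbA
              have := edge a (hAs ha).1 b hb' hab (by rw [(hAs ha).2]; exact fun h => hby h.symm)
              rw [(hAs ha).2] at this
              rw [← this]; exact ha)
          apply Set.Subset.antisymm hAs
          rintro a ⟨ha, hay⟩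
          rw [this]; exact ha
      have hYcn : Cn (Cy N₁) Y := by
        intro B hB hBne hBcl
        have := hcn {a ∈ Q | a k ∈ B} (fun a ha => ha.1) (by
          obtain ⟨y, hy⟩ := hBne
          obtain ⟨z, hz, hzy⟩ := hB hy
          exact ⟨z, hz, by rw [hzy]; exact hy⟩) (by
          rintro a ⟨ha, haB⟩ b hb hab
          refine ⟨hb, ?_⟩
          rcases hab with h' | ⟨k', h1, h2, h3⟩
          · rw [← h']; exact haB
          · rcases lt_trichotomy k' k with hlt | heq | hgt
            · rw [(h3 k hlt).2]; rw [(h3 k hlt).1] at haB; exact haB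
            · subst heq; exact hBcl _ haB _ ⟨b, hb, rfl⟩ h2
            · rw [← h1 k hgt]; exact haB)
        apply Set.Subset.antisymm hB
        rintro y ⟨z, hz, hzy⟩
        rw [← this] at hz
        rw [← hzy]; exact hz.2
      have cellf : ∀ z ∈ Q, Ce j (vv w n k u (z k)) (h z) := by
        intro z hz
        have hzY : z k ∈ Y := ⟨z, hz, rfl⟩
        have e1 : vt z (k + 1) 0 = vt x k (z k) := by
          funext i
          rcases lt_trichotomy i k with hi | hi | hi
          · rw [← vt_ce z (k + 1) 0 i (by omega), ← vt_ce x k _ i hi]; exact (hQc z hz i hi).symm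
          · rw [hi, vt_at, ← vt_ce z (k + 1) 0 k (by omega)]
          · rw [vt_after x _ hi]
            rcases Nat.lt_or_ge (k + 1) i with h' | h'
            · rw [vt_after z 0 h']
            · have : i = k + 1 := by omega
              rw [this, vt_at]
        have hce : ∀ y ∈ {a ∈ Q | a k = z k}, Ce (k + 1) z y := by
          rintro y ⟨hy, hyk⟩ i hi
          rcases Nat.lt_succ_iff_lt_or_eq.1 hi with hi | hi
          · exact (hQc z hz i hi).symm.trans (hQc y hy i hi)
          · rw [hi]; exact hyk.symm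
        obtain ⟨i1, -⟩ := ih (k + 1) (by omega) z (hQ hz) {a ∈ Q | a k = z k}
          (fun a ha => hQ ha.1) hce (piece _ hzY)
          (fun hc => hnc (hc.mono' (Set.image_mono (fun a ha => ha.1))))
        have i2 := i1 (by rw [e1]; exact ⟨base _ hzY, vt_at _ _ _⟩) z ⟨hz, rfl⟩
        have e2 : st w n (k + 1) z = vv w n k u (z k) := by
          simp only [st]; rw [hstk z hz]
        rw [← e2]; exact i2
      have vals : ∀ y ∈ Y, vv w n k u y ∈ h '' Q := by
        intro y hy
        exact ⟨vt x k y, base y hy, D.h_vt x hkd y⟩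
      have zeroc : 0 ∈ Y → ∀ y ∈ Y, Ce j u (vv w n k u y) := by
        intro h0 y hy
        by_contra hcon
        have hy0 : 0 < y := by
          rcases Nat.eq_zero_or_pos y with h' | h'
          · exfalso; apply hcon; rw [h', D.vv_zero hkd.le hum]; exact Ce.refl' _ _
          · exact h'
        have hgd := hcw.gd j hjk hj
        apply hnc
        rcases arcs hYcn hYlt h0 hy hy0 with harc | harc
        · refine ⟨u, hum, ?_⟩
          intro z hz hcz
          obtain ⟨i, hi, hwi⟩ := hgd.pre (min (y / 2) (n k u)) (min_le_right _ _)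
            (by rw [hcw.zero]; exact hcon) z hz (by rw [hcw.zero]; exact hcz)
          have := D.lift (k := k) (u := u) (a := 0) (i := i) (by omega) (by omega)
          rw [← hwi, ← this]
          exact vals _ (harc _ (by omega) (by omega))
        · refine ⟨u, hum, ?_⟩
          intro z hz hcz
          obtain ⟨i, hi, hi', hwi⟩ := hgd.suf (min (y / 2) (n k u)) (min_le_right _ _)
            (by rw [hcw.last]; exact hcon) z hz (by rw [hcw.last]; exact hcz)
          have := D.lift (k := k) (u := u) (a := y) (i := i) hi hi'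
          rw [← hwi, ← this]
          have hyN := hYlt y hy
          exact vals _ (harc _ (by omega) (Or.inr (by omega)))
      have key3 : ∀ a ∈ Y, ∀ b ∈ Y, ∀ c ∈ Y, a < b → b < c →
          Ce j (vv w n k u a) (vv w n k u b) ∨ Ce j (vv w n k u b) (vv w n k u c) ∨
            Ce j (vv w n k u a) (vv w n k u c) := by
        intro a ha b hb c hc hab hbc
        by_contra hcon
        push Not at hcon
        obtain ⟨c1, c2, c3⟩ := hcon
        have h0 : 0 ∉ Y := by
          intro h0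
          exact c1 ((zeroc h0 a ha).symm'.trans' (zeroc h0 b hb))
        have hgd := hcw.gd j hjk hj
        rcases arcs hYcn hYlt ha hc (by omega) with harc | harc
        · obtain ⟨e, he, hcov⟩ := hgd.inf (min (a / 2) (n k u)) (min (b / 2) (n k u))
            (min (c / 2) (n k u)) (by omega) (by omega) (by omega) c1 c2 c3
          apply hnc
          refine ⟨e, he, ?_⟩
          intro z hz hcz
          obtain ⟨i, hi, hi', hwi⟩ := hcov z hz hcz
          have := D.lift (k := k) (u := u) (a := a) (i := i) hi (by omega)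
          rw [← hwi, ← this]
          exact vals _ (harc _ (by omega) (by omega))
        · exact h0 (harc 0 (by omega) (Or.inl (by omega)))
      have key3' : ∀ a ∈ Y, ∀ b ∈ Y, ∀ c ∈ Y,
          Ce j (vv w n k u a) (vv w n k u b) ∨ Ce j (vv w n k u b) (vv w n k u c) ∨
            Ce j (vv w n k u a) (vv w n k u c) := by
        intro a ha b hb c hc
        have s : ∀ p q, Ce j (vv w n k u p) (vv w n k u q) ↔ Ce j (vv w n k u q) (vv w n k u p) :=
          fun p q => ⟨Ce.symm', Ce.symm'⟩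
        by_contra hcon
        push Not at hcon
        obtain ⟨c1, c2, c3⟩ := hcon
        have n1 : a ≠ b := by rintro rfl; exact c1 (Ce.refl' _ _)
        have n2 : b ≠ c := by rintro rfl; exact c2 (Ce.refl' _ _)
        have n3 : a ≠ c := by rintro rfl; exact c3 (Ce.refl' _ _)
        have t1 := s a b
        have t2 := s b c
        have t3 := s a c
        rcases lt_or_gt_of_ne n1 with h1 | h1 <;> rcases lt_or_gt_of_ne n2 with h2 | h2 <;>
          rcases lt_or_gt_of_ne n3 with h3 | h3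
        · have := key3 a ha b hb c hc h1 h2; tauto
        · omega
        · have := key3 a ha c hc b hb h3 h2; tauto
        · have := key3 c hc a ha b hb h3 h1; tauto
        · have := key3 b hb a ha c hc h1 h3; tauto
        · have := key3 b hb c hc a ha h2 h3; tauto
        · omega
        · have := key3 c hc b hb a ha h2 h1; tauto
      constructor
      · intro hb y hy
        have h0 : 0 ∈ Y := ⟨_, hb, vt_at _ _ _⟩
        exact (zeroc h0 (y k) ⟨y, hy, rfl⟩).trans' (cellf y hy)
      · by_cases hall : ∀ y ∈ Y, Ce j (vv w n k u (z1 k)) (vv w n k u y)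
        · refine ⟨vv w n k u (z1 k), vv w n k u (z1 k), fun y hy => Or.inl ?_⟩
          exact (hall _ ⟨y, hy, rfl⟩).trans' (cellf y hy)
        · push Not at hall
          obtain ⟨b, hbY, hb⟩ := hall
          refine ⟨vv w n k u (z1 k), vv w n k u b, fun y hy => ?_⟩
          rcases key3' (z1 k) ⟨z1, hz1, rfl⟩ b hbY (y k) ⟨y, hy, rfl⟩ with h' | h' | h'
          · exact absurd h' hb
          · exact Or.inr (h'.trans' (cellf y hy))
          · exact Or.inl (h'.trans' (cellf y hy))

lemma Dat.good (D : Dat d N N₁ w n) {Q : Set W} (hQ : Q ⊆ K d N₁) (hcn : Cn (Ad N₁) Q) {j : ℕ}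
    (hj : j ≤ d) (hM : M3 j (st w n d '' Q)) : Cov d N j (st w n d '' Q) := by
  by_contra hnc
  have h0 : (fun _ => 0 : W) ∈ K d N₁ := zero_mem_K (by have := D.hN1; omega)
  obtain ⟨-, a, b, hab⟩ := D.claim hj d 0 (by omega) _ h0 Q hQ
    (fun y _ j hj => absurd hj (by omega)) hcn hnc
  obtain ⟨p, ⟨p', hp, rfl⟩, q, ⟨q', hq, rfl⟩, r, ⟨r', hr, rfl⟩, c1, c2, c3⟩ := hM
  rcases hab p' hp with h1 | h1 <;> rcases hab q' hq with h2 | h2 <;> rcases hab r' hr with h3 | h3
  · exact c1 (h1.symm'.trans' h2)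
  · exact c1 (h1.symm'.trans' h2)
  · exact c3 (h1.symm'.trans' h3)
  · exact c2 (h2.symm'.trans' h3)
  · exact c2 (h2.symm'.trans' h3)
  · exact c3 (h1.symm'.trans' h3)
  · exact c1 (h1.symm'.trans' h2)
  · exact c1 (h1.symm'.trans' h2)

theorem hmap_of_cw (d N : ℕ) (hN : 3 ≤ N)
    (H : ∀ k, k ≤ d → ∀ u ∈ K d N, ∃ w n, CW d N k u w n) :
    ∃ N₁, 9 ≤ N₁ ∧ ∃ h, HMap d N N₁ h := by
  choose! w n hw using H
  have hfin : ((fun p : ℕ × W => n p.1 p.2) '' (Set.Iic d ×ˢ K d N)).Finite :=
    ((Set.finite_Iic d).prod (K_finite d N)).image _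
  obtain ⟨B, hB⟩ := hfin.bddAbove
  have hB' : ∀ k, k ≤ d → ∀ u ∈ K d N, n k u ≤ B := by
    intro k hk u hu
    exact hB ⟨(k, u), ⟨hk, hu⟩, rfl⟩
  have D : Dat d N (2 * B + 9) w n :=
    { hN := hN
      hN1 := by omega
      hn := fun k hk u hu => by have := hB' k hk u hu; omega
      hw := hw }
  refine ⟨2 * B + 9, by omega, st w n d, ?_⟩
  exact
    { maps := fun x _ => D.st_mem x d le_rfl
      surj := fun y hy => D.surj hy
      slow := fun x hx y hy z hz h1 h2 => D.slow hx hy hz h1 h2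
      good := fun Q hQ hcn j hj hM => D.good hQ hcn hj hM
      cell := fun k hk x _ y _ h => D.cell hk h
      deg := fun α hα hNN k hk x _ => D.deg α hα hNN hk x }

end Pool.Agent.Helper464.MapHB
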