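import Mathlib

set_option autoImplicit false

namespace Pool.Agent.Helper464.StageSM

/-- Vertices are functions; a cactus of depth `d` uses the first `d` coordinates. -/
abbrev W := ℕ → ℕ

/-- The vertex set of the cactus of depth `d` and cycle length `N`. -/
def K (d N : ℕ) : Set W := {x | (∀ k, x k < N) ∧ ∀ k, d ≤ k → x k = 0}

/-- Cyclic adjacency (or equality) of `a, b < N`. -/
def Cy (N a b : ℕ) : Prop :=
  a = b ∨ b = a + 1 ∨ a = b + 1 ∨ (a = 0 ∧ b + 1 = N) ∨ (b = 0 ∧ a + 1 = N)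

/-- Adjacency (or equality) of two vertices. -/
def Ad (N : ℕ) (x y : W) : Prop :=
  x = y ∨ ∃ k, (∀ j, j < k → x j = y j) ∧ Cy N (x k) (y k) ∧ ∀ j, k < j → x j = 0 ∧ y j = 0

/-- `x` and `y` lie in the same cell of depth `k`. -/
def Ce (k : ℕ) (x y : W) : Prop := ∀ j, j < k → x j = y j

/-- The vertex number `y` of the top cycle of the cell of depth `k` of `p`. -/
def vt (p : W) (k y : ℕ) : W := fun j => if j < k then p j else if j = k then y else 0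

/-- Connectedness of a set for a symmetric relation. -/
def Cn {V : Type} (r : V → V → Prop) (H : Set V) : Prop :=
  ∀ A : Set V, A ⊆ H → A.Nonempty → (∀ a ∈ A, ∀ b ∈ H, r a b → b ∈ A) → A = H

/-- `Q` meets three different cells of depth `k`. -/
def M3 (k : ℕ) (Q : Set W) : Prop :=
  ∃ a ∈ Q, ∃ b ∈ Q, ∃ c ∈ Q, ¬ Ce k a b ∧ ¬ Ce k b c ∧ ¬ Ce k a c

/-- `Q` contains a full cell of depth `j`. -/
def Cov (d N j : ℕ) (Q : Set W) : Prop :=
  ∃ z ∈ K d N, ∀ w ∈ K d N, Ce j z w → w ∈ Q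

/-- Antisymmetry. -/
def Anti (α : W → W → ℤ) : Prop := ∀ x y, α x y = - α y x

/-- Degree of `α` along the top cycle of the cell of depth `k` of `p`. -/
def td (α : W → W → ℤ) (N k : ℕ) (p : W) : ℤ :=
  ∑ y ∈ Finset.range N, α (vt p k y) (vt p k ((y + 1) % N))

/-- All degrees along top cycles are nonnegative. -/
def NN (α : W → W → ℤ) (d N : ℕ) : Prop := ∀ k, k < d → ∀ p ∈ K d N, 0 ≤ td α N k p

/-- Pull back of an edge function. -/
def pull (f : W → W) (α : W → W → ℤ) : W → W → ℤ := fun x y => α (f x) (f y)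

structure HMap (d N N₁ : ℕ) (h : W → W) : Prop where
  maps : ∀ x ∈ K d N₁, h x ∈ K d N
  surj : ∀ y ∈ K d N, ∃ x ∈ K d N₁, h x = y
  slow : ∀ x ∈ K d N₁, ∀ y ∈ K d N₁, ∀ z ∈ K d N₁,
    Ad N₁ x y → Ad N₁ y z → Ad N (h x) (h z)
  good : ∀ Q, Q ⊆ K d N₁ → Cn (Ad N₁) Q → ∀ j, j ≤ d → M3 j (h '' Q) → Cov d N j (h '' Q)
  cell : ∀ k, k ≤ d → ∀ x ∈ K d N₁, ∀ y ∈ K d N₁, Ce k x y → Ce k (h x) (h y)
  deg : ∀ α, Anti α → NN α d N → ∀ k, k < d → ∀ x ∈ K d N₁,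
    td α N k (h x) ≤ td (pull h α) N₁ k x

structure GMap (d N d' N' : ℕ) (g : W → W) : Prop where
  maps : ∀ x ∈ K d' N', g x ∈ K d N
  surj : ∀ y ∈ K d N, ∃ x ∈ K d' N', g x = y
  hom : ∀ x ∈ K d' N', ∀ y ∈ K d' N', Ad N' x y → Ad N (g x) (g y)
  fine4 : ∀ Q, Q ⊆ K d' N' → Cn (Ad N') Q → ∀ k, k ≤ d' → ¬ M3 k Q → d' ≤ k + 2 →
    (g '' Q).ncard ≤ 4
  fine3 : ∀ Q, Q ⊆ K d' N' → Cn (Ad N') Q → ∀ k, k + 2 < d' → ¬ M3 k Q → ∀ F, F ⊆ Q →
    (∃ p, ∀ y, y < N' → vt p (k + 2) y ∈ F) → (g '' Q \ g '' F).ncard ≤ 3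
  nn : ∀ α, Anti α → NN α d N → NN (pull g α) d' N'
  pos : ∀ i, 1 ≤ i → i < d → ∃ i', 2 ≤ i' ∧ i' < d' ∧
    (∀ α, Anti α → NN α d N → (∀ p ∈ K d N, 0 < td α N i p) →
      ∀ p ∈ K d' N', 0 < td (pull g α) N' i' p) ∧
    ∀ x ∈ K d' N', ∃ S : Finset W, S.card ≤ 4 ∧
      ∀ y ∈ K d' N', Ce (i' - 1) x y → ∃ s ∈ S, Ce i s (g y)

structure StageMap (d N d' N' : ℕ) (f : W → W) : Prop where
  maps : ∀ x ∈ K d' N', f x ∈ K d N
  surj : ∀ y ∈ K d N, ∃ x ∈ K d' N', f x = y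
  slow : ∀ x ∈ K d' N', ∀ y ∈ K d' N', ∀ z ∈ K d' N',
    Ad N' x y → Ad N' y z → Ad N (f x) (f z)
  good : ∀ Q, Q ⊆ K d' N' → Cn (Ad N') Q → ∀ j, j ≤ d → M3 j (f '' Q) → Cov d N j (f '' Q)
  fine4 : ∀ Q, Q ⊆ K d' N' → Cn (Ad N') Q → ∀ k, k ≤ d' → ¬ M3 k Q → d' ≤ k + 2 →
    (f '' Q).ncard ≤ 4
  fine3 : ∀ Q, Q ⊆ K d' N' → Cn (Ad N') Q → ∀ k, k + 2 < d' → ¬ M3 k Q → ∀ F, F ⊆ Q →
    (∃ p, ∀ y, y < N' → vt p (k + 2) y ∈ F) → (f '' Q \ f '' F).ncard ≤ 3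
  nn : ∀ α, Anti α → NN α d N → NN (pull f α) d' N'
  pers : ∀ i, 2 ≤ i → i < d → ∃ i', 2 ≤ i' ∧ i' < d' ∧
    (∀ α, Anti α → NN α d N → (∀ p ∈ K d N, 0 < td α N i p) →
      ∀ p ∈ K d' N', 0 < td (pull f α) N' i' p) ∧
    ∀ Q, Q ⊆ K d' N' → Cn (Ad N') Q → M3 (i - 1) (f '' Q) → M3 (i' - 1) Q


theorem K_finite (d N : ℕ) : (K d N).Finite := by
  refine (Set.finite_range (fun v : Fin d → Fin N => fun k : ℕ =>
    if h : k < d then ((v ⟨k, h⟩ : Fin N) : ℕ) else 0)).subset ?_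
  rintro x ⟨hx, hx0⟩
  refine ⟨fun k => ⟨x k, hx k⟩, ?_⟩
  funext k
  by_cases h : k < d
  · simp [h]
  · simp [h, hx0 k (not_lt.mp h)]

theorem Cn_image {V V' : Type} (r : V → V → Prop) (r' : V' → V' → Prop) (f : V → V') (Q : Set V)
    (hf : ∀ a ∈ Q, ∀ b ∈ Q, r a b → r' (f a) (f b)) (hQ : Cn r Q) : Cn r' (f '' Q) := by
  intro A hA hne hcl
  have hB : {q | q ∈ Q ∧ f q ∈ A} = Q := by
    apply hQ
    · rintro q ⟨hq, _⟩; exact hq
    · obtain ⟨a, ha⟩ := hne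
      obtain ⟨q, hq, rfl⟩ := hA ha
      exact ⟨q, hq, ha⟩
    · rintro a ⟨ha, haA⟩ b hb hab
      exact ⟨hb, hcl _ haA _ ⟨b, hb, rfl⟩ (hf a ha b hb hab)⟩
  apply Set.Subset.antisymm hA
  rintro _ ⟨q, hq, rfl⟩
  rw [← hB] at hq
  exact hq.2

theorem Ce_symm {k : ℕ} {x y : W} (h : Ce k x y) : Ce k y x := fun j hj => (h j hj).symm

theorem Ce_trans {k : ℕ} {x y z : W} (h : Ce k x y) (h' : Ce k y z) : Ce k x z :=
  fun j hj => (h j hj).trans (h' j hj)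

theorem stage_of_maps {d N N₁ d' N' : ℕ} (hN : 9 ≤ N) (h g : W → W) (hh : HMap d N N₁ h)
    (hg : GMap d N₁ d' N' g) : StageMap d N d' N' (h ∘ g) := by
  classical
  have hgsub : ∀ Q, Q ⊆ K d' N' → g '' Q ⊆ K d N₁ := by
    rintro Q hQ _ ⟨q, hq, rfl⟩
    exact hg.maps q (hQ hq)
  have hgfin : ∀ Q, Q ⊆ K d' N' → (g '' Q).Finite := fun Q hQ =>
    (K_finite d N₁).subset (hgsub Q hQ)
  have hgCn : ∀ Q, Q ⊆ K d' N' → Cn (Ad N') Q → Cn (Ad N₁) (g '' Q) := fun Q hQ hC =>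
    Cn_image _ _ g Q (fun a ha b hb hab => hg.hom a (hQ ha) b (hQ hb) hab) hC
  have hcomp : ∀ Q, (h ∘ g) '' Q = h '' (g '' Q) := fun Q => Set.image_comp h g Q
  have hanti : ∀ α, Anti α → Anti (pull h α) := fun α hα x y => hα _ _
  have hnn : ∀ α, Anti α → NN α d N → NN (pull h α) d N₁ := by
    intro α hα hn k hk p hp
    exact (hn k hk _ (hh.maps p hp)).trans (hh.deg α hα hn k hk p hp)
  have hgood : ∀ Q, Q ⊆ K d' N' → Cn (Ad N') Q → ∀ j, j ≤ d → M3 j ((h ∘ g) '' Q) →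
      Cov d N j ((h ∘ g) '' Q) := by
    intro Q hQ hC j hj hM
    rw [hcomp] at hM ⊢
    exact hh.good _ (hgsub Q hQ) (hgCn Q hQ hC) j hj hM
  refine ⟨?_, ?_, ?_, hgood, ?_, ?_, ?_, ?_⟩
  · intro x hx
    exact hh.maps _ (hg.maps x hx)
  · intro y hy
    obtain ⟨x, hx, rfl⟩ := hh.surj y hy
    obtain ⟨w, hw, rfl⟩ := hg.surj x hx
    exact ⟨w, hw, rfl⟩
  · intro x hx y hy z hz hxy hyz
    exact hh.slow _ (hg.maps x hx) _ (hg.maps y hy) _ (hg.maps z hz)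
      (hg.hom x hx y hy hxy) (hg.hom y hy z hz hyz)
  · intro Q hQ hC k hk hM hd
    rw [hcomp]
    exact (Set.ncard_image_le (hgfin Q hQ)).trans (hg.fine4 Q hQ hC k hk hM hd)
  · intro Q hQ hC k hk hM F hF hp
    have hsub : (h ∘ g) '' Q \ (h ∘ g) '' F ⊆ h '' (g '' Q \ g '' F) := by
      rintro _ ⟨⟨q, hq, rfl⟩, hn⟩
      refine ⟨g q, ⟨⟨q, hq, rfl⟩, ?_⟩, rfl⟩
      rintro ⟨q', hq', he⟩
      exact hn ⟨q', hq', by simp [he]⟩
    have hfin : (g '' Q \ g '' F).Finite := (hgfin Q hQ).subset Set.sdiff_subset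
    exact (Set.ncard_le_ncard hsub (hfin.image h)).trans
      ((Set.ncard_image_le hfin).trans (hg.fine3 Q hQ hC k hk hM F hF hp))
  · intro α hα hn
    exact hg.nn (pull h α) (hanti α hα) (hnn α hα hn)
  · intro i hi hid
    obtain ⟨i', hi', hid', hpos, hS⟩ := hg.pos i (by omega) hid
    refine ⟨i', hi', hid', ?_, ?_⟩
    · intro α hα hn hp
      refine hpos (pull h α) (hanti α hα) (hnn α hα hn) ?_
      intro x hx
      exact (hp _ (hh.maps x hx)).trans_le (hh.deg α hα hn i hid x hx)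
    · intro Q hQ hC hM
      obtain ⟨z, hz, hcov⟩ := hgood Q hQ hC (i - 1) (by omega) hM
      have hw : ∀ y, y < 9 → vt z (i - 1) y ∈ (h ∘ g) '' Q := by
        intro y hy
        apply hcov
        · constructor
          · intro k
            simp only [vt]
            split_ifs
            · exact hz.1 k
            · omega
            · omega
          · intro k hk
            have h1 : ¬ k < i - 1 := by omega
            have h2 : ¬ k = i - 1 := by omega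
            simp [vt, h1, h2]
        · intro j hj
          simp [vt, hj]
      choose! q hqQ hq using hw
      have hdist : ∀ y, y < 9 → ∀ y', y' < 9 → y ≠ y' → ¬ Ce i (g (q y)) (g (q y')) := by
        intro y hy y' hy' hne hce
        have h1 := hh.cell i hid.le _ (hg.maps _ (hQ (hqQ y hy))) _
          (hg.maps _ (hQ (hqQ y' hy'))) hce
        have h2 : h (g (q y)) = vt z (i - 1) y := hq y hy
        have h3 : h (g (q y')) = vt z (i - 1) y' := hq y' hy'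
        rw [h2, h3] at h1
        have h4 := h1 (i - 1) (by omega)
        simp [vt] at h4
        exact hne h4
      by_contra hcon
      obtain ⟨a, ha, b, hb, hab⟩ : ∃ a ∈ Q, ∃ b ∈ Q, ∀ x ∈ Q,
          Ce (i' - 1) a x ∨ Ce (i' - 1) b x := by
        by_cases hall : ∀ x ∈ Q, Ce (i' - 1) (q 0) x
        · exact ⟨q 0, hqQ 0 (by norm_num), q 0, hqQ 0 (by norm_num), fun x hx => Or.inl (hall x hx)⟩
        · push Not at hall
          obtain ⟨b, hb, hnb⟩ := hall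
          refine ⟨q 0, hqQ 0 (by norm_num), b, hb, ?_⟩
          intro x hx
          by_contra hno
          push Not at hno
          exact hcon ⟨q 0, hqQ 0 (by norm_num), b, hb, x, hx, hnb, hno.2, hno.1⟩
      obtain ⟨Sa, hSa, hSa'⟩ := hS a (hQ ha)
      obtain ⟨Sb, hSb, hSb'⟩ := hS b (hQ hb)
      have hex : ∀ y, y < 9 → ∃ s ∈ Sa ∪ Sb, Ce i s (g (q y)) := by
        intro y hy
        rcases hab (q y) (hqQ y hy) with h1 | h1
        · obtain ⟨s, hs, hs'⟩ := hSa' _ (hQ (hqQ y hy)) h1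
          exact ⟨s, Finset.mem_union_left _ hs, hs'⟩
        · obtain ⟨s, hs, hs'⟩ := hSb' _ (hQ (hqQ y hy)) h1
          exact ⟨s, Finset.mem_union_right _ hs, hs'⟩
      choose! σ hσ hσ' using hex
      have hcard : (Sa ∪ Sb).card < (Finset.range 9).card := by
        rw [Finset.card_range]
        have := Finset.card_union_le Sa Sb
        omega
      obtain ⟨y, hy, y', hy', hne, heq⟩ := Finset.exists_ne_map_eq_of_card_lt_of_maps_to hcard
        (f := σ) (fun y hy => hσ y (Finset.mem_range.mp hy))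
      rw [Finset.mem_range] at hy hy'
      apply hdist y hy y' hy' hne
      have h1 := hσ' y hy
      have h2 := hσ' y' hy'
      rw [heq] at h1
      exact Ce_trans (Ce_symm h1) h2

end Pool.Agent.Helper464.StageSM
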