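import Mathlib

set_option autoImplicit false

namespace Pool.Agent.Helper464.TowerTW

/-- Vertices are functions; a cactus of depth `d` uses the first `d` coordinates. -/
abbrev W := ℕ → ℕ

/-- The vertex set of the cactus of depth `d` and cycle length `N`. -/
def K (d N : ℕ) : Set W := {x | (∀ k, x k < N) ∧ ∀ k, d ≤ k → x k = 0}

/-- Cyclic adjacency (or equality) of `a, b < N`. -/
def Cy (N a b : ℕ) : Prop :=
  a = b ∨ b = a + 1 ∨ a = b + 1 ∨ (a = 0 ∧ b + 1 = N) ∨ (b = 0 ∧ a + 1 = N)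

/-- Adjacency (or equality) of two vertices. -/
def Ad (N : ℕ) (x y : W) : Prop :=
  x = y ∨ ∃ k, (∀ j, j < k → x j = y j) ∧ Cy N (x k) (y k) ∧ ∀ j, k < j → x j = 0 ∧ y j = 0

/-- `x` and `y` lie in the same cell of depth `k`. -/
def Ce (k : ℕ) (x y : W) : Prop := ∀ j, j < k → x j = y j

/-- The vertex number `y` of the top cycle of the cell of depth `k` of `p`. -/
def vt (p : W) (k y : ℕ) : W := fun j => if j < k then p j else if j = k then y else 0

/-- Connectedness of a set for a symmetric relation. -/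
def Cn {V : Type} (r : V → V → Prop) (H : Set V) : Prop :=
  ∀ A : Set V, A ⊆ H → A.Nonempty → (∀ a ∈ A, ∀ b ∈ H, r a b → b ∈ A) → A = H

/-- `Q` meets three different cells of depth `k`. -/
def M3 (k : ℕ) (Q : Set W) : Prop :=
  ∃ a ∈ Q, ∃ b ∈ Q, ∃ c ∈ Q, ¬ Ce k a b ∧ ¬ Ce k b c ∧ ¬ Ce k a c

/-- `Q` contains a full cell of depth `j`. -/
def Cov (d N j : ℕ) (Q : Set W) : Prop :=
  ∃ z ∈ K d N, ∀ w ∈ K d N, Ce j z w → w ∈ Q

/-- Antisymmetry. -/
def Anti (α : W → W → ℤ) : Prop := ∀ x y, α x y = - α y x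

/-- Degree of `α` along the top cycle of the cell of depth `k` of `p`. -/
def td (α : W → W → ℤ) (N k : ℕ) (p : W) : ℤ :=
  ∑ y ∈ Finset.range N, α (vt p k y) (vt p k ((y + 1) % N))

/-- All degrees along top cycles are nonnegative. -/
def NN (α : W → W → ℤ) (d N : ℕ) : Prop := ∀ k, k < d → ∀ p ∈ K d N, 0 ≤ td α N k p

/-- Pull back of an edge function. -/
def pull (f : W → W) (α : W → W → ℤ) : W → W → ℤ := fun x y => α (f x) (f y)

structure HMap (d N N₁ : ℕ) (h : W → W) : Prop where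
  maps : ∀ x ∈ K d N₁, h x ∈ K d N
  surj : ∀ y ∈ K d N, ∃ x ∈ K d N₁, h x = y
  slow : ∀ x ∈ K d N₁, ∀ y ∈ K d N₁, ∀ z ∈ K d N₁,
    Ad N₁ x y → Ad N₁ y z → Ad N (h x) (h z)
  good : ∀ Q, Q ⊆ K d N₁ → Cn (Ad N₁) Q → ∀ j, j ≤ d → M3 j (h '' Q) → Cov d N j (h '' Q)
  cell : ∀ k, k ≤ d → ∀ x ∈ K d N₁, ∀ y ∈ K d N₁, Ce k x y → Ce k (h x) (h y)
  deg : ∀ α, Anti α → NN α d N → ∀ k, k < d → ∀ x ∈ K d N₁,
    td α N k (h x) ≤ td (pull h α) N₁ k x

structure GMap (d N d' N' : ℕ) (g : W → W) : Prop where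
  maps : ∀ x ∈ K d' N', g x ∈ K d N
  surj : ∀ y ∈ K d N, ∃ x ∈ K d' N', g x = y
  hom : ∀ x ∈ K d' N', ∀ y ∈ K d' N', Ad N' x y → Ad N (g x) (g y)
  fine4 : ∀ Q, Q ⊆ K d' N' → Cn (Ad N') Q → ∀ k, k ≤ d' → ¬ M3 k Q → d' ≤ k + 2 →
    (g '' Q).ncard ≤ 4
  fine3 : ∀ Q, Q ⊆ K d' N' → Cn (Ad N') Q → ∀ k, k + 2 < d' → ¬ M3 k Q → ∀ F, F ⊆ Q →
    (∃ p, ∀ y, y < N' → vt p (k + 2) y ∈ F) → (g '' Q \ g '' F).ncard ≤ 3
  nn : ∀ α, Anti α → NN α d N → NN (pull g α) d' N'
  pos : ∀ i, 1 ≤ i → i < d → ∃ i', 2 ≤ i' ∧ i' < d' ∧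
    (∀ α, Anti α → NN α d N → (∀ p ∈ K d N, 0 < td α N i p) →
      ∀ p ∈ K d' N', 0 < td (pull g α) N' i' p) ∧
    ∀ x ∈ K d' N', ∃ S : Finset W, S.card ≤ 4 ∧
      ∀ y ∈ K d' N', Ce (i' - 1) x y → ∃ s ∈ S, Ce i s (g y)

structure StageMap (d N d' N' : ℕ) (f : W → W) : Prop where
  maps : ∀ x ∈ K d' N', f x ∈ K d N
  surj : ∀ y ∈ K d N, ∃ x ∈ K d' N', f x = y
  slow : ∀ x ∈ K d' N', ∀ y ∈ K d' N', ∀ z ∈ K d' N',
    Ad N' x y → Ad N' y z → Ad N (f x) (f z)
  good : ∀ Q, Q ⊆ K d' N' → Cn (Ad N') Q → ∀ j, j ≤ d → M3 j (f '' Q) → Cov d N j (f '' Q)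
  fine4 : ∀ Q, Q ⊆ K d' N' → Cn (Ad N') Q → ∀ k, k ≤ d' → ¬ M3 k Q → d' ≤ k + 2 →
    (f '' Q).ncard ≤ 4
  fine3 : ∀ Q, Q ⊆ K d' N' → Cn (Ad N') Q → ∀ k, k + 2 < d' → ¬ M3 k Q → ∀ F, F ⊆ Q →
    (∃ p, ∀ y, y < N' → vt p (k + 2) y ∈ F) → (f '' Q \ f '' F).ncard ≤ 3
  nn : ∀ α, Anti α → NN α d N → NN (pull f α) d' N'
  pers : ∀ i, 2 ≤ i → i < d → ∃ i', 2 ≤ i' ∧ i' < d' ∧
    (∀ α, Anti α → NN α d N → (∀ p ∈ K d N, 0 < td α N i p) →
      ∀ p ∈ K d' N', 0 < td (pull f α) N' i' p) ∧
    ∀ Q, Q ⊆ K d' N' → Cn (Ad N') Q → M3 (i - 1) (f '' Q) → M3 (i' - 1) Q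


/-- The bonding map from level `m + k` to level `m`. -/
def proj {V : ℕ → Type} (f : ∀ n, V (n + 1) → V n) (m : ℕ) : ∀ k, V (m + k) → V m
  | 0 => id
  | k + 1 => fun x => proj f m k (f (m + k) x)

/-- the bonding maps of the tower on the vertex sets -/
def bond {d N : ℕ → ℕ} {F : ℕ → W → W}
    (hS : ∀ n, StageMap (d n) (N n) (d (n + 1)) (N (n + 1)) (F n)) (n : ℕ) :
    K (d (n + 1)) (N (n + 1)) → K (d n) (N n) := fun x => ⟨F n x.1, (hS n).maps x.1 x.2⟩


theorem cn_val {S : Set W} (H : Set S) (r : W → W → Prop)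
    (h : Cn (fun x y : S => r x.1 y.1) H) : Cn r (Subtype.val '' H) := by
  intro A hA hne hcl
  have h1 := h {x : S | x.1 ∈ A} (by
      intro x hx
      obtain ⟨y, hy, hyx⟩ := hA hx
      have : y = x := Subtype.ext hyx
      exact this ▸ hy) (by
      obtain ⟨a, ha⟩ := hne
      obtain ⟨y, hy, hya⟩ := hA ha
      exact ⟨y, by rw [Set.mem_ofPred_eq, hya]; exact ha⟩) (by
      intro a ha b hb hab
      exact hcl a.1 ha b.1 ⟨b, hb, rfl⟩ hab)
  apply Set.Subset.antisymm hA
  rintro _ ⟨x, hx, rfl⟩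
  rw [← h1] at hx
  exact hx

theorem cn_of_val {S : Set W} (H : Set S) (r : W → W → Prop)
    (h : Cn r (Subtype.val '' H)) : Cn (fun x y : S => r x.1 y.1) H := by
  intro A hA hne hcl
  have h1 := h (Subtype.val '' A) (Set.image_mono hA) (hne.image _) (by
    rintro _ ⟨a, ha, rfl⟩ _ ⟨b, hb, rfl⟩ hab
    exact ⟨b, hcl a ha b hb hab, rfl⟩)
  exact Subtype.val_injective.image_injective h1

theorem vt_mem {d N : ℕ} {p : W} (hp : ∀ j, p j < N) {k y : ℕ} (hk : k < d)
    (hy : y < N) : vt p k y ∈ K d N := by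
  have hN : 0 < N := by omega
  constructor
  · intro j
    unfold vt
    split_ifs
    · exact hp j
    · exact hy
    · exact hN
  · intro j hj
    unfold vt
    rw [if_neg (by omega), if_neg (by omega)]

theorem vt_ad_next {N : ℕ} (_hN : 1 ≤ N) (p : W) (k y : ℕ) (hy : y < N) :
    Ad N (vt p k y) (vt p k ((y + 1) % N)) := by
  right
  refine ⟨k, ?_, ?_, ?_⟩
  · intro j hj
    simp only [vt, if_pos hj]
  · simp only [vt, lt_irrefl, if_false, if_true]
    unfold Cy
    rcases Nat.lt_or_ge (y + 1) N with h | h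
    · rw [Nat.mod_eq_of_lt h]; omega
    · have : y + 1 = N := by omega
      rw [this, Nat.mod_self]; omega
  · intro j hj
    simp only [vt]
    constructor <;> rw [if_neg (by omega), if_neg (by omega)]

theorem vt_ad_succ {N : ℕ} (p : W) (k y : ℕ) : Ad N (vt p k y) (vt p k (y + 1)) := by
  right
  refine ⟨k, ?_, ?_, ?_⟩
  · intro j hj
    simp only [vt, if_pos hj]
  · simp only [vt, lt_irrefl, if_false, if_true]
    unfold Cy
    omega
  · intro j hj
    simp only [vt]
    constructor <;> rw [if_neg (by omega), if_neg (by omega)]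

theorem ad_symm {N : ℕ} {x y : W} (h : Ad N x y) : Ad N y x := by
  rcases h with h | ⟨k, h1, h2, h3⟩
  · exact Or.inl h.symm
  · refine Or.inr ⟨k, fun j hj => (h1 j hj).symm, ?_, fun j hj => ⟨(h3 j hj).2, (h3 j hj).1⟩⟩
    unfold Cy at h2 ⊢
    omega

theorem K_cn {d N : ℕ} (hN : 1 ≤ N) : Cn (Ad N) (K d N) := by
  intro A hA hne hcl
  -- one vertex of a top cycle gives all of them
  have key : ∀ x : W, (∀ j, x j < N) → ∀ k, k < d → ∀ y, y < N → vt x k y ∈ A →
      ∀ y', y' < N → vt x k y' ∈ A := by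
    intro x hx k hk y hy hyA
    have h0 : ∀ t, t ≤ y → vt x k (y - t) ∈ A := by
      intro t
      induction t with
      | zero => intro _; exact hyA
      | succ t ih =>
        intro ht
        have h1 := ih (by omega)
        have h2 : Ad N (vt x k (y - (t + 1))) (vt x k (y - t)) := by
          have := vt_ad_succ (N := N) x k (y - (t + 1))
          rwa [show y - (t + 1) + 1 = y - t by omega] at this
        exact hcl _ h1 _ (vt_mem hx hk (by omega)) (ad_symm h2)
    have hz : vt x k 0 ∈ A := by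
      have := h0 y le_rfl
      rwa [Nat.sub_self] at this
    intro y'
    induction y' with
    | zero => intro _; exact hz
    | succ t ih =>
      intro ht
      exact hcl _ (ih (by omega)) _ (vt_mem hx hk ht) (vt_ad_succ x k t)
  -- truncations
  have trv : ∀ (x : W) k, (fun j => if j < k + 1 then x j else 0) = vt x k (x k) := by
    intro x k
    funext j
    simp only [vt]
    by_cases h1 : j < k
    · rw [if_pos h1, if_pos (by omega)]
    · by_cases h2 : j = k
      · subst h2; simp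
      · rw [if_neg h1, if_neg h2, if_neg (by omega)]
  have trz : ∀ (x : W) k, (fun j => if j < k then x j else 0) = vt x k 0 := by
    intro x k
    funext j
    simp only [vt]
    by_cases h1 : j < k
    · rw [if_pos h1, if_pos h1]
    · rw [if_neg h1, if_neg h1]; simp
  have full : ∀ x ∈ K d N, (fun j => if j < d then x j else 0) = x := by
    intro x hx
    funext j
    by_cases h1 : j < d
    · rw [if_pos h1]
    · rw [if_neg h1]; exact (hx.2 j (by omega)).symm
  have down : ∀ x ∈ A, ∀ t, t ≤ d → (fun j => if j < d - t then x j else 0) ∈ A := by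
    intro x hx t
    have hxK := hA hx
    induction t with
    | zero =>
      intro _
      rw [Nat.sub_zero, full x hxK]
      exact hx
    | succ t ih =>
      intro ht
      have h1 := ih (by omega)
      rw [show d - t = (d - (t + 1)) + 1 by omega, trv] at h1
      rw [trz]
      exact key x hxK.1 (d - (t + 1)) (by omega) _ (hxK.1 _) h1 0 (by omega)
  have hzero : (fun _ => 0 : W) ∈ A := by
    obtain ⟨x, hx⟩ := hne
    have := down x hx d le_rfl
    rw [Nat.sub_self] at this
    simpa using this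
  apply Set.Subset.antisymm hA
  intro w hw
  have up : ∀ t, t ≤ d → (fun j => if j < t then w j else 0) ∈ A := by
    intro t
    induction t with
    | zero => intro _; simpa using hzero
    | succ t ih =>
      intro ht
      have h1 := ih (by omega)
      rw [trz] at h1
      rw [trv]
      exact key w hw.1 t (by omega) 0 (by omega) h1 _ (hw.1 t)
  have := up d le_rfl
  rwa [full w hw] at this

theorem K_finite (d N : ℕ) : Finite (K d N) := by
  apply Finite.of_injective (fun (x : K d N) (k : Fin d) => (⟨x.1 k, x.2.1 k⟩ : Fin N))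
  intro x y hxy
  apply Subtype.ext
  funext k
  by_cases hk : k < d
  · have := congrFun hxy ⟨k, hk⟩
    simpa using this
  · rw [x.2.2 k (by omega), y.2.2 k (by omega)]

/-- wrap step at coordinate `i` -/
def Wr (i N : ℕ) (x y : W) : Prop :=
  (∀ j, j < i → x j = y j) ∧ x i + 1 = N ∧ y i = 0 ∧ ∀ j, i < j → x j = 0 ∧ y j = 0

open Classical in
/-- dual edge function of the wrap step at coordinate `i` -/
noncomputable def dual (i N : ℕ) (x y : W) : ℤ :=
  (if Wr i N x y then 1 else 0) - (if Wr i N y x then 1 else 0)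

theorem dual_anti (i N : ℕ) : Anti (dual i N) := by
  intro x y
  unfold dual
  ring

theorem vt_at (p : W) (k y : ℕ) : vt p k y k = y := by simp [vt]
theorem vt_lt (p : W) {k j : ℕ} (y : ℕ) (h : j < k) : vt p k y j = p j := by simp [vt, h]
theorem vt_gt (p : W) {k j : ℕ} (y : ℕ) (h : k < j) : vt p k y j = 0 := by
  simp only [vt]; rw [if_neg (by omega), if_neg (by omega)]

theorem td_dual_self (i N : ℕ) (hN : 3 ≤ N) (p : W) : td (dual i N) N i p = 1 := by
  unfold td
  rw [Finset.sum_eq_single (N - 1)]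
  · have h1 : Wr i N (vt p i (N - 1)) (vt p i ((N - 1 + 1) % N)) := by
      refine ⟨?_, ?_, ?_, ?_⟩
      · intro j hj; rw [vt_lt p _ hj, vt_lt p _ hj]
      · rw [vt_at]; omega
      · rw [vt_at, show N - 1 + 1 = N by omega, Nat.mod_self]
      · intro j hj; rw [vt_gt p _ hj, vt_gt p _ hj]; exact ⟨rfl, rfl⟩
    have h2 : ¬ Wr i N (vt p i ((N - 1 + 1) % N)) (vt p i (N - 1)) := by
      rintro ⟨-, -, h, -⟩
      rw [vt_at] at h
      omega
    unfold dual
    rw [if_pos h1, if_neg h2]; norm_num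
  · intro y hy hne
    have hy' := Finset.mem_range.1 hy
    have h1 : ¬ Wr i N (vt p i y) (vt p i ((y + 1) % N)) := by
      rintro ⟨-, h, -, -⟩
      rw [vt_at] at h
      omega
    have h2 : ¬ Wr i N (vt p i ((y + 1) % N)) (vt p i y) := by
      rintro ⟨-, h, h3, -⟩
      rw [vt_at] at h h3
      rw [Nat.mod_eq_of_lt (by omega)] at h
      omega
    unfold dual
    rw [if_neg h1, if_neg h2]; norm_num
  · intro h
    exact absurd (Finset.mem_range.2 (by omega)) h

theorem td_dual_ne (i N : ℕ) (hN : 3 ≤ N) (k : ℕ) (hk : k ≠ i) (p : W) :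
    td (dual i N) N k p = 0 := by
  unfold td
  apply Finset.sum_eq_zero
  intro y _
  have hgen : ∀ a b : ℕ, ¬ Wr i N (vt p k a) (vt p k b) := by
    intro a b
    rintro ⟨-, h1, h2, -⟩
    rcases Nat.lt_or_gt_of_ne hk with h | h
    · rw [vt_gt p _ h] at h1; omega
    · rw [vt_lt p _ h] at h1 h2; omega
  unfold dual
  rw [if_neg (hgen _ _), if_neg (hgen _ _)]; norm_num

theorem sum_cyc (N : ℕ) (g : ℕ → ℤ) :
    ∑ y ∈ Finset.range N, (g ((y + 1) % N) - g y) = 0 := by
  rcases N with _ | N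
  · simp
  · rw [Finset.sum_sub_distrib]
    have h1 : ∑ y ∈ Finset.range (N + 1), g ((y + 1) % (N + 1)) =
        ∑ y ∈ Finset.range (N + 1), g y := by
      rw [Finset.sum_range_succ, Finset.sum_range_succ']
      rw [Nat.mod_self]
      congr 1
      apply Finset.sum_congr rfl
      intro y hy
      have := Finset.mem_range.1 hy
      rw [Nat.mod_eq_of_lt (by omega)]
    rw [h1, sub_self]

/-- composed maps of the tower on `W` -/
def PP (F : ℕ → W → W) (m : ℕ) : ℕ → W → W
  | 0 => id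
  | k + 1 => fun x => PP F m k (F (m + k) x)

theorem proj_val {d N : ℕ → ℕ} {F : ℕ → W → W}
    (hS : ∀ n, StageMap (d n) (N n) (d (n + 1)) (N (n + 1)) (F n)) (m : ℕ) :
    ∀ k (u : K (d (m + k)) (N (m + k))),
      (proj (V := fun m => K (d m) (N m)) (bond hS) m k u).1 = PP F m k u.1
  | 0, _ => rfl
  | k + 1, u => proj_val hS m k (bond hS (m + k) u)

theorem potential_step (i M : ℕ) (hN' : 9 ≤ M) (Y : W → ℕ) (hY1 : ∀ p, Y p < M) (A : Set W)
    (hY2 : ∀ p, vt p i (Y p) ∉ A) (u v : W) (hu : u ∈ A) (hv : v ∈ A) (huv : Ad M u v) :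
    (if v i ≤ Y (vt v i 0) then 0 else -1) - (if u i ≤ Y (vt u i 0) then (0 : ℤ) else -1) =
      dual i M u v := by
  have hself : ∀ x : W, x ∈ A → (∀ j, i < j → x j = 0) →
      x i ≠ Y (vt x i 0) := by
    intro x hx hx0 hcon
    apply hY2 (vt x i 0)
    have hx' : x = vt (vt x i 0) i (Y (vt x i 0)) := ?_
    · rw [← hx']; exact hx
    funext j
    rw [← hcon]
    rcases Nat.lt_trichotomy j i with h | h | h
    · rw [vt_lt _ _ h, vt_lt _ _ h]
    · rw [h, vt_at]
    · rw [vt_gt _ _ h, hx0 j h]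
  have htr : (∀ j, j < i → u j = v j) → vt u i 0 = vt v i 0 := by
    intro h
    funext j
    rcases Nat.lt_trichotomy j i with h' | h' | h'
    · rw [vt_lt _ _ h', vt_lt _ _ h', h j h']
    · rw [h', vt_at, vt_at]
    · rw [vt_gt _ _ h', vt_gt _ _ h']
  rcases huv with huv | ⟨k, h1, h2, h3⟩
  · rw [huv]; unfold dual; ring
  · rcases Nat.lt_trichotomy k i with hk | hk | hk
    · -- k < i
      have e1 := (h3 i hk).1
      have e2 := (h3 i hk).2
      have n1 : ¬ Wr i M u v := by
        rintro ⟨-, h, -, -⟩; omega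
      have n2 : ¬ Wr i M v u := by
        rintro ⟨-, h, -, -⟩; omega
      unfold dual
      rw [if_neg n1, if_neg n2, e1, e2, if_pos (Nat.zero_le _), if_pos (Nat.zero_le _)]
    · -- k = i
      subst hk
      have e := htr h1
      have s1 := hself u hu (fun j hj => (h3 j hj).1)
      have s2 := hself v hv (fun j hj => (h3 j hj).2)
      rw [← e] at s2
      have hYlt := hY1 (vt u k 0)
      simp only [← e]
      obtain ⟨y, hy⟩ : ∃ y, y = Y (vt u k 0) := ⟨_, rfl⟩
      rw [← hy] at s1 s2 hYlt ⊢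
      unfold Cy at h2
      rcases h2 with h2 | h2 | h2 | ⟨h2, h2'⟩ | ⟨h2, h2'⟩
      · have n1 : ¬ Wr k M u v := by
          rintro ⟨-, h, h', -⟩; omega
        have n2 : ¬ Wr k M v u := by
          rintro ⟨-, h, h', -⟩; omega
        unfold dual
        rw [if_neg n1, if_neg n2, h2]; ring
      · have n1 : ¬ Wr k M u v := by
          rintro ⟨-, h, h', -⟩; omega
        have n2 : ¬ Wr k M v u := by
          rintro ⟨-, h, h', -⟩; omega
        unfold dual
        rw [if_neg n1, if_neg n2]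
        by_cases c : u k ≤ y
        · rw [if_pos c, if_pos (by omega)]
        · rw [if_neg c, if_neg (by omega)]; ring
      · have n1 : ¬ Wr k M u v := by
          rintro ⟨-, h, h', -⟩; omega
        have n2 : ¬ Wr k M v u := by
          rintro ⟨-, h, h', -⟩; omega
        unfold dual
        rw [if_neg n1, if_neg n2]
        by_cases c : v k ≤ y
        · rw [if_pos c, if_pos (by omega)]
        · rw [if_neg c, if_neg (by omega)]; ring
      · have n1 : ¬ Wr k M u v := by
          rintro ⟨-, h, h', -⟩; omega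
        have n2 : Wr k M v u :=
          ⟨fun j hj => (h1 j hj).symm, h2', h2, fun j hj => ⟨(h3 j hj).2, (h3 j hj).1⟩⟩
        unfold dual
        rw [if_neg n1, if_pos n2, if_neg (by omega), if_pos (by omega)]; ring
      · have n1 : Wr k M u v := ⟨h1, h2', h2, h3⟩
        have n2 : ¬ Wr k M v u := by
          rintro ⟨-, h, h', -⟩; omega
        unfold dual
        rw [if_pos n1, if_neg n2, if_pos (by omega), if_neg (by omega)]; ring
    · -- i < k
      have e := htr (fun j hj => h1 j (by omega))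
      have e1 := h1 i hk
      have n1 : ¬ Wr i M u v := by
        rintro ⟨-, h, h', -⟩; omega
      have n2 : ¬ Wr i M v u := by
        rintro ⟨-, h, h', -⟩; omega
      unfold dual
      rw [if_neg n1, if_neg n2, e, e1]; ring



theorem tower {d N : ℕ → ℕ} {F : ℕ → W → W} (hd : ∀ n, 1 ≤ d n) (hN : ∀ n, 9 ≤ N n)
    (hS : ∀ n, StageMap (d n) (N n) (d (n + 1)) (N (n + 1)) (F n)) :
    (∀ n, Finite (K (d n) (N n))) ∧
    (∀ n, Function.Surjective (bond hS n)) ∧
    (∀ n, ∀ x y z : K (d (n + 1)) (N (n + 1)), Ad (N (n + 1)) x.1 y.1 → Ad (N (n + 1)) y.1 z.1 →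
      Ad (N n) (bond hS n x).1 (bond hS n z).1) ∧
    (∀ n, ∀ x y : K (d n) (N n), Ad (N n) x.1 y.1 → Ad (N n) y.1 x.1) ∧
    (∀ n, Cn (fun x y : K (d n) (N n) => Ad (N n) x.1 y.1) Set.univ) ∧
    (∃ u v : K (d 0) (N 0), ¬ Ad (N 0) u.1 v.1) ∧
    (∀ H : (∀ m, Set (K (d m) (N m))),
      (∀ m, Cn (fun x y : K (d m) (N m) => Ad (N m) x.1 y.1) (H m)) →
      (∀ m, bond hS m '' H (m + 1) = H m) →
      ∀ n, 5 ≤ (H n).ncard → ∃ α : K (d (n + 1)) (N (n + 1)) → K (d (n + 1)) (N (n + 1)) → ℤ,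
        (∀ k, ¬ ∃ s : K (d (n + 1 + k)) (N (n + 1 + k)) → ℤ,
          ∀ u ∈ H (n + 1 + k), ∀ v ∈ H (n + 1 + k),
          Ad (N (n + 1 + k)) u.1 v.1 → s v - s u =
            α (proj (V := fun m => K (d m) (N m)) (bond hS) (n + 1) k u)
              (proj (V := fun m => K (d m) (N m)) (bond hS) (n + 1) k v)) ∧
        (∀ F' : Set (K (d (n + 1)) (N (n + 1))), F' ⊆ H (n + 1) → F'.Nonempty →
          Cn (fun x y : K (d (n + 1)) (N (n + 1)) => Ad (N (n + 1)) x.1 y.1) F' →
          4 ≤ (H n \ bond hS n '' F').ncard →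
          ∃ s : K (d (n + 1)) (N (n + 1)) → ℤ, ∀ u ∈ F', ∀ v ∈ F',
            Ad (N (n + 1)) u.1 v.1 → s v - s u = α u v)) := by
  refine ⟨fun n => K_finite _ _, ?_, ?_, ?_, ?_, ?_, ?_⟩
  · intro n y
    obtain ⟨x, hx, hxy⟩ := (hS n).surj y.1 y.2
    exact ⟨⟨x, hx⟩, Subtype.ext hxy⟩
  · intro n x y z h1 h2
    exact (hS n).slow x.1 x.2 y.1 y.2 z.1 z.2 h1 h2
  · intro n x y h
    exact ad_symm h
  · intro n
    apply cn_of_val
    rw [Set.image_univ, Subtype.range_coe]
    exact K_cn (by have := hN n; omega)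
  · have hN0 := hN 0
    have hd0 := hd 0
    refine ⟨⟨vt (fun _ => 0) 0 0, vt_mem (fun _ => by omega) (by omega) (by omega)⟩,
      ⟨vt (fun _ => 0) 0 2, vt_mem (fun _ => by omega) (by omega) (by omega)⟩, ?_⟩
    rintro (h | ⟨k, h1, h2, -⟩)
    · have := congrFun h 0
      simp [vt] at this
    · rcases Nat.eq_zero_or_pos k with hk | hk
      · subst hk
        simp only [vt_at] at h2
        unfold Cy at h2
        omega
      · have := h1 0 hk
        simp only [vt_at] at this
        omega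
  · intro H hHcn hHb n hn5
    -- the images in `W`
    obtain ⟨Q, hQ⟩ : ∃ Q : ℕ → Set W, Q = fun m => Subtype.val '' (H m) := ⟨_, rfl⟩
    have hQK : ∀ m, Q m ⊆ K (d m) (N m) := by
      intro m; rw [hQ]; rintro _ ⟨x, _, rfl⟩; exact x.2
    have hQcn : ∀ m, Cn (Ad (N m)) (Q m) := by
      intro m; rw [hQ]; exact cn_val _ _ (hHcn m)
    have hbondval : ∀ m (A : Set (K (d (m + 1)) (N (m + 1)))),
        Subtype.val '' (bond hS m '' A) = F m '' (Subtype.val '' A) := by
      intro m A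
      rw [Set.image_image, Set.image_image]
      rfl
    have hQb : ∀ m, F m '' Q (m + 1) = Q m := by
      intro m
      have := congrArg (fun A => Subtype.val '' A) (hHb m)
      simp only [hbondval] at this
      rw [hQ]; exact this
    have hQcard : (Q n).ncard = (H n).ncard := by
      rw [hQ]; exact Set.ncard_image_of_injective _ Subtype.val_injective
    -- the largest `k` with at most two cells
    have hex : ∃ k0, k0 ≤ d (n + 1) ∧ ¬ M3 k0 (Q (n + 1)) ∧
        ∀ k, k ≤ d (n + 1) → k0 < k → M3 k (Q (n + 1)) := by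
      classical
      obtain ⟨k0, hk0, hmax⟩ := Finset.exists_max_image
        ((Finset.range (d (n + 1) + 1)).filter (fun k => ¬ M3 k (Q (n + 1)))) (fun k => k)
        ⟨0, by
          rw [Finset.mem_filter, Finset.mem_range]
          refine ⟨by omega, ?_⟩
          rintro ⟨a, _, b, _, c, _, h1, _, _⟩
          exact h1 (fun j hj => absurd hj (Nat.not_lt_zero _))⟩
      rw [Finset.mem_filter, Finset.mem_range] at hk0
      refine ⟨k0, by omega, hk0.2, ?_⟩
      intro k hk hlt
      by_contra hcon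
      have := hmax k (by rw [Finset.mem_filter, Finset.mem_range]; exact ⟨by omega, hcon⟩)
      omega
    obtain ⟨k0, hk0, hk0n, hk0max⟩ := hex
    have hlt : k0 + 2 < d (n + 1) := by
      by_contra hcon
      have := (hS n).fine4 (Q (n + 1)) (hQK _) (hQcn _) k0 hk0 hk0n (by omega)
      rw [hQb, hQcard] at this
      omega
    have hM3 : M3 (k0 + 1) (Q (n + 1)) := hk0max (k0 + 1) (by omega) (by omega)
    have hN' := hN (n + 1)
    refine ⟨fun x y => dual (k0 + 2) (N (n + 1)) x.1 y.1, ?_, ?_⟩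
    · -- persistence
      have pers : ∀ k, ∃ i, 2 ≤ i ∧ i < d (n + 1 + k) ∧
          Anti (pull (PP F (n + 1) k) (dual (k0 + 2) (N (n + 1)))) ∧
          NN (pull (PP F (n + 1) k) (dual (k0 + 2) (N (n + 1)))) (d (n + 1 + k)) (N (n + 1 + k)) ∧
          (∀ p ∈ K (d (n + 1 + k)) (N (n + 1 + k)),
            0 < td (pull (PP F (n + 1) k) (dual (k0 + 2) (N (n + 1)))) (N (n + 1 + k)) i p) ∧
          M3 (i - 1) (Q (n + 1 + k)) := by
        intro k
        induction k with
        | zero =>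
          refine ⟨k0 + 2, by omega, hlt, ?_, ?_, ?_, ?_⟩
          · exact dual_anti _ _
          · intro k _ p _
            show 0 ≤ td (dual (k0 + 2) (N (n + 1))) (N (n + 1)) k p
            by_cases hk : k = k0 + 2
            · rw [hk, td_dual_self _ _ (by omega)]; norm_num
            · rw [td_dual_ne _ _ (by omega) _ hk]
          · intro p _
            show 0 < td (dual (k0 + 2) (N (n + 1))) (N (n + 1)) (k0 + 2) p
            rw [td_dual_self _ _ (by omega)]; norm_num
          · exact hM3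
        | succ k ih =>
          obtain ⟨i, h2, hid, han, hnn, hpos, hm3⟩ := ih
          obtain ⟨i', h2', hid', hpos', hm3'⟩ := (hS (n + 1 + k)).pers i h2 hid
          refine ⟨i', h2', hid', ?_, ?_, ?_, ?_⟩
          · intro x y
            exact han _ _
          · exact (hS (n + 1 + k)).nn _ han hnn
          · exact hpos' _ han hnn hpos
          · apply hm3' (Q (n + 1 + k + 1)) (hQK _) (hQcn _)
            rw [hQb]
            exact hm3
      intro k
      rintro ⟨s, hs⟩
      obtain ⟨i, h2, hid, han, hnn, hpos, hm3⟩ := pers k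
      obtain ⟨m, hm⟩ : ∃ m, m = n + 1 + k := ⟨_, rfl⟩
      have hcov := (hS (n + 1 + k)).good (Q (n + 1 + k + 1)) (hQK _) (hQcn _) (i - 1) (by omega)
        (by rw [hQb]; exact hm3)
      rw [hQb] at hcov
      obtain ⟨z, hz, hzc⟩ := hcov
      have hNm := hN (n + 1 + k)
      have hvK : ∀ y, y < N (n + 1 + k) → vt z i y ∈ K (d (n + 1 + k)) (N (n + 1 + k)) :=
        fun y hy => vt_mem hz.1 hid hy
      have hvH : ∀ y (hy : y < N (n + 1 + k)), (⟨vt z i y, hvK y hy⟩ :
          K (d (n + 1 + k)) (N (n + 1 + k))) ∈ H (n + 1 + k) := by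
        intro y hy
        have h1 : vt z i y ∈ Q (n + 1 + k) := by
          apply hzc _ (hvK y hy)
          intro j hj
          rw [vt_lt z _ (by omega)]
        rw [hQ] at h1
        obtain ⟨u, hu, hux⟩ := h1
        have : u = ⟨vt z i y, hvK y hy⟩ := Subtype.ext hux
        exact this ▸ hu
      -- extend the potential
      classical
      let g : ℕ → ℤ := fun y => if hy : y < N (n + 1 + k) then s ⟨vt z i y, hvK y hy⟩ else 0
      have hsum := sum_cyc (N (n + 1 + k)) g
      have htd := hpos z hz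
      unfold td at htd
      have heq : ∑ y ∈ Finset.range (N (n + 1 + k)), (g ((y + 1) % N (n + 1 + k)) - g y) =
          ∑ y ∈ Finset.range (N (n + 1 + k)),
            pull (PP F (n + 1) k) (dual (k0 + 2) (N (n + 1))) (vt z i y)
              (vt z i ((y + 1) % N (n + 1 + k))) := by
        apply Finset.sum_congr rfl
        intro y hy
        have hy1 : y < N (n + 1 + k) := Finset.mem_range.1 hy
        have hy2 : (y + 1) % N (n + 1 + k) < N (n + 1 + k) := Nat.mod_lt _ (by omega)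
        simp only [g, dif_pos hy1, dif_pos hy2]
        have h3 := hs ⟨vt z i y, hvK y hy1⟩ (hvH y hy1) ⟨vt z i ((y + 1) % N (n + 1 + k)), hvK _ hy2⟩
          (hvH _ hy2) (vt_ad_next (by omega) z i y hy1)
        rw [h3]
        simp only [proj_val]
        rfl
      rw [← heq, hsum] at htd
      exact lt_irrefl _ htd
    · -- potential on `F'`
      intro F' hF' hne hcn h4
      have hnofull : ¬ ∃ p, ∀ y, y < N (n + 1) → vt p (k0 + 2) y ∈ Subtype.val '' F' := by
        intro hp
        have h3 := (hS n).fine3 (Q (n + 1)) (hQK _) (hQcn _) k0 hlt hk0n (Subtype.val '' F')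
          (by rw [hQ]; exact Set.image_mono hF') hp
        rw [hQb, ← hbondval] at h3
        have h5 : Q n \ Subtype.val '' (bond hS n '' F') =
            Subtype.val '' (H n \ bond hS n '' F') := by
          rw [hQ, Set.image_sdiff Subtype.val_injective]
        rw [h5, Set.ncard_image_of_injective _ Subtype.val_injective] at h3
        omega
      have hch : ∀ p : W, ∃ y, y < N (n + 1) ∧ vt p (k0 + 2) y ∉ Subtype.val '' F' := by
        intro p
        by_contra hcon
        push Not at hcon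
        exact hnofull ⟨p, hcon⟩
      choose Y hY1 hY2 using hch
      classical
      refine ⟨fun x => if x.1 (k0 + 2) ≤ Y (vt x.1 (k0 + 2) 0) then 0 else -1, ?_⟩
      intro u hu v hv huv
      exact potential_step (k0 + 2) (N (n + 1)) hN' Y hY1 (Subtype.val '' F') hY2 u.1 v.1
        ⟨u, hu, rfl⟩ ⟨v, hv, rfl⟩ huv

end Pool.Agent.Helper464.TowerTW
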