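import Mathlib

set_option autoImplicit false

namespace Pool.Agent.Helper464.WalkHA

/-- Vertices are functions; a cactus of depth `d` uses the first `d` coordinates. -/
abbrev W := ℕ → ℕ

/-- The vertex set of the cactus of depth `d` and cycle length `N`. -/
def K (d N : ℕ) : Set W := {x | (∀ k, x k < N) ∧ ∀ k, d ≤ k → x k = 0}

/-- Cyclic adjacency (or equality) of `a, b < N`. -/
def Cy (N a b : ℕ) : Prop :=
  a = b ∨ b = a + 1 ∨ a = b + 1 ∨ (a = 0 ∧ b + 1 = N) ∨ (b = 0 ∧ a + 1 = N)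

/-- Adjacency (or equality) of two vertices. -/
def Ad (N : ℕ) (x y : W) : Prop :=
  x = y ∨ ∃ k, (∀ j, j < k → x j = y j) ∧ Cy N (x k) (y k) ∧ ∀ j, k < j → x j = 0 ∧ y j = 0

/-- `x` and `y` lie in the same cell of depth `k`. -/
def Ce (k : ℕ) (x y : W) : Prop := ∀ j, j < k → x j = y j

/-- The vertex number `y` of the top cycle of the cell of depth `k` of `p`. -/
def vt (p : W) (k y : ℕ) : W := fun j => if j < k then p j else if j = k then y else 0

/-- Antisymmetry. -/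
def Anti (α : W → W → ℤ) : Prop := ∀ x y, α x y = - α y x

/-- Degree of `α` along the top cycle of the cell of depth `k` of `p`. -/
def td (α : W → W → ℤ) (N k : ℕ) (p : W) : ℤ :=
  ∑ y ∈ Finset.range N, α (vt p k y) (vt p k ((y + 1) % N))

/-- All degrees along top cycles are nonnegative. -/
def NN (α : W → W → ℤ) (d N : ℕ) : Prop := ∀ k, k < d → ∀ p ∈ K d N, 0 ≤ td α N k p

/-- Goodness of the walk `w 0, ..., w n` for the cells of depth `j`. -/
structure Gd (d N j : ℕ) (w : ℕ → W) (n : ℕ) : Prop where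
  pre : ∀ r, r ≤ n → ¬ Ce j (w 0) (w r) → ∀ z ∈ K d N, Ce j (w 0) z → ∃ i, i ≤ r ∧ w i = z
  suf : ∀ r, r ≤ n → ¬ Ce j (w n) (w r) → ∀ z ∈ K d N, Ce j (w n) z →
    ∃ i, r ≤ i ∧ i ≤ n ∧ w i = z
  inf : ∀ r s t, r ≤ s → s ≤ t → t ≤ n → ¬ Ce j (w r) (w s) → ¬ Ce j (w s) (w t) →
    ¬ Ce j (w r) (w t) → ∃ c ∈ K d N, ∀ z ∈ K d N, Ce j c z → ∃ i, r ≤ i ∧ i ≤ t ∧ w i = z

/-- A closed walk at `u` inside the cell of depth `k` of `u`, covering that cell. -/
structure CW (d N k : ℕ) (u : W) (w : ℕ → W) (n : ℕ) : Prop where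
  zero : w 0 = u
  last : w n = u
  step : ∀ i, i < n → Ad N (w i) (w (i + 1))
  mem : ∀ i, i ≤ n → w i ∈ K d N ∧ Ce k u (w i)
  cov : ∀ z ∈ K d N, Ce k u z → ∃ i, i ≤ n ∧ w i = z
  gd : ∀ j, k < j → j ≤ d → Gd d N j w n
  deg : ∀ α, Anti α → NN α d N → 0 ≤ ∑ i ∈ Finset.range n, α (w i) (w (i + 1)) ∧
    (k < d → td α N k u ≤ ∑ i ∈ Finset.range n, α (w i) (w (i + 1)))

theorem Ce.rfl' {k : ℕ} {x : W} : Ce k x x := fun _ _ => rfl
theorem Ce.symm {k : ℕ} {x y : W} (h : Ce k x y) : Ce k y x := fun j hj => (h j hj).symm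
theorem Ce.trans {k : ℕ} {x y z : W} (h : Ce k x y) (h' : Ce k y z) : Ce k x z :=
  fun j hj => (h j hj).trans (h' j hj)
theorem Ce.mono {k l : ℕ} {x y : W} (h : Ce l x y) (hkl : k ≤ l) : Ce k x y :=
  fun j hj => h j (lt_of_lt_of_le hj hkl)

theorem Cy.symm {N a b : ℕ} (h : Cy N a b) : Cy N b a := by
  unfold Cy at *; omega

theorem Ad.symm {N : ℕ} {x y : W} (h : Ad N x y) : Ad N y x := by
  rcases h with h | ⟨k, h1, h2, h3⟩
  · exact Or.inl h.symm
  · exact Or.inr ⟨k, fun j hj => (h1 j hj).symm, h2.symm, fun j hj => (h3 j hj).symm⟩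

/-- gluing with gap `g` (`g = 0`: concatenation, `g = 1`: bridge). -/
def glue (w1 : ℕ → W) (n1 g : ℕ) (w2 : ℕ → W) : ℕ → W :=
  fun i => if i ≤ n1 then w1 i else w2 (i - n1 - g)

theorem glue_le {w1 : ℕ → W} {n1 g : ℕ} {w2 : ℕ → W} {i : ℕ} (h : i ≤ n1) :
    glue w1 n1 g w2 i = w1 i := by simp [glue, h]

theorem glue_gt {w1 : ℕ → W} {n1 g : ℕ} {w2 : ℕ → W} {i : ℕ} (h : n1 < i) :
    glue w1 n1 g w2 i = w2 (i - n1 - g) := by
  have : ¬ i ≤ n1 := by omega
  simp [glue, this]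

/-- second part, when `g = 0` and the endpoints agree or `g = 1` -/
theorem glue_add {w1 : ℕ → W} {n1 g : ℕ} {w2 : ℕ → W} (hg : g = 0 ∧ w1 n1 = w2 0 ∨ g = 1)
    (i : ℕ) : glue w1 n1 g w2 (n1 + g + i) = w2 i := by
  rcases hg with ⟨hg, h⟩ | hg
  · subst hg
    rcases Nat.eq_zero_or_pos i with h0 | h0
    · subst h0; rw [glue_le (by omega)]; simpa using h
    · rw [glue_gt (by omega)]; congr 1; omega
  · subst hg
    rw [glue_gt (by omega)]; congr 1; omega

theorem gd_glue {d N j n1 n2 g : ℕ} {w1 w2 : ℕ → W}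
    (hg : g = 0 ∧ w1 n1 = w2 0 ∨
      g = 1 ∧ (∀ z ∈ K d N, Ce j (w1 n1) z → ∃ i, i ≤ n1 ∧ w1 i = z) ∧
        (∀ z ∈ K d N, Ce j (w2 0) z → ∃ i, i ≤ n2 ∧ w2 i = z))
    (m1 : w1 n1 ∈ K d N) (m2 : w2 0 ∈ K d N)
    (h1 : Gd d N j w1 n1) (h2 : Gd d N j w2 n2) :
    Gd d N j (glue w1 n1 g w2) (n1 + g + n2) := by
  have hg' : g = 0 ∧ w1 n1 = w2 0 ∨ g = 1 := by tauto
  have ga := glue_add hg'
  have key : ∀ i, n1 + g ≤ i → glue w1 n1 g w2 i = w2 (i - (n1 + g)) := by
    intro i hi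
    have := ga (i - (n1 + g))
    rwa [Nat.add_sub_cancel' hi] at this
  refine ⟨?_, ?_, ?_⟩
  · intro r hr hne z hz hcz
    rw [glue_le (Nat.zero_le _)] at hne hcz
    by_cases hex : ∃ r', r' ≤ n1 ∧ r' ≤ r ∧ ¬ Ce j (w1 0) (w1 r')
    · obtain ⟨r', hr1, hr2, hr3⟩ := hex
      obtain ⟨i, hi, hiz⟩ := h1.pre r' hr1 hr3 z hz hcz
      exact ⟨i, by omega, by rw [glue_le (by omega)]; exact hiz⟩
    · push Not at hex
      have hrn : n1 < r := by
        by_contra hcon
        push Not at hcon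
        rw [glue_le hcon] at hne
        exact hne (hex r hcon le_rfl)
      have hc1 : Ce j (w1 0) (w1 n1) := hex n1 le_rfl hrn.le
      rcases hg with ⟨hg0, hg1⟩ | ⟨hg0, hg1, hg2⟩
      · rw [key r (by omega)] at hne
        rw [hg1] at hc1
        obtain ⟨i, hi, hiz⟩ := h2.pre (r - (n1 + g)) (by omega)
          (fun hcon => hne (hc1.trans hcon)) z hz (hc1.symm.trans hcz)
        exact ⟨n1 + g + i, by omega, by rw [ga]; exact hiz⟩
      · obtain ⟨i, hi, hiz⟩ := hg1 z hz (hc1.symm.trans hcz)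
        exact ⟨i, by omega, by rw [glue_le hi]; exact hiz⟩
  · intro r hr hne z hz hcz
    rw [ga] at hne hcz
    by_cases hex : ∃ r', n1 + g ≤ r' ∧ r ≤ r' ∧ r' ≤ n1 + g + n2 ∧ ¬ Ce j (w2 n2) (w2 (r' - (n1 + g)))
    · obtain ⟨r', hr1, hr2, hr2', hr3⟩ := hex
      obtain ⟨i, hi, hi', hiz⟩ := h2.suf (r' - (n1 + g)) (by omega) hr3 z hz hcz
      exact ⟨n1 + g + i, by omega, by omega, by rw [ga]; exact hiz⟩
    · push Not at hex
      have hrn : r < n1 + g := by
        by_contra hcon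
        push Not at hcon
        rw [key r hcon] at hne
        exact hne (hex r hcon le_rfl hr)
      have hc1 : Ce j (w2 n2) (w2 0) := by
        have := hex (n1 + g) le_rfl hrn.le (by omega)
        simpa using this
      rcases hg with ⟨hg0, hg1⟩ | ⟨hg0, hg1, hg2⟩
      · rw [glue_le (by omega)] at hne
        rw [← hg1] at hc1
        obtain ⟨i, hi, hi', hiz⟩ := h1.suf r (by omega)
          (fun hcon => hne (hc1.trans hcon)) z hz (hc1.symm.trans hcz)
        exact ⟨i, by omega, by omega, by rw [glue_le hi']; exact hiz⟩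
      · obtain ⟨i, hi, hiz⟩ := hg2 z hz (hc1.symm.trans hcz)
        exact ⟨n1 + g + i, by omega, by omega, by rw [ga]; exact hiz⟩
  · intro r s t hrs hst ht n1' n2' n3'
    by_cases ht1 : t ≤ n1
    · rw [glue_le (by omega), glue_le (by omega)] at n1' n2' n3'
      obtain ⟨c, hc, hcc⟩ := h1.inf r s t hrs hst ht1 n1' n2' n3'
      refine ⟨c, hc, fun z hz hz' => ?_⟩
      obtain ⟨i, hi1, hi2, hi3⟩ := hcc z hz hz'
      exact ⟨i, hi1, hi2, by rw [glue_le (by omega)]; exact hi3⟩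
    · by_cases hr1 : n1 + g ≤ r
      · rw [key _ (by omega), key _ (by omega)] at n1' n2' n3'
        obtain ⟨c, hc, hcc⟩ := h2.inf (r - (n1 + g)) (s - (n1+g)) (t - (n1+g)) (by omega)
          (by omega) (by omega) n1' n2' n3'
        refine ⟨c, hc, fun z hz hz' => ?_⟩
        obtain ⟨i, hi1, hi2, hi3⟩ := hcc z hz hz'
        exact ⟨n1 + g + i, by omega, by omega, by rw [ga]; exact hi3⟩
      · -- r ≤ n1 < t
        have hrn : r ≤ n1 := by rcases hg' with h | h <;> omega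
        have htn : n1 + g ≤ t := by rcases hg' with h | h <;> omega
        have A : ∀ m, r ≤ m → m ≤ n1 → ¬ Ce j (w1 n1) (w1 m) → 
            ∃ c ∈ K d N, ∀ z ∈ K d N, Ce j c z → ∃ i, r ≤ i ∧ i ≤ t ∧ glue w1 n1 g w2 i = z := by
          intro m hm1 hm2 hm3
          refine ⟨w1 n1, m1, fun z hz hz' => ?_⟩
          obtain ⟨i, hi1, hi2, hi3⟩ := h1.suf m hm2 hm3 z hz hz'
          exact ⟨i, by omega, by omega, by rw [glue_le (by omega)]; exact hi3⟩
        have B : ∀ m, n1 + g ≤ m → m ≤ t → ¬ Ce j (w2 0) (w2 (m - (n1 + g))) → 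
            ∃ c ∈ K d N, ∀ z ∈ K d N, Ce j c z → ∃ i, r ≤ i ∧ i ≤ t ∧ glue w1 n1 g w2 i = z := by
          intro m hm1 hm2 hm3
          refine ⟨w2 0, m2, fun z hz hz' => ?_⟩
          obtain ⟨i, hi1, hi3⟩ := h2.pre (m - (n1 + g)) (by omega) hm3 z hz hz'
          exact ⟨n1 + g + i, by omega, by omega, by rw [ga]; exact hi3⟩
        by_contra hcon
        have A' : ∀ m, r ≤ m → m ≤ n1 → Ce j (w1 n1) (w1 m) := by
          intro m h h'
          by_contra h''
          exact hcon (A m h h' h'')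
        have B' : ∀ m, n1 + g ≤ m → m ≤ t → Ce j (w2 0) (w2 (m - (n1 + g))) := by
          intro m h h'
          by_contra h''
          exact hcon (B m h h' h'')
        by_cases hs : s ≤ n1
        · rw [glue_le hrn, glue_le hs] at n1'
          exact n1' ((A' r le_rfl hrn).symm.trans (A' s hrs hs))
        · have hsn : n1 + g ≤ s := by rcases hg' with h | h <;> omega
          rw [key s hsn, key t htn] at n2'
          exact n2' ((B' s hsn hst).symm.trans (B' t htn le_rfl))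

theorem gd_rev {d N j n : ℕ} {w : ℕ → W} (h : Gd d N j w n) :
    Gd d N j (fun i => w (n - i)) n := by
  refine ⟨?_, ?_, ?_⟩
  · intro r hr hne z hz hcz
    simp only [Nat.sub_zero] at hne hcz
    obtain ⟨i, hi1, hi2, hi3⟩ := h.suf (n - r) (by omega) hne z hz hcz
    exact ⟨n - i, by omega, by rw [Nat.sub_sub_self hi2]; exact hi3⟩
  · intro r hr hne z hz hcz
    simp only [Nat.sub_self] at hne hcz
    obtain ⟨i, hi1, hi3⟩ := h.pre (n - r) (by omega) hne z hz hcz
    exact ⟨n - i, by omega, by omega, by rw [Nat.sub_sub_self (by omega)]; exact hi3⟩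
  · intro r s t hrs hst ht a b c
    obtain ⟨c', hc, hcc⟩ := h.inf (n - t) (n - s) (n - r) (by omega) (by omega) (by omega)
      (fun h => b h.symm) (fun h => a h.symm) (fun h => c h.symm)
    refine ⟨c', hc, fun z hz hz' => ?_⟩
    obtain ⟨i, hi1, hi2, hi3⟩ := hcc z hz hz'
    exact ⟨n - i, by omega, by omega, by rw [Nat.sub_sub_self (by omega)]; exact hi3⟩

theorem gd_one {d N j n : ℕ} {w : ℕ → W} {a : W} (h : ∀ i, i ≤ n → Ce j a (w i)) :
    Gd d N j w n := by
  refine ⟨?_, ?_, ?_⟩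
  · intro r hr hne
    exact absurd ((h 0 (by omega)).symm.trans (h r hr)) hne
  · intro r hr hne
    exact absurd ((h n (by omega)).symm.trans (h r hr)) hne
  · intro r s t hrs hst ht hne
    exact absurd ((h r (by omega)).symm.trans (h s (by omega))) hne

/-- A walk from `a` to `b`. -/
structure Wk (d N k : ℕ) (a b : W) (w : ℕ → W) (n : ℕ) : Prop where
  zero : w 0 = a
  last : w n = b
  step : ∀ i, i < n → Ad N (w i) (w (i + 1))
  mem : ∀ i, i ≤ n → w i ∈ K d N ∧ Ce k a (w i)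
  gd : ∀ j, k < j → j ≤ d → Gd d N j w n

def dg (α : W → W → ℤ) (w : ℕ → W) (n : ℕ) : ℤ := ∑ i ∈ Finset.range n, α (w i) (w (i + 1))

theorem dg_glue0 {α : W → W → ℤ} {w1 w2 : ℕ → W} {n1 n2 : ℕ} (h : w1 n1 = w2 0) :
    dg α (glue w1 n1 0 w2) (n1 + 0 + n2) = dg α w1 n1 + dg α w2 n2 := by
  unfold dg
  have ga := glue_add (g := 0) (Or.inl ⟨rfl, h⟩)
  rw [Finset.sum_range_add]
  congr 1
  · rw [Nat.add_zero]
    refine Finset.sum_congr rfl fun i hi => ?_
    rw [Finset.mem_range] at hi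
    rw [glue_le (by omega), glue_le (by omega)]
  · refine Finset.sum_congr rfl fun i hi => ?_
    rw [ga, add_assoc (n1 + 0) i 1, ga]

theorem dg_glue1 {α : W → W → ℤ} {w1 w2 : ℕ → W} {n1 n2 : ℕ} :
    dg α (glue w1 n1 1 w2) (n1 + 1 + n2) = dg α w1 n1 + α (w1 n1) (w2 0) + dg α w2 n2 := by
  unfold dg
  have ga := glue_add (w1 := w1) (n1 := n1) (w2 := w2) (g := 1) (Or.inr rfl)
  rw [Finset.sum_range_add]
  congr 1
  · rw [Finset.sum_range_succ]
    congr 1
    · refine Finset.sum_congr rfl fun i hi => ?_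
      rw [Finset.mem_range] at hi
      rw [glue_le (by omega), glue_le (by omega)]
    · have := ga 0
      rw [Nat.add_zero] at this
      rw [glue_le le_rfl, this]
  · refine Finset.sum_congr rfl fun i hi => ?_
    rw [ga, add_assoc (n1 + 1) i 1, ga]

theorem dg_rev {α : W → W → ℤ} (hα : Anti α) {w : ℕ → W} {n : ℕ} :
    dg α (fun i => w (n - i)) n = - dg α w n := by
  unfold dg
  rw [← Finset.sum_range_reflect, ← Finset.sum_neg_distrib]
  refine Finset.sum_congr rfl fun i hi => ?_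
  rw [Finset.mem_range] at hi
  rw [hα]
  have e1 : n - (n - 1 - i + 1) = i := by omega
  have e2 : n - (n - 1 - i) = i + 1 := by omega
  simp only [e1, e2]

/-- Reachability by a walk with covered set and degree. -/
def R (d N k : ℕ) (a b : W) (S : Set W) (δ : (W → W → ℤ) → ℤ) : Prop :=
  ∃ w n, Wk d N k a b w n ∧ (∀ z ∈ S, ∃ i, i ≤ n ∧ w i = z) ∧ ∀ α, Anti α → dg α w n = δ α

theorem R.cat {d N k : ℕ} {a b c : W} {S S' : Set W} {δ δ' : (W → W → ℤ) → ℤ}
    (h : R d N k a b S δ) (h' : R d N k b c S' δ') :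
    R d N k a c (S ∪ S') (fun α => δ α + δ' α) := by
  obtain ⟨w1, n1, h1, hS, hδ⟩ := h
  obtain ⟨w2, n2, h2, hS', hδ'⟩ := h'
  have he : w1 n1 = w2 0 := by rw [h1.last, h2.zero]
  have ga := glue_add (g := 0) (Or.inl ⟨rfl, he⟩)
  have hcab : Ce k a b := by have := (h1.mem n1 le_rfl).2; rwa [h1.last] at this
  refine ⟨glue w1 n1 0 w2, n1 + 0 + n2, ⟨?_, ?_, ?_, ?_, ?_⟩, ?_, ?_⟩
  · rw [glue_le (Nat.zero_le _), h1.zero]
  · rw [ga, h2.last]
  · intro i hi
    by_cases h : i < n1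
    · rw [glue_le (by omega), glue_le (by omega)]
      exact h1.step i h
    · obtain ⟨m, rfl⟩ : ∃ m, i = n1 + 0 + m := ⟨i - n1, by omega⟩
      rw [ga, add_assoc (n1 + 0) m 1, ga]
      exact h2.step m (by omega)
  · intro i hi
    by_cases h : i ≤ n1
    · rw [glue_le h]
      exact h1.mem i h
    · obtain ⟨m, rfl⟩ : ∃ m, i = n1 + 0 + m := ⟨i - n1, by omega⟩
      rw [ga]
      exact ⟨(h2.mem m (by omega)).1, hcab.trans (h2.mem m (by omega)).2⟩
  · intro j hj hjd
    exact gd_glue (Or.inl ⟨rfl, he⟩) (h1.mem n1 le_rfl).1 (h2.mem 0 (by omega)).1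
      (h1.gd j hj hjd) (h2.gd j hj hjd)
  · intro z hz
    rcases hz with hz | hz
    · obtain ⟨i, hi, hiz⟩ := hS z hz
      exact ⟨i, by omega, by rw [glue_le hi]; exact hiz⟩
    · obtain ⟨i, hi, hiz⟩ := hS' z hz
      exact ⟨n1 + 0 + i, by omega, by rw [ga]; exact hiz⟩
  · intro α hα
    rw [dg_glue0 he, hδ α hα, hδ' α hα]

theorem R.rev {d N k : ℕ} {a b : W} {S : Set W} {δ : (W → W → ℤ) → ℤ}
    (h : R d N k a b S δ) : R d N k b a S (fun α => - δ α) := by
  obtain ⟨w, n, h, hS, hδ⟩ := h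
  have hcab : Ce k a b := by have := (h.mem n le_rfl).2; rwa [h.last] at this
  refine ⟨fun i => w (n - i), n, ⟨?_, ?_, ?_, ?_, ?_⟩, ?_, ?_⟩
  · simp only [Nat.sub_zero]; exact h.last
  · simp only [Nat.sub_self]; exact h.zero
  · intro i hi
    have := h.step (n - (i + 1)) (by omega)
    rw [show n - (i + 1) + 1 = n - i by omega] at this
    exact this.symm
  · intro i hi
    exact ⟨(h.mem (n - i) (by omega)).1, hcab.symm.trans (h.mem (n - i) (by omega)).2⟩
  · intro j hj hjd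
    exact gd_rev (h.gd j hj hjd)
  · intro z hz
    obtain ⟨i, hi, hiz⟩ := hS z hz
    exact ⟨n - i, by omega, by show w (n - (n - i)) = z; rw [Nat.sub_sub_self hi]; exact hiz⟩
  · intro α hα
    rw [dg_rev hα, hδ α hα]

theorem R.down {d N k : ℕ} {a b : W} {S : Set W} {δ : (W → W → ℤ) → ℤ}
    (h : R d N (k + 1) a b S δ) : R d N k a b S δ := by
  obtain ⟨w, n, h, hS, hδ⟩ := h
  refine ⟨w, n, ⟨h.zero, h.last, h.step, fun i hi => ⟨(h.mem i hi).1, (h.mem i hi).2.mono (by omega)⟩, ?_⟩, hS, hδ⟩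
  intro j hj hjd
  by_cases h1 : j = k + 1
  · subst h1
    exact gd_one (fun i hi => (h.mem i hi).2)
  · exact h.gd j (by omega) hjd

theorem vt_mem {d N k y : ℕ} {u : W} (hu : u ∈ K d N) (hk : k < d) (hy : y < N) :
    vt u k y ∈ K d N := by
  refine ⟨fun j => ?_, fun j hj => ?_⟩
  · unfold vt
    split_ifs
    · exact hu.1 j
    · exact hy
    · omega
  · unfold vt
    rw [if_neg (by omega), if_neg (by omega)]

theorem vt_ce {k y : ℕ} {u : W} : Ce k u (vt u k y) := by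
  intro j hj
  simp [vt, hj]

theorem vt_ad {N k y y' : ℕ} {u : W} (h : Cy N y y') : Ad N (vt u k y) (vt u k y') := by
  refine Or.inr ⟨k, ?_, ?_, ?_⟩
  · intro j hj; simp [vt, hj]
  · simpa [vt] using h
  · intro j hj
    have h1 : ¬ j < k := by omega
    have h2 : ¬ j = k := by omega
    simp [vt, h1, h2]

theorem vt_succ {k : ℕ} {u : W} : vt u (k + 1) 0 = vt u k (u k) := by
  funext j
  unfold vt
  by_cases h : j < k
  · rw [if_pos (by omega), if_pos h]
  · by_cases h' : j = k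
    · subst h'
      simp
    · rw [if_neg (by omega), if_neg h, if_neg h']
      simp

/-- cell of depth `k` -/
def cell (d N k : ℕ) (u : W) : Set W := {z | z ∈ K d N ∧ Ce k u z}

theorem stepwalk {d N k : ℕ} {u : W} (hu : u ∈ K d N) (hk : k < d)
    (hE : ∀ u ∈ K d N, ∃ w n, CW d N (k + 1) u w n) {y y' : ℕ} (hy : y < N) (hy' : y' < N)
    (hc : Cy N y y') :
    ∃ δ : (W → W → ℤ) → ℤ, R d N k (vt u k y) (vt u k y') (cell d N (k + 1) (vt u k y)) δ ∧
      ∀ α, Anti α → NN α d N → α (vt u k y) (vt u k y') ≤ δ α := by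
  obtain ⟨w1, n1, h1⟩ := hE (vt u k y) (vt_mem hu hk hy)
  obtain ⟨w2, n2, h2⟩ := hE (vt u k y') (vt_mem hu hk hy')
  have ga := glue_add (w1 := w1) (n1 := n1) (w2 := w2) (g := 1) (Or.inr rfl)
  refine ⟨fun α => dg α w1 n1 + α (w1 n1) (w2 0) + dg α w2 n2,
    ⟨glue w1 n1 1 w2, n1 + 1 + n2, ⟨?_, ?_, ?_, ?_, ?_⟩, ?_, ?_⟩, ?_⟩
  · rw [glue_le (Nat.zero_le _), h1.zero]
  · rw [ga, h2.last]
  · intro i hi
    by_cases h : i < n1
    · rw [glue_le (by omega), glue_le (by omega)]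
      exact h1.step i h
    · by_cases h' : i = n1
      · subst h'
        have := ga 0
        rw [Nat.add_zero] at this
        rw [glue_le le_rfl, this, h1.last, h2.zero]
        exact vt_ad hc
      · obtain ⟨m, rfl⟩ : ∃ m, i = n1 + 1 + m := ⟨i - n1 - 1, by omega⟩
        rw [ga, add_assoc (n1 + 1) m 1, ga]
        exact h2.step m (by omega)
  · intro i hi
    by_cases h : i ≤ n1
    · rw [glue_le h]
      exact ⟨(h1.mem i h).1, (h1.mem i h).2.mono (by omega)⟩
    · obtain ⟨m, rfl⟩ : ∃ m, i = n1 + 1 + m := ⟨i - n1 - 1, by omega⟩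
      rw [ga]
      exact ⟨(h2.mem m (by omega)).1,
        (vt_ce.symm.trans vt_ce).trans ((h2.mem m (by omega)).2.mono (by omega))⟩
  · intro j hj hjd
    have g1 : Gd d N j w1 n1 := by
      by_cases h : j = k + 1
      · subst h; exact gd_one (fun i hi => (h1.mem i hi).2)
      · exact h1.gd j (by omega) hjd
    have g2 : Gd d N j w2 n2 := by
      by_cases h : j = k + 1
      · subst h; exact gd_one (fun i hi => (h2.mem i hi).2)
      · exact h2.gd j (by omega) hjd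
    refine gd_glue (Or.inr ⟨rfl, ?_, ?_⟩) (h1.mem n1 le_rfl).1 (h2.mem 0 (by omega)).1 g1 g2
    · intro z hz hcz
      rw [h1.last] at hcz
      exact h1.cov z hz (hcz.mono (by omega))
    · intro z hz hcz
      rw [h2.zero] at hcz
      exact h2.cov z hz (hcz.mono (by omega))
  · intro z hz
    obtain ⟨i, hi, hiz⟩ := h1.cov z hz.1 hz.2
    exact ⟨i, by omega, by rw [glue_le hi]; exact hiz⟩
  · intro α hα
    rw [dg_glue1]
  · intro α hα hN
    have a1 := (h1.deg α hα hN).1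
    have a2 := (h2.deg α hα hN).1
    simp only [h1.last, h2.zero]
    unfold dg
    linarith

theorem downwalk {d N k : ℕ} {u : W} (hu : u ∈ K d N) (hk : k < d)
    (hE : ∀ u ∈ K d N, ∃ w n, CW d N (k + 1) u w n) : ∀ y, y < N →
    ∃ δ : (W → W → ℤ) → ℤ, R d N k (vt u k y) (vt u k 0) ∅ δ := by
  intro y
  induction y with
  | zero =>
    intro hy
    refine ⟨fun _ => 0, fun _ => vt u k 0, 0, ⟨rfl, rfl, ?_, ?_, ?_⟩, ?_, ?_⟩
    · intro i hi; omega
    · intro i hi; exact ⟨vt_mem hu hk hy, Ce.rfl'⟩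
    · intro j hj hjd; exact gd_one (a := vt u k 0) (fun _ _ => Ce.rfl')
    · intro z hz; exact absurd hz (Set.notMem_empty z)
    · intro α hα; simp [dg]
  | succ y ih =>
    intro hy
    obtain ⟨δ, hδ⟩ := ih (by omega)
    obtain ⟨δ', hδ', -⟩ := stepwalk hu hk hE hy (show y < N by omega) (show Cy N (y + 1) y by unfold Cy; omega)
    obtain ⟨w, n, h1, h2, h3⟩ := hδ'.cat hδ
    exact ⟨_, w, n, h1, fun z hz => absurd hz (Set.notMem_empty z), h3⟩

theorem loopwalk {d N k : ℕ} {u : W} (hu : u ∈ K d N) (hk : k < d)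
    (hE : ∀ u ∈ K d N, ∃ w n, CW d N (k + 1) u w n) (hN : 3 ≤ N) : ∀ m, m ≤ N →
    ∃ (S : Set W) (δ : (W → W → ℤ) → ℤ), R d N k (vt u k 0) (vt u k (m % N)) S δ ∧
      (∀ y, y < m → cell d N (k + 1) (vt u k y) ⊆ S) ∧
      ∀ α, Anti α → NN α d N →
        ∑ y ∈ Finset.range m, α (vt u k y) (vt u k ((y + 1) % N)) ≤ δ α := by
  intro m
  induction m with
  | zero =>
    intro _
    rw [Nat.zero_mod]
    refine ⟨∅, fun _ => 0, ⟨fun _ => vt u k 0, 0, ⟨rfl, rfl, ?_, ?_, ?_⟩, ?_, ?_⟩, ?_, ?_⟩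
    · intro i hi; omega
    · intro i hi; exact ⟨vt_mem hu hk (by omega), Ce.rfl'⟩
    · intro j hj hjd; exact gd_one (a := vt u k 0) (fun _ _ => Ce.rfl')
    · intro z hz; exact absurd hz (Set.notMem_empty z)
    · intro α hα; simp [dg]
    · intro y hy; omega
    · intro α hα _; simp
  | succ m ih =>
    intro hm
    obtain ⟨S, δ, hR, hS, hδ⟩ := ih (by omega)
    rw [Nat.mod_eq_of_lt (show m < N by omega)] at hR
    have hc : Cy N m ((m + 1) % N) := by
      by_cases h : m + 1 = N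
      · rw [h, Nat.mod_self]
        unfold Cy; omega
      · rw [Nat.mod_eq_of_lt (by omega)]
        unfold Cy; omega
    obtain ⟨δ', hR', hδ'⟩ := stepwalk hu hk hE (show m < N by omega)
      (Nat.mod_lt (m + 1) (by omega)) hc
    refine ⟨_, _, hR.cat hR', ?_, ?_⟩
    · intro y hy
      rcases Nat.lt_succ_iff_lt_or_eq.mp hy with h | h
      · exact (hS y h).trans Set.subset_union_left
      · subst h
        exact Set.subset_union_right
    · intro α hα hNN
      rw [Finset.sum_range_succ]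
      have := hδ α hα hNN
      have := hδ' α hα hNN
      linarith

theorem main (d N : ℕ) (hN : 3 ≤ N) : ∀ m k, k + m = d →
    (∀ u ∈ K d N, ∃ w n, CW d N k u w n) ∧
    (∀ u ∈ K d N, ∃ δ : (W → W → ℤ) → ℤ, R d N k u (vt u k 0) ∅ δ) := by
  intro m
  induction m with
  | zero =>
    intro k hk
    have hk' : k = d := by omega
    subst hk'
    constructor
    · intro u hu
      refine ⟨fun _ => u, 0, rfl, rfl, ?_, ?_, ?_, ?_, ?_⟩
      · intro i hi; omega
      · intro i hi; exact ⟨hu, Ce.rfl'⟩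
      · intro z hz hcz
        refine ⟨0, le_rfl, ?_⟩
        funext j
        by_cases h : j < k
        · exact hcz j h
        · rw [hu.2 j (by omega), hz.2 j (by omega)]
      · intro j hj hjd; omega
      · intro α hα hNN
        simp
    · intro u hu
      have hv : vt u k 0 = u := by
        funext j
        unfold vt
        by_cases h : j < k
        · rw [if_pos h]
        · rw [if_neg h, hu.2 j (by omega)]; simp
      rw [hv]
      refine ⟨fun _ => 0, fun _ => u, 0, ⟨rfl, rfl, ?_, ?_, ?_⟩, ?_, ?_⟩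
      · intro i hi; omega
      · intro i hi; exact ⟨hu, Ce.rfl'⟩
      · intro j hj hjd; omega
      · intro z hz; exact absurd hz (Set.notMem_empty z)
      · intro α hα; simp [dg]
  | succ m ih =>
    intro k hk
    have hkd : k < d := by omega
    obtain ⟨hE, hF⟩ := ih (k + 1) (by omega)
    have hF' : ∀ u ∈ K d N, ∃ δ : (W → W → ℤ) → ℤ, R d N k u (vt u k 0) ∅ δ := by
      intro u hu
      obtain ⟨δ, hδ⟩ := hF u hu
      rw [vt_succ] at hδ
      obtain ⟨δ', hδ'⟩ := downwalk hu hkd hE (u k) (hu.1 k)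
      obtain ⟨w, n, h1, h2, h3⟩ := hδ.down.cat hδ'
      exact ⟨_, w, n, h1, fun z hz => absurd hz (Set.notMem_empty z), h3⟩
    refine ⟨?_, hF'⟩
    intro u hu
    obtain ⟨δ, hD⟩ := hF' u hu
    obtain ⟨S, δ', hR, hS, hδ'⟩ := loopwalk hu hkd hE hN N le_rfl
    rw [Nat.mod_self] at hR
    obtain ⟨w, n, h1, h2, h3⟩ := (hD.cat hR).cat hD.rev
    refine ⟨w, n, h1.zero, h1.last, h1.step, h1.mem, ?_, h1.gd, ?_⟩
    · intro z hz hcz
      apply h2
      left; right
      apply hS (z k) (hz.1 k)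
      refine ⟨hz, ?_⟩
      intro j hj
      unfold vt
      by_cases h : j < k
      · rw [if_pos h]; exact hcz j h
      · have : j = k := by omega
        subst this
        simp
    · intro α hα hNN
      have e1 := h3 α hα
      unfold dg at e1
      have e2 := hδ' α hα hNN
      have e3 := hNN k hkd u hu
      have e4 : td α N k u ≤ ∑ i ∈ Finset.range n, α (w i) (w (i + 1)) := by
        rw [e1]
        unfold td
        linarith
      exact ⟨le_trans e3 e4, fun _ => e4⟩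

theorem exists_cw (d N : ℕ) (hN : 3 ≤ N) : ∀ k, k ≤ d → ∀ u ∈ K d N, ∃ w n, CW d N k u w n := by
  intro k hk u hu
  exact (main d N hN (d - k) k (by omega)).1 u hu

end Pool.Agent.Helper464.WalkHA
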