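import Pool.Agent.Helper464.QuotTA
import Pool.Agent.Helper464.GlueTB
import Pool.Agent.Helper464.WalkHA
import Pool.Agent.Helper464.MapHB
import Pool.Agent.Helper464.StageSM
import Pool.Agent.Helper464.TowerTW
import Pool.Agent.Helper464.Gmap

set_option autoImplicit false

namespace Pool.Agent.Helper464.FinalMono

theorem exists_hmap (d N : ℕ) (hN : 3 ≤ N) : ∃ N₁, 9 ≤ N₁ ∧ ∃ h, StageSM.HMap d N N₁ h := by
  obtain ⟨N₁, h9, h, H⟩ := MapHB.hmap_of_cw d N hN (fun k hk u hu => by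
    obtain ⟨w, n, C⟩ := WalkHA.exists_cw d N hN k hk u hu
    refine ⟨w, n, ⟨C.zero, C.last, C.step, C.mem, C.cov, ?_, C.deg⟩⟩
    intro j h1 h2
    have G := C.gd j h1 h2
    exact ⟨G.pre, G.suf, G.inf⟩)
  exact ⟨N₁, h9, h, ⟨H.maps, H.surj, H.slow, H.good, H.cell, H.deg⟩⟩

theorem exists_stage (d N : ℕ) (hd : 1 ≤ d) (hN : 9 ≤ N) :
    ∃ d' N', 1 ≤ d' ∧ 9 ≤ N' ∧ ∃ f, TowerTW.StageMap d N d' N' f := by
  obtain ⟨N₁, h9, h, H⟩ := exists_hmap d N (by omega)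
  obtain ⟨d', N', hd', hN', g, G⟩ := Gmap.exists_gmap d N₁ hd h9
  have G' : StageSM.GMap d N₁ d' N' g :=
    ⟨G.maps, G.surj, G.hom, G.fine4, G.fine3, G.nn, G.pos⟩
  have S := StageSM.stage_of_maps hN h g H G'
  exact ⟨d', N', hd', hN', h ∘ g,
    ⟨S.maps, S.surj, S.slow, S.good, S.fine4, S.fine3, S.nn, S.pers⟩⟩

/-- the sizes of the levels -/
abbrev Lev := {p : ℕ × ℕ // 1 ≤ p.1 ∧ 9 ≤ p.2}

theorem exists_next (p : Lev) : ∃ (q : Lev) (f : TowerTW.W → TowerTW.W),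
    TowerTW.StageMap p.1.1 p.1.2 q.1.1 q.1.2 f := by
  obtain ⟨d', N', h1, h2, f, hf⟩ := exists_stage p.1.1 p.1.2 p.2.1 p.2.2
  exact ⟨⟨(d', N'), h1, h2⟩, f, hf⟩

noncomputable def nxt (p : Lev) : Lev := (exists_next p).choose

noncomputable def lev : ℕ → Lev
  | 0 => ⟨(1, 9), le_rfl, le_rfl⟩
  | n + 1 => nxt (lev n)

theorem exists_map (n : ℕ) : ∃ f : TowerTW.W → TowerTW.W,
    TowerTW.StageMap (lev n).1.1 (lev n).1.2 (lev (n + 1)).1.1 (lev (n + 1)).1.2 f :=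
  (exists_next (lev n)).choose_spec

theorem proj_eq {V : ℕ → Type} (f : ∀ n, V (n + 1) → V n) (m : ℕ) :
    ∀ (k : ℕ) (x : V (m + k)), GlueTB.proj f m k x = TowerTW.proj f m k x := by
  intro k
  induction k with
  | zero => intro x; rfl
  | succ k ih => intro x; exact ih (f (m + k) x)

theorem main :
    ∃ (M : Type) (_ : MetricSpace M), CompactSpace M ∧ ConnectedSpace M ∧ Nontrivial M ∧
      ∀ (Y : Type) (_ : MetricSpace Y) (f : M → Y),
        Continuous f → Function.Surjective f → (∀ y : Y, IsConnected (f ⁻¹' {y})) →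
        ¬ ∃ K : Set Y, IsCompact K ∧ IsConnected K ∧ K.Nontrivial ∧
          ∀ ε : ℝ, 0 < ε → ∃ (n : ℕ) (U : Fin n → Set Y),
            (∀ i, IsOpen (U i)) ∧
            (∀ i, Metric.diam (U i ∩ K) < ε) ∧
            K ⊆ ⋃ i, U i ∧
            (∀ i j, (U i ∩ U j ∩ K).Nonempty ↔ (i.val ≤ j.val + 1 ∧ j.val ≤ i.val + 1)) := by
  classical
  choose F hF using exists_map
  set d : ℕ → ℕ := fun n => (lev n).1.1 with hd
  set N : ℕ → ℕ := fun n => (lev n).1.2 with hN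
  obtain ⟨h1, h2, h3, h4, h5, h6, h7⟩ := TowerTW.tower (d := d) (N := N) (F := F)
    (fun n => (lev n).2.1) (fun n => (lev n).2.2) hF
  let V : ℕ → Type := fun n => TowerTW.K (d n) (N n)
  let adj : ∀ n, V n → V n → Prop := fun n x y => TowerTW.Ad (N n) x.1 y.1
  let bd : ∀ n, V (n + 1) → V n := TowerTW.bond hF
  let top : ∀ n, TopologicalSpace (V n) := fun n => ⊥
  have : ∀ n, DiscreteTopology (V n) := fun n => ⟨rfl⟩
  have : ∀ n, Finite (V n) := h1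
  obtain ⟨M, inst, q, hM1, hM2, hM3, hq, hqs, hqR⟩ := QuotTA.exists_quotient V adj bd
    (fun n x => Or.inl rfl) h4 h2 h3 h5 ⟨0, h6⟩
  refine ⟨M, inst, hM1, hM2, hM3, ?_⟩
  intro Y instY f hf hfs hmono
  refine GlueTB.no_chainable V adj bd (fun n x => Or.inl rfl) h4 h3 M q hq hqs hqR ?_ Y f hf hfs
    hmono
  intro H hH1 hH2 n hn
  obtain ⟨α, hα1, hα2⟩ := h7 H hH1 hH2 n hn
  refine ⟨α, fun k => ?_, hα2⟩
  rintro ⟨s, hs⟩
  refine hα1 k ⟨s, fun u hu v hv huv => ?_⟩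
  have := hs u hu v hv huv
  rw [proj_eq, proj_eq] at this
  exact this

end Pool.Agent.Helper464.FinalMono
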