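import Pool.Agent.Helper464.Cact

set_option autoImplicit false

namespace Pool.Agent.Helper464.Omega

open Pool.Agent.Helper464.Cact

/-- The base of the number system used for the time. -/
def Bs (N : ℕ) : ℕ := 2 * (N + 1)

theorem Bs_pos (N : ℕ) : 0 < Bs N := by unfold Bs; omega

/-- The standard walk through the cactus. -/
def Om (d N t : ℕ) : W := fun k =>
  if k < d then ((t / (2 * Bs N ^ (d - 1 - k))) % (N + 1)) % N else 0

theorem Om_mem {d N : ℕ} (hN : 0 < N) (t : ℕ) : Om d N t ∈ K d N := by
  refine ⟨fun k => ?_, fun k hk => ?_⟩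
  · unfold Om
    split_ifs
    · exact Nat.mod_lt _ hN
    · exact hN
  · unfold Om
    rw [if_neg (by omega)]

theorem K_ext {d N : ℕ} {x y : W} (hx : x ∈ K d N) (hy : y ∈ K d N) (h : Ce d x y) : x = y := by
  funext k
  by_cases hk : k < d
  · exact h k hk
  · rw [hx.2 k (by omega), hy.2 k (by omega)]

/-- times in the same double block of depth `i` give the same cell of depth `i` -/
theorem Om_Ce {d N i t t' : ℕ} (h : t / (2 * Bs N ^ (d - i)) = t' / (2 * Bs N ^ (d - i))) :
    Ce i (Om d N t) (Om d N t') := by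
  intro k hk
  unfold Om
  by_cases hkd : k < d
  · rw [if_pos hkd, if_pos hkd]
    have e : 2 * Bs N ^ (d - 1 - k) = (2 * Bs N ^ (d - i)) * Bs N ^ (d - 1 - k - (d - i)) := by
      rw [mul_assoc, ← pow_add]
      congr 2
      omega
    have h2 : ∀ m : ℕ, m / ((2 * Bs N ^ (d - i)) * Bs N ^ (d - 1 - k - (d - i)))
        = m / (2 * Bs N ^ (d - i)) / Bs N ^ (d - 1 - k - (d - i)) :=
      fun m => (Nat.div_div_eq_div_mul _ _ _).symm
    rw [e, h2, h2, h]
  · rw [if_neg hkd, if_neg hkd]

/-- zero lower digits -/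
theorem Om_zero {d N i a k : ℕ} (ha : Bs N ^ (d - i) ∣ a) (hk : i ≤ k) : Om d N a k = 0 := by
  unfold Om
  split_ifs with hkd
  · obtain ⟨c, hc⟩ : Bs N ^ (d - 1 - k + 1) ∣ a :=
      dvd_trans (pow_dvd_pow _ (by omega)) ha
    have e : a = (2 * Bs N ^ (d - 1 - k)) * ((N + 1) * c) := by
      rw [hc, pow_succ]
      unfold Bs
      ring
    rw [e, Nat.mul_div_cancel_left _ (by have := Bs_pos N; positivity), Nat.mul_mod_right,
      Nat.zero_mod]
  · rfl

/-- maximal lower digits -/
theorem Om_max {d N i a k : ℕ} (ha : Bs N ^ (d - i) ∣ a) (hk : i ≤ k) (ha0 : 0 < a) :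
    Om d N (a - 1) k = 0 := by
  unfold Om
  split_ifs with hkd
  · obtain ⟨c, hc⟩ : Bs N ^ (d - 1 - k + 1) ∣ a :=
      dvd_trans (pow_dvd_pow _ (by omega)) ha
    have e : a = (2 * Bs N ^ (d - 1 - k)) * ((N + 1) * c) := by
      rw [hc, pow_succ]
      unfold Bs
      ring
    have hc0 : 0 < c := by
      rcases Nat.eq_zero_or_pos c with h | h
      · subst h; simp at e; omega
      · exact h
    set L := 2 * Bs N ^ (d - 1 - k) with hL
    have hLpos : 0 < L := by have := Bs_pos N; positivity
    have h1 : (a - 1) / L = (N + 1) * c - 1 := by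
      rw [Nat.div_eq_iff hLpos]
      have h2 : 0 < (N + 1) * c := by positivity
      obtain ⟨m, hm⟩ : ∃ m, (N + 1) * c = m + 1 := ⟨(N + 1) * c - 1, by omega⟩
      rw [e, hm]
      have : L * (m + 1) = L * m + L := by ring
      have h3 : (m + 1 - 1) * L = L * m := by rw [Nat.add_sub_cancel]; ring
      rw [h3, this]
      omega
    rw [h1]
    obtain ⟨c', hc'⟩ : ∃ c', c = c' + 1 := ⟨c - 1, by omega⟩
    have h4 : (N + 1) * c - 1 = N + (N + 1) * c' := by
      rw [hc']
      have : (N + 1) * (c' + 1) = (N + 1) * c' + (N + 1) := by ring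
      omega
    rw [h4, Nat.add_mul_mod_self_left, Nat.mod_eq_of_lt (by omega : N < N + 1), Nat.mod_self]
  · rfl

/-- the digit number `i` -/
theorem Om_digit {d N i c s r : ℕ} (hi : i < d) (hs : s < Bs N) (hr : r < Bs N ^ (d - 1 - i)) :
    Om d N (Bs N ^ (d - i) * c + s * Bs N ^ (d - 1 - i) + r) i = (s / 2) % N := by
  unfold Om
  rw [if_pos hi]
  have hL : 0 < Bs N ^ (d - 1 - i) := by have := Bs_pos N; positivity
  have e : Bs N ^ (d - i) = Bs N ^ (d - 1 - i) * Bs N := by
    rw [← pow_succ]; congr 1; omega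
  have h1 : (Bs N ^ (d - i) * c + s * Bs N ^ (d - 1 - i) + r) / (Bs N ^ (d - 1 - i))
      = Bs N * c + s := by
    have : Bs N ^ (d - i) * c + s * Bs N ^ (d - 1 - i) + r
        = r + Bs N ^ (d - 1 - i) * (Bs N * c + s) := by rw [e]; ring
    rw [this, Nat.add_mul_div_left _ _ hL, Nat.div_eq_of_lt hr, zero_add]
  rw [mul_comm 2, ← Nat.div_div_eq_div_mul, h1]
  have h2 : (Bs N * c + s) / 2 = (N + 1) * c + s / 2 := by
    unfold Bs
    have : 2 * (N + 1) * c + s = s + 2 * ((N + 1) * c) := by ring
    rw [this, Nat.add_mul_div_left _ _ (by norm_num)]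
    omega
  rw [h2, Nat.mul_add_mod, Nat.mod_eq_of_lt (a := s / 2) (b := N + 1)]
  unfold Bs at hs
  omega

/-- Two consecutive times give adjacent vertices. -/
theorem Om_step {d N t : ℕ} (hN : 0 < N) (ht : t + 1 < Bs N ^ d) :
    Ad N (Om d N t) (Om d N (t + 1)) := by
  classical
  -- the number of trailing zeros of t + 1
  have hex : ∃ r, ¬ Bs N ^ r ∣ t + 1 := ⟨d, fun h => by
    have := Nat.le_of_dvd (by omega) h; omega⟩
  have hr0 : 0 < Nat.find hex := by
    rcases Nat.eq_zero_or_pos (Nat.find hex) with h | h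
    · exfalso
      have := Nat.find_spec hex
      rw [h] at this
      simp at this
    · exact h
  obtain ⟨r, hr⟩ : ∃ r, Nat.find hex = r + 1 := ⟨Nat.find hex - 1, by omega⟩
  have hnd : ¬ Bs N ^ (r + 1) ∣ t + 1 := hr ▸ Nat.find_spec hex
  have hd1 : Bs N ^ r ∣ t + 1 := by
    by_contra hc
    have := Nat.find_min' hex hc
    omega
  have hrd : r < d := by
    by_contra hc
    apply hnd
    exfalso
    have h1 : Bs N ^ d ∣ t + 1 := dvd_trans (pow_dvd_pow _ (by omega)) hd1
    have := Nat.le_of_dvd (by omega) h1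
    omega
  right
  refine ⟨d - 1 - r, fun j hj => ?_, ?_, fun j hj => ?_⟩
  · unfold Om
    rw [if_pos (by omega), if_pos (by omega)]
    have hm : ¬ (2 * Bs N ^ (d - 1 - j)) ∣ t + 1 := by
      intro hc
      apply hnd
      exact dvd_trans (dvd_trans (pow_dvd_pow _ (by omega)) (Dvd.intro_left _ rfl)) hc
    rw [Nat.succ_div_of_not_dvd hm]
  · unfold Om
    rw [if_pos (by omega), if_pos (by omega)]
    set L := 2 * Bs N ^ (d - 1 - (d - 1 - r)) with hL
    by_cases hm : L ∣ t + 1
    · rw [Nat.succ_div_of_dvd hm]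
      set q := t / L
      have h1 : q % (N + 1) < N + 1 := Nat.mod_lt _ (by omega)
      unfold Cy
      rcases Nat.lt_or_ge (q % (N + 1)) N with h2 | h2
      · have h3 : (q + 1) % (N + 1) = q % (N + 1) + 1 := by
          rw [Nat.add_mod, Nat.mod_eq_of_lt (a := 1) (by omega), Nat.mod_eq_of_lt]
          omega
        rw [h3, Nat.mod_eq_of_lt h2]
        rcases Nat.lt_or_ge (q % (N + 1) + 1) N with h4 | h4
        · rw [Nat.mod_eq_of_lt h4]
          right; left; rfl
        · have h5 : q % (N + 1) + 1 = N := by omega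
          rw [h5, Nat.mod_self]
          right; right; right; right
          exact ⟨rfl, rfl⟩
      · have h3 : q % (N + 1) = N := by omega
        have h4 : (q + 1) % (N + 1) = 0 := by
          rw [← Nat.mod_add_mod, h3, Nat.mod_self]
        rw [h3, h4, Nat.mod_self, Nat.zero_mod]
        left; rfl
    · rw [Nat.succ_div_of_not_dvd hm]
      left; rfl
  · have hd2 : Bs N ^ (d - (d - r)) ∣ t + 1 := by
      have : d - (d - r) = r := by omega
      rw [this]; exact hd1
    constructor
    · have := Om_max (d := d) (N := N) (i := d - r) (a := t + 1) (k := j) hd2 (by omega)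
        (by omega)
      rwa [Nat.add_sub_cancel] at this
    · exact Om_zero (d := d) (N := N) (i := d - r) (a := t + 1) (k := j) hd2 (by omega)

/-- A block of depth `i` covers the cell. -/
theorem Om_cover {d N : ℕ} (hN : 0 < N) : ∀ n i, d - i = n → i ≤ d → ∀ a, Bs N ^ (d - i) ∣ a →
    ∀ z ∈ K d N, Ce i (Om d N a) z → ∃ r, r < Bs N ^ (d - i) ∧ Om d N (a + r) = z := by
  intro n
  induction n with
  | zero =>
    intro i hi hid a _ z hz hc
    have : i = d := by omega
    subst this
    refine ⟨0, ?_, ?_⟩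
    · have := Bs_pos N; positivity
    · rw [add_zero]
      exact K_ext (Om_mem hN a) hz hc
  | succ n ih =>
    intro i hi hid a ha z hz hc
    have hid' : i < d := by omega
    obtain ⟨c, hac⟩ := ha
    have e : Bs N ^ (d - i) = Bs N ^ (d - 1 - i) * Bs N := by
      rw [← pow_succ]; congr 1; omega
    have e1 : d - (i + 1) = d - 1 - i := by omega
    have hL : 0 < Bs N ^ (d - 1 - i) := by have := Bs_pos N; positivity
    have hzi : z i < N := hz.1 i
    have hs : 2 * z i + 1 < Bs N := by unfold Bs; omega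
    have ha' : Bs N ^ (d - (i + 1)) ∣ a + (2 * z i) * Bs N ^ (d - 1 - i) := by
      rw [e1, hac, e]
      exact Dvd.intro (Bs N * c + 2 * z i) (by ring)
    have hce : Ce (i + 1) (Om d N (a + (2 * z i) * Bs N ^ (d - 1 - i))) z := by
      intro j hj
      rcases Nat.lt_or_ge j i with h | h
      · rw [← hc j h]
        refine (Om_Ce (d := d) (N := N) (i := i) ?_ j h)
        have h2 : a + (2 * z i) * Bs N ^ (d - 1 - i) < a + Bs N ^ (d - i) := by
          rw [e]
          have : (2 * z i) * Bs N ^ (d - 1 - i) < Bs N ^ (d - 1 - i) * Bs N := by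
            rw [mul_comm]
            exact Nat.mul_lt_mul_of_pos_left (by omega) hL
          omega
        have hM : 0 < Bs N ^ (d - i) := by have := Bs_pos N; positivity
        have h3 : ∀ m : ℕ, m / (2 * Bs N ^ (d - i)) = m / Bs N ^ (d - i) / 2 := by
          intro m; rw [Nat.div_div_eq_div_mul, mul_comm]
        rw [h3, h3]
        congr 1
        rw [hac] at h2 ⊢
        rw [Nat.mul_div_cancel_left _ hM, Nat.mul_add_div hM]
        rw [Nat.div_eq_of_lt (by omega : 2 * z i * Bs N ^ (d - 1 - i) < Bs N ^ (d - i))]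
        rfl
      · have : j = i := by omega
        subst this
        have h4 := Om_digit (d := d) (N := N) (i := j) (c := c) (s := 2 * z j) (r := 0) hid'
          (by omega) hL
        rw [add_zero, ← hac] at h4
        rw [h4, Nat.mul_div_cancel_left _ (by norm_num), Nat.mod_eq_of_lt hzi]
    obtain ⟨r, hr, hrz⟩ := ih (i + 1) (by omega) (by omega) _ ha' z hz hce
    refine ⟨2 * z i * Bs N ^ (d - 1 - i) + r, ?_, ?_⟩
    · rw [e]
      rw [e1] at hr
      have h5 : 2 * z i * Bs N ^ (d - 1 - i) + r < (2 * z i + 1) * Bs N ^ (d - 1 - i) := by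
        rw [add_mul, one_mul]; omega
      have h6 : (2 * z i + 1) * Bs N ^ (d - 1 - i) ≤ Bs N ^ (d - 1 - i) * Bs N := by
        rw [mul_comm]
        exact Nat.mul_le_mul_left _ (by omega)
      omega
    · rw [← add_assoc]; exact hrz

theorem Om_surj {d N : ℕ} (hN : 0 < N) {z : W} (hz : z ∈ K d N) :
    ∃ t, t < Bs N ^ d ∧ Om d N t = z := by
  obtain ⟨r, hr, h⟩ := Om_cover hN d 0 (by omega) (by omega) 0 (dvd_zero _) z hz
    (fun j hj => absurd hj (by omega))
  exact ⟨r, by simpa using hr, by simpa using h⟩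

/-- periodicity in a double block -/
theorem Om_period {d N i a r : ℕ} (ha : 2 * Bs N ^ (d - i) ∣ a)
    (hr : r < Bs N ^ (d - i)) : Om d N (a + Bs N ^ (d - i) + r) = Om d N (a + r) := by
  funext k
  by_cases hk : k < i
  · refine Om_Ce (d := d) (N := N) (i := i) ?_ k hk
    obtain ⟨c, hc⟩ := ha
    have hM : 0 < Bs N ^ (d - i) := by have := Bs_pos N; positivity
    rw [hc, add_assoc, Nat.mul_add_div (by positivity), Nat.mul_add_div (by positivity)]
    rw [Nat.div_eq_of_lt (by omega), Nat.div_eq_of_lt (by omega)]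
  · unfold Om
    by_cases hkd : k < d
    · rw [if_pos hkd, if_pos hkd]
      obtain ⟨c, hc⟩ : 2 * Bs N ^ (d - 1 - k) * (N + 1) ∣ Bs N ^ (d - i) := by
        have : 2 * Bs N ^ (d - 1 - k) * (N + 1) = Bs N ^ (d - k) := by
          have h2 : d - k = (d - 1 - k) + 1 := by omega
          rw [h2, pow_succ]; unfold Bs; ring
        rw [this]
        exact pow_dvd_pow _ (by omega)
      have e : a + Bs N ^ (d - i) + r = a + r + 2 * Bs N ^ (d - 1 - k) * ((N + 1) * c) := by
        rw [hc]; ring
      have hM : 0 < Bs N ^ (d - 1 - k) := by have := Bs_pos N; positivity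
      rw [e, Nat.add_mul_div_left _ _ (by positivity), Nat.add_mul_mod_self_left]
    · rw [if_neg hkd, if_neg hkd]

/-- degree along a stretch of time -/
def Sg (d N : ℕ) (α : W → W → ℤ) (a n : ℕ) : ℤ :=
  ∑ r ∈ Finset.range n, α (Om d N (a + r)) (Om d N (a + r + 1))

theorem Sg_add (d N : ℕ) (α : W → W → ℤ) (a m n : ℕ) :
    Sg d N α a (m + n) = Sg d N α a m + Sg d N α (a + m) n := by
  unfold Sg
  rw [Finset.sum_range_add]
  congr 1
  refine Finset.sum_congr rfl (fun r _ => ?_)
  rw [add_assoc a m r]

theorem anti_self {α : W → W → ℤ} (hα : Anti α) (x : W) : α x x = 0 := by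
  have := hα x x; omega

theorem vt_eq {p q : W} {k y : ℕ} (h : Ce k p q) : vt p k y = vt q k y := by
  funext j
  unfold vt
  split_ifs with h1
  · exact h j h1
  · rfl
  · rfl

theorem td_eq {α : W → W → ℤ} {N k : ℕ} {p q : W} (h : Ce k p q) : td α N k p = td α N k q := by
  unfold td
  refine Finset.sum_congr rfl (fun y _ => ?_)
  rw [vt_eq h, vt_eq h]

/-- A vertex with zero coordinates after `k` -/
theorem eq_vt {k : ℕ} {x p : W} (h1 : Ce k p x) (h2 : ∀ j, k < j → x j = 0) :
    x = vt p k (x k) := by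
  funext j
  unfold vt
  split_ifs with h3 h4
  · exact (h1 j h3).symm
  · rw [h4]
  · exact h2 j (by omega)

theorem sum_digits (N : ℕ) (F : ℕ → ℕ → ℤ) (h0 : ∀ y, F y y = 0) :
    ∑ s ∈ Finset.range (2 * N + 1), F ((s / 2) % N) (((s + 1) / 2) % N)
      = ∑ y ∈ Finset.range N, F y ((y + 1) % N) := by
  rw [Finset.sum_range_succ]
  have e1 : (2 * N + 1) / 2 = N := by omega
  have e2 : 2 * N / 2 = N := by omega
  rw [e1, e2, h0, add_zero]
  have key : ∀ M, M ≤ N → ∑ s ∈ Finset.range (2 * M), F ((s / 2) % N) (((s + 1) / 2) % N)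
      = ∑ y ∈ Finset.range M, F y ((y + 1) % N) := by
    intro M
    induction M with
    | zero => intro _; simp
    | succ M ih =>
      intro hM
      have : 2 * (M + 1) = 2 * M + 1 + 1 := by ring
      rw [this, Finset.sum_range_succ, Finset.sum_range_succ, ih (by omega),
        Finset.sum_range_succ]
      have e3 : 2 * M / 2 = M := by omega
      have e4 : (2 * M + 1) / 2 = M := by omega
      have e5 : (2 * M + 1 + 1) / 2 = M + 1 := by omega
      rw [e3, e4, e5, h0, add_zero, Nat.mod_eq_of_lt (by omega : M < N)]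
  exact key N le_rfl

/-- degree of a block -/
theorem Sg_block {d N : ℕ} (hN : 0 < N) {α : W → W → ℤ} (hα : Anti α) (hnn : NN α d N) :
    ∀ n i, d - i = n → i ≤ d → ∀ a, Bs N ^ (d - i) ∣ a →
      0 ≤ Sg d N α a (Bs N ^ (d - i) - 1) ∧
      (i < d → td α N i (Om d N a) ≤ Sg d N α a (Bs N ^ (d - i) - 1)) := by
  intro n
  induction n with
  | zero =>
    intro i hi hid a _
    have : i = d := by omega
    subst this
    rw [Nat.sub_self, pow_zero, Nat.sub_self]
    exact ⟨by simp [Sg], fun h => absurd h (lt_irrefl _)⟩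
  | succ n ih =>
    intro i hi hid a ha
    have hid' : i < d := by omega
    have e : Bs N ^ (d - i) = Bs N ^ (d - 1 - i) * Bs N := by
      rw [← pow_succ]; congr 1; omega
    have e1 : d - (i + 1) = d - 1 - i := by omega
    set L := Bs N ^ (d - 1 - i) with hLdef
    have hL : 0 < L := by have := Bs_pos N; positivity
    obtain ⟨c, hac⟩ := ha
    set F : ℕ → ℕ → ℤ := fun y y' => α (vt (Om d N a) i y) (vt (Om d N a) i y') with hF
    -- description of the boundary vertices
    have hpre : ∀ m, m < Bs N → ∀ r, r < L → Ce i (Om d N a) (Om d N (a + L * m + r)) := by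
      intro m hm r hr
      refine Om_Ce ?_
      have hM : 0 < Bs N ^ (d - i) := by have := Bs_pos N; positivity
      have h3 : ∀ m : ℕ, m / (2 * Bs N ^ (d - i)) = m / Bs N ^ (d - i) / 2 := by
        intro m; rw [Nat.div_div_eq_div_mul, mul_comm]
      rw [h3, h3]
      congr 1
      have h4 : L * m + r < Bs N ^ (d - i) := by
        rw [e]
        have : L * m + r < L * (m + 1) := by rw [mul_add, mul_one]; omega
        have : L * (m + 1) ≤ L * Bs N := Nat.mul_le_mul_left _ (by omega)
        omega
      rw [hac, add_assoc, Nat.mul_div_cancel_left _ hM, Nat.mul_add_div hM,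
        Nat.div_eq_of_lt h4]
      rfl
    have hbd1 : ∀ m, m < Bs N → Om d N (a + L * m + (L - 1)) = vt (Om d N a) i ((m / 2) % N) := by
      intro m hm
      have h5 := Om_digit (d := d) (N := N) (i := i) (c := c) (s := m) (r := L - 1) hid' hm
        (by omega)
      have e6 : Bs N ^ (d - i) * c + m * Bs N ^ (d - 1 - i) + (L - 1) = a + L * m + (L - 1) := by
        rw [hac, ← hLdef]; ring
      rw [e6] at h5
      rw [← h5]
      refine eq_vt (hpre m hm (L - 1) (by omega)) (fun j hj => ?_)
      have h7 : Bs N ^ (d - (i + 1)) ∣ a + L * m + L := by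
        rw [e1, hac, e, ← hLdef]
        exact Dvd.intro (Bs N * c + m + 1) (by ring)
      have h8 := Om_max (d := d) (N := N) (i := i + 1) (a := a + L * m + L) (k := j) h7
        (by omega) (by omega)
      have e9 : a + L * m + L - 1 = a + L * m + (L - 1) := by omega
      rwa [e9] at h8
    have hbd2 : ∀ m, m < Bs N → Om d N (a + L * m) = vt (Om d N a) i ((m / 2) % N) := by
      intro m hm
      have h5 := Om_digit (d := d) (N := N) (i := i) (c := c) (s := m) (r := 0) hid' hm
        (by omega)
      have e6 : Bs N ^ (d - i) * c + m * Bs N ^ (d - 1 - i) + 0 = a + L * m := by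
        rw [hac, ← hLdef]; ring
      rw [e6] at h5
      rw [← h5]
      refine eq_vt ?_ (fun j hj => ?_)
      · have := hpre m hm 0 hL
        rwa [add_zero] at this
      · have h7 : Bs N ^ (d - (i + 1)) ∣ a + L * m := by
          rw [e1, hac, e, ← hLdef]
          exact Dvd.intro (Bs N * c + m) (by ring)
        exact Om_zero h7 (by omega)
    have key : ∀ m, m < Bs N →
        ∑ s ∈ Finset.range m, F ((s / 2) % N) (((s + 1) / 2) % N)
          ≤ Sg d N α a (L * m + (L - 1)) := by
      intro m
      induction m with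
      | zero =>
        intro _
        rw [Finset.sum_range_zero, mul_zero, zero_add]
        have h := (ih (i + 1) (by omega) (by omega) a (by
          rw [e1, hac, e, ← hLdef]
          exact Dvd.intro (Bs N * c) (by ring))).1
        rwa [e1] at h
      | succ m ihm =>
        intro hm
        have h1 := ihm (by omega)
        have e2 : L * (m + 1) + (L - 1) = (L * m + (L - 1)) + (1 + (L - 1)) := by
          have : L * (m + 1) = L * m + L := by ring
          omega
        rw [e2, Sg_add d N α a (L * m + (L - 1)) (1 + (L - 1)), Sg_add d N α _ 1 (L - 1),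
          Finset.sum_range_succ]
        have h2 : Sg d N α (a + (L * m + (L - 1))) 1 = F ((m / 2) % N) (((m + 1) / 2) % N) := by
          unfold Sg
          rw [Finset.sum_range_one, add_zero, hF]
          have e3 : a + (L * m + (L - 1)) = a + L * m + (L - 1) := by ring
          have e4 : a + (L * m + (L - 1)) + 1 = a + L * (m + 1) := by
            have : L * (m + 1) = L * m + L := by ring
            omega
          rw [e4, e3, hbd1 m (by omega), hbd2 (m + 1) hm]
        have e5 : a + (L * m + (L - 1)) + 1 = a + L * (m + 1) := by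
          have : L * (m + 1) = L * m + L := by ring
          omega
        have h3 := (ih (i + 1) (by omega) (by omega) (a + L * (m + 1)) (by
          rw [e1, hac, e, ← hLdef]
          exact Dvd.intro (Bs N * c + (m + 1)) (by ring))).1
        rw [e1] at h3
        rw [h2, e5]
        linarith
    have hfin := key (Bs N - 1) (by have := Bs_pos N; omega)
    have e7 : L * (Bs N - 1) + (L - 1) = Bs N ^ (d - i) - 1 := by
      rw [e]
      obtain ⟨b, hb⟩ : ∃ b, Bs N = b + 1 := ⟨Bs N - 1, by have := Bs_pos N; omega⟩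
      rw [hb, Nat.add_sub_cancel]
      have : L * (b + 1) = L * b + L := by ring
      omega
    have e8 : Bs N - 1 = 2 * N + 1 := by unfold Bs; omega
    rw [e7, e8, sum_digits N F (fun y => anti_self hα _)] at hfin
    have h9 : td α N i (Om d N a) ≤ Sg d N α a (Bs N ^ (d - i) - 1) := hfin
    exact ⟨le_trans (hnn i hid' _ (Om_mem hN a)) h9, fun _ => h9⟩

/-- degree of one execution inside a double block -/
theorem Sg_double {d N i a : ℕ} (hN : 0 < N) {α : W → W → ℤ} (hα : Anti α) (hnn : NN α d N)
    (hid : i ≤ d) (ha : 2 * Bs N ^ (d - i) ∣ a) :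
    0 ≤ Sg d N α a (Bs N ^ (d - i)) ∧
      (i < d → td α N i (Om d N a) ≤ Sg d N α a (Bs N ^ (d - i))) := by
  have ha' : Bs N ^ (d - i) ∣ a := dvd_trans (Dvd.intro_left _ rfl) ha
  have hL : 0 < Bs N ^ (d - i) := by have := Bs_pos N; positivity
  have h := Sg_block hN hα hnn (d - i) i rfl hid a ha'
  set L := Bs N ^ (d - i) with hLdef
  have e : L = (L - 1) + 1 := by omega
  have h2 : Sg d N α a L = Sg d N α a (L - 1) := by
    conv_lhs => rw [e]
    rw [Sg_add]
    have : Sg d N α (a + (L - 1)) 1 = 0 := by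
      unfold Sg
      rw [Finset.sum_range_one, add_zero]
      have e1 : a + (L - 1) + 1 = a + L := by omega
      rw [e1]
      have e2 : Om d N (a + (L - 1)) = Om d N (a + L) := by
        have h3 : Ce i (Om d N (a + (L - 1))) (Om d N (a + L)) := by
          refine Om_Ce ?_
          rw [← hLdef]
          obtain ⟨c, hc⟩ := ha
          rw [hc, Nat.mul_add_div (by positivity), Nat.mul_add_div (by positivity),
            Nat.div_eq_of_lt (by omega), Nat.div_eq_of_lt (by omega)]
        funext k
        by_cases hk : k < i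
        · exact h3 k hk
        · have h4 : Bs N ^ (d - i) ∣ a + L := by rw [← hLdef]; exact Dvd.dvd.add ha' (dvd_refl _)
          rw [Om_zero h4 (by omega)]
          have h5 := Om_max h4 (k := k) (by omega) (by omega)
          have e6 : a + L - 1 = a + (L - 1) := by omega
          rwa [e6] at h5
      rw [e2]
      exact anti_self hα _
    rw [this, add_zero]
  rw [h2]
  exact h

end Pool.Agent.Helper464.Omega
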