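import Mathlib

set_option autoImplicit false

namespace Pool.Agent.Helper464.Quat

open Quaternion Metric unitInterval

/-- The unit quaternions. -/
abbrev X3 : Type := sphere (0 : ℍ[ℝ]) 1

/-- The quaternion `a + b i + c j + d k`. -/
def mk (a b c d : ℝ) : ℍ[ℝ] := ⟨a, b, c, d⟩

@[simp] theorem mk_re (a b c d : ℝ) : (mk a b c d).re = a := rfl
@[simp] theorem mk_imI (a b c d : ℝ) : (mk a b c d).imI = b := rfl
@[simp] theorem mk_imJ (a b c d : ℝ) : (mk a b c d).imJ = c := rfl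
@[simp] theorem mk_imK (a b c d : ℝ) : (mk a b c d).imK = d := rfl

theorem mk_eta (q : ℍ[ℝ]) : mk q.re q.imI q.imJ q.imK = q := rfl

theorem mk_mul (a b c d a' b' c' d' : ℝ) : mk a b c d * mk a' b' c' d' =
    mk (a * a' - b * b' - c * c' - d * d') (a * b' + b * a' + c * d' - d * c')
      (a * c' - b * d' + c * a' + d * b') (a * d' + b * c' - c * b' + d * a') := by
  apply Quaternion.ext <;> simp

theorem star_mk (a b c d : ℝ) : star (mk a b c d) = mk a (-b) (-c) (-d) := by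
  apply Quaternion.ext <;> simp

theorem mk_one : (1 : ℍ[ℝ]) = mk 1 0 0 0 := by
  apply Quaternion.ext <;> simp

theorem neg_mk (a b c d : ℝ) : -(mk a b c d) = mk (-a) (-b) (-c) (-d) := by
  apply Quaternion.ext <;> simp

theorem smul_mk (r a b c d : ℝ) : r • (mk a b c d) = mk (r * a) (r * b) (r * c) (r * d) := by
  apply Quaternion.ext <;> simp

theorem continuous_mk {Y : Type} [TopologicalSpace Y] {a b c d : Y → ℝ} (ha : Continuous a)
    (hb : Continuous b) (hc : Continuous c) (hd : Continuous d) :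
    Continuous (fun y => mk (a y) (b y) (c y) (d y)) := by
  have h : (fun y => mk (a y) (b y) (c y) (d y)) = fun y =>
      a y • mk 1 0 0 0 + b y • mk 0 1 0 0 + c y • mk 0 0 1 0 + d y • mk 0 0 0 1 := by
    funext y
    apply Quaternion.ext <;> simp
  rw [h]
  fun_prop

theorem norm_eq_one_of_sq (q : ℍ[ℝ]) (h : q.re ^ 2 + q.imI ^ 2 + q.imJ ^ 2 + q.imK ^ 2 = 1) :
    ‖q‖ = 1 := by
  have h1 : normSq q = 1 := by rw [Quaternion.normSq_def']; exact h
  rw [Quaternion.normSq_eq_norm_mul_self] at h1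
  nlinarith [norm_nonneg q]

theorem sq_of_norm (q : X3) :
    (q : ℍ[ℝ]).re ^ 2 + (q : ℍ[ℝ]).imI ^ 2 + (q : ℍ[ℝ]).imJ ^ 2 + (q : ℍ[ℝ]).imK ^ 2 = 1 := by
  have h : ‖(q : ℍ[ℝ])‖ = 1 := mem_sphere_zero_iff_norm.1 q.2
  rw [← Quaternion.normSq_def', Quaternion.normSq_eq_norm_mul_self, h]; norm_num

/-- The quaternion `exp(5 pi i / 6)`. -/
noncomputable def Lq : ℍ[ℝ] := mk (-(Real.sqrt 3 / 2)) (1 / 2) 0 0
/-- The quaternion `exp(- pi i / 6)`. -/
noncomputable def Rq : ℍ[ℝ] := mk (Real.sqrt 3 / 2) (-(1 / 2)) 0 0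

theorem sqrt3_sq : Real.sqrt 3 ^ 2 = 3 := Real.sq_sqrt (by norm_num)

noncomputable def L : X3 := ⟨Lq, mem_sphere_zero_iff_norm.2 (norm_eq_one_of_sq _ (by
  simp only [Lq, mk_re, mk_imI, mk_imJ, mk_imK]; nlinarith [sqrt3_sq]))⟩
noncomputable def R : X3 := ⟨Rq, mem_sphere_zero_iff_norm.2 (norm_eq_one_of_sq _ (by
  simp only [Rq, mk_re, mk_imI, mk_imJ, mk_imK]; nlinarith [sqrt3_sq]))⟩

theorem coe_L : (L : ℍ[ℝ]) = Lq := rfl
theorem coe_R : (R : ℍ[ℝ]) = Rq := rfl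

theorem Lq_pow6 : Lq ^ 6 = -1 := by
  have h2 : Lq * Lq = mk (1 / 2) (-(Real.sqrt 3 / 2)) 0 0 := by
    have := sqrt3_sq
    rw [Lq, mk_mul]
    congr 1 <;> ring_nf
    rw [this]; norm_num
  have h3 : Lq * Lq * Lq = mk 0 1 0 0 := by
    have := sqrt3_sq
    rw [h2, Lq, mk_mul]
    congr 1 <;> ring_nf
    rw [this]; norm_num
  have h6 : Lq ^ 6 = (Lq * Lq * Lq) * (Lq * Lq * Lq) := by
    simp only [pow_succ, pow_zero, one_mul, mul_assoc]
  rw [h6, h3, mk_mul, mk_one, neg_mk]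
  norm_num

theorem Rq_pow6 : Rq ^ 6 = -1 := by
  have h2 : Rq * Rq = mk (1 / 2) (-(Real.sqrt 3 / 2)) 0 0 := by
    have := sqrt3_sq
    rw [Rq, mk_mul]
    congr 1 <;> ring_nf
    rw [this]; norm_num
  have h3 : Rq * Rq * Rq = mk 0 (-1) 0 0 := by
    have := sqrt3_sq
    rw [h2, Rq, mk_mul]
    congr 1 <;> ring_nf
    rw [this]; norm_num
  have h6 : Rq ^ 6 = (Rq * Rq * Rq) * (Rq * Rq * Rq) := by
    simp only [pow_succ, pow_zero, one_mul, mul_assoc]
  rw [h6, h3, mk_mul, mk_one, neg_mk]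
  norm_num

theorem L_pow6 : L ^ 6 = -1 := by
  apply Subtype.ext
  rw [Metric.unitSphere.coe_pow, coe_L, Lq_pow6]
  rfl

theorem R_pow6 : R ^ 6 = -1 := by
  apply Subtype.ext
  rw [Metric.unitSphere.coe_pow, coe_R, Rq_pow6]
  rfl

/-- The generator of the cyclic group of order six. -/
noncomputable def g (q : X3) : X3 := L * q * R

theorem continuous_g : Continuous g := by unfold g; fun_prop

theorem g_iter (n : ℕ) (q : X3) : g^[n] q = L ^ n * q * R ^ n := by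
  induction n with
  | zero => simp
  | succ n ih =>
    rw [Function.iterate_succ', Function.comp_apply, ih, g, pow_succ' L, pow_succ R]
    simp only [mul_assoc]

theorem g_iter6 (q : X3) : g^[6] q = q := by
  rw [g_iter, L_pow6, R_pow6, neg_one_mul, mul_neg_one, neg_neg]

theorem coe_g (q : X3) : ((g q : X3) : ℍ[ℝ]) = Lq * (q : ℍ[ℝ]) * Rq := by
  rw [g, Metric.unitSphere.coe_mul, Metric.unitSphere.coe_mul]; rfl

theorem LR_mk (a b c d : ℝ) : Lq * mk a b c d * Rq =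
    mk (-a / 2 - Real.sqrt 3 / 2 * b) (Real.sqrt 3 / 2 * a - b / 2) (-c) (-d) := by
  have h := sqrt3_sq
  have h' : Real.sqrt 3 * Real.sqrt 3 = 3 := by nlinarith
  rw [Lq, Rq, mk_mul, mk_mul]
  congr 1
  · linear_combination (-(1 / 4) * a) * h'
  · linear_combination (-(1 / 4) * b) * h'
  · linear_combination (-(1 / 4) * c) * h'
  · linear_combination (-(1 / 4) * d) * h'

theorem g_ne (q : X3) : g q ≠ q := by
  intro h
  have h1 : ((g q : X3) : ℍ[ℝ]) = (q : ℍ[ℝ]) := congrArg Subtype.val h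
  have hs := sq_of_norm q
  rw [coe_g, ← mk_eta (q : ℍ[ℝ]), LR_mk] at h1
  generalize (q : ℍ[ℝ]).re = a at *
  generalize (q : ℍ[ℝ]).imI = b at *
  generalize (q : ℍ[ℝ]).imJ = c at *
  generalize (q : ℍ[ℝ]).imK = d at *
  have hre : -a / 2 - Real.sqrt 3 / 2 * b = a := congrArg QuaternionAlgebra.re h1
  have hi : Real.sqrt 3 / 2 * a - b / 2 = b := congrArg QuaternionAlgebra.imI h1
  have hj : -c = c := congrArg QuaternionAlgebra.imJ h1
  have hk : -d = d := congrArg QuaternionAlgebra.imK h1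
  have h3 := sqrt3_sq
  have hc : c = 0 := by linarith
  have hd : d = 0 := by linarith
  subst hc hd
  have e1 : 3 * a = -(Real.sqrt 3 * b) := by linarith
  have e2 : Real.sqrt 3 * a = 3 * b := by linarith
  have hb : b = 0 := by
    have : 3 * (Real.sqrt 3 * a) = -(Real.sqrt 3 ^ 2 * b) := by
      calc 3 * (Real.sqrt 3 * a) = Real.sqrt 3 * (3 * a) := by ring
        _ = Real.sqrt 3 * (-(Real.sqrt 3 * b)) := by rw [e1]
        _ = _ := by ring
    rw [e2, h3] at this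
    linarith
  subst hb
  have ha : a = 0 := by linarith
  subst ha
  norm_num at hs

/-- The nowhere vanishing family joining `(z^2, i w)` (at `t = 0`) to quaternion squaring
(at `t = 1`). -/
noncomputable def Psi (t : ℝ) (q : ℍ[ℝ]) : ℍ[ℝ] :=
  mk (q.re ^ 2 - q.imI ^ 2 - t * (q.imJ ^ 2 + q.imK ^ 2)) (2 * q.re * q.imI)
    (2 * t * q.re * q.imJ - (1 - t) * q.imK) (2 * t * q.re * q.imK + (1 - t) * q.imJ)

theorem Psi_ne_zero (t : ℝ) (ht0 : 0 ≤ t) (q : ℍ[ℝ]) (hq : q ≠ 0) : Psi t q ≠ 0 := by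
  intro h
  apply hq
  obtain ⟨a, b, c, d⟩ := q
  have hre : a ^ 2 - b ^ 2 - t * (c ^ 2 + d ^ 2) = 0 := congrArg QuaternionAlgebra.re h
  have hi : 2 * a * b = 0 := congrArg QuaternionAlgebra.imI h
  have hj : 2 * t * a * c - (1 - t) * d = 0 := congrArg QuaternionAlgebra.imJ h
  have hk : 2 * t * a * d + (1 - t) * c = 0 := congrArg QuaternionAlgebra.imK h
  have hsum : ((2 * t * a) ^ 2 + (1 - t) ^ 2) * (c ^ 2 + d ^ 2) = 0 := by
    linear_combination (2 * t * a * c - (1 - t) * d) * hj + (2 * t * a * d + (1 - t) * c) * hk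
  have hcd : c ^ 2 + d ^ 2 = 0 ∧ a ^ 2 = b ^ 2 ∨ a = 0 ∧ b ^ 2 + (c ^ 2 + d ^ 2) = 0 := by
    rcases mul_eq_zero.1 hsum with h1 | h1
    · right
      have h2 : (1 - t) ^ 2 = 0 := by nlinarith [sq_nonneg (2 * t * a), sq_nonneg (1 - t)]
      have h3 : (2 * t * a) ^ 2 = 0 := by nlinarith [sq_nonneg (2 * t * a), sq_nonneg (1 - t)]
      have h4 : t = 1 := by
        have := pow_eq_zero_iff (two_ne_zero) |>.1 h2
        linarith
      subst h4
      have h5 : a = 0 := by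
        have := pow_eq_zero_iff (two_ne_zero) |>.1 h3
        linarith
      subst h5
      refine ⟨rfl, ?_⟩
      linarith
    · left
      refine ⟨h1, ?_⟩
      rw [h1] at hre
      linarith
  rcases hcd with ⟨h1, h2⟩ | ⟨h1, h2⟩
  · have hc : c = 0 := by nlinarith [sq_nonneg c, sq_nonneg d]
    have hd : d = 0 := by nlinarith [sq_nonneg c, sq_nonneg d]
    have hab : a ^ 2 * b ^ 2 = 0 := by
      have : a * b = 0 := by linarith
      calc a ^ 2 * b ^ 2 = (a * b) ^ 2 := by ring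
        _ = 0 := by rw [this]; norm_num
    rw [← h2] at hab
    have ha : a = 0 := by
      have h5 : (a ^ 2) ^ 2 = 0 := by linarith
      have := pow_eq_zero_iff (two_ne_zero) |>.1 h5
      exact pow_eq_zero_iff (two_ne_zero) |>.1 this
    subst ha
    have hb : b = 0 := by
      have : b ^ 2 = 0 := by linarith
      exact pow_eq_zero_iff (two_ne_zero) |>.1 this
    subst hb hc hd
    rfl
  · have hb : b = 0 := by nlinarith [sq_nonneg b, sq_nonneg c, sq_nonneg d]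
    have hc : c = 0 := by nlinarith [sq_nonneg b, sq_nonneg c, sq_nonneg d]
    have hd : d = 0 := by nlinarith [sq_nonneg b, sq_nonneg c, sq_nonneg d]
    subst hb hc hd h1
    rfl

theorem Psi_one (q : ℍ[ℝ]) : Psi 1 q = q * q := by
  obtain ⟨a, b, c, d⟩ := q
  show mk _ _ _ _ = mk a b c d * mk a b c d
  rw [mk_mul]
  congr 1 <;> simp only <;> ring

theorem continuous_Psi : Continuous (fun p : ℝ × ℍ[ℝ] => Psi p.1 p.2) := by
  unfold Psi
  have h1 : Continuous (fun p : ℝ × ℍ[ℝ] => p.2.re) := Quaternion.continuous_re.comp continuous_snd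
  have h2 : Continuous (fun p : ℝ × ℍ[ℝ] => p.2.imI) :=
    Quaternion.continuous_imI.comp continuous_snd
  have h3 : Continuous (fun p : ℝ × ℍ[ℝ] => p.2.imJ) :=
    Quaternion.continuous_imJ.comp continuous_snd
  have h4 : Continuous (fun p : ℝ × ℍ[ℝ] => p.2.imK) :=
    Quaternion.continuous_imK.comp continuous_snd
  refine continuous_mk ?_ ?_ ?_ ?_ <;> fun_prop

/-- The conjugating element `k_t = t + (1-t) j`. -/
noncomputable def kap (t : ℝ) : ℍ[ℝ] := mk t 0 (1 - t) 0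
/-- The conjugating element `s_t = 1 - (1-t) i`. -/
noncomputable def sig (t : ℝ) : ℍ[ℝ] := mk 1 (-(1 - t)) 0 0

theorem kap_ne (t : ℝ) : kap t ≠ 0 := by
  intro h
  have h1 : t = 0 := congrArg QuaternionAlgebra.re h
  have h2 : 1 - t = 0 := congrArg QuaternionAlgebra.imJ h
  linarith

theorem sig_ne (t : ℝ) : sig t ≠ 0 := by
  intro h
  have h1 : (1 : ℝ) = 0 := congrArg QuaternionAlgebra.re h
  norm_num at h1

/-- The homotopy of degree two maps. -/
noncomputable def theta (t : ℝ) (q : ℍ[ℝ]) : ℍ[ℝ] :=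
  sig t * Psi t (kap t * q * star (kap t)) * star (sig t)

theorem theta_ne_zero (t : ℝ) (ht0 : 0 ≤ t) (q : ℍ[ℝ]) (hq : q ≠ 0) : theta t q ≠ 0 := by
  unfold theta
  have h1 : star (kap t) ≠ 0 := star_ne_zero.2 (kap_ne t)
  have h2 : star (sig t) ≠ 0 := star_ne_zero.2 (sig_ne t)
  exact mul_ne_zero (mul_ne_zero (sig_ne t) (Psi_ne_zero t ht0 _
    (mul_ne_zero (mul_ne_zero (kap_ne t) hq) h1))) h2

theorem theta_zero (a b c d : ℝ) : theta 0 (mk a b c d) =
    (2 : ℝ) • mk (a ^ 2 - b ^ 2) (-(2 * a * b)) c (-d) := by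
  unfold theta kap sig Psi
  simp only [star_mk, mk_mul, mk_re, mk_imI, mk_imJ, mk_imK, smul_mk]
  congr 1 <;> ring

theorem theta_one (q : ℍ[ℝ]) : theta 1 q = q * q := by
  have h1 : kap 1 = 1 := by unfold kap; rw [mk_one]; norm_num
  have h2 : sig 1 = 1 := by unfold sig; rw [mk_one]; norm_num
  unfold theta
  rw [h1, h2, star_one, one_mul, mul_one, one_mul, mul_one, Psi_one]

theorem continuous_theta : Continuous (fun p : ℝ × ℍ[ℝ] => theta p.1 p.2) := by
  unfold theta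
  have h1 : Continuous (fun p : ℝ × ℍ[ℝ] => kap p.1) := by
    unfold kap; refine continuous_mk ?_ ?_ ?_ ?_ <;> fun_prop
  have h2 : Continuous (fun p : ℝ × ℍ[ℝ] => sig p.1) := by
    unfold sig; refine continuous_mk ?_ ?_ ?_ ?_ <;> fun_prop
  have h3 : Continuous (fun p : ℝ × ℍ[ℝ] => Psi p.1 (kap p.1 * p.2 * star (kap p.1))) :=
    continuous_Psi.comp (continuous_fst.prodMk ((h1.mul continuous_snd).mul h1.star))
  exact (h2.mul h3).mul h2.star

theorem ne_zero_X3 (q : X3) : (q : ℍ[ℝ]) ≠ 0 := ne_zero_of_mem_unit_sphere q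

theorem norm_X3 (q : X3) : ‖(q : ℍ[ℝ])‖ = 1 := mem_sphere_zero_iff_norm.1 q.2

/-- The null-homotopy: `h t q` is the unit quaternion `q * (theta t q)^(-1) * q`, normalised. -/
noncomputable def h (t : I) (q : X3) : X3 :=
  ⟨‖theta t q‖⁻¹ • ((q : ℍ[ℝ]) * star (theta t q) * (q : ℍ[ℝ])), by
    have h0 : ‖theta t q‖ ≠ 0 := norm_ne_zero_iff.2 (theta_ne_zero t t.2.1 q (ne_zero_X3 q))
    rw [mem_sphere_zero_iff_norm, norm_smul, norm_mul, norm_mul, norm_X3, norm_inv, norm_norm,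
      Quaternion.norm_star]
    field_simp⟩

theorem comp_aux (th : ℝ → ℍ[ℝ] → ℍ[ℝ]) (ht : Continuous (fun p : ℝ × ℍ[ℝ] => th p.1 p.2)) :
    Continuous (fun p : I × X3 => th (p.1 : ℝ) (p.2 : ℍ[ℝ])) :=
  ht.comp (Continuous.prodMk (continuous_subtype_val.comp continuous_fst)
      (continuous_subtype_val.comp continuous_snd))

theorem continuous_h : Continuous (fun p : I × X3 => h p.1 p.2) := by
  unfold h
  refine Continuous.subtype_mk ?_ _
  have h1 : Continuous (fun p : I × X3 => theta (p.1 : ℝ) (p.2 : ℍ[ℝ])) :=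
    comp_aux theta continuous_theta
  have h2 : Continuous (fun p : I × X3 => (p.2 : ℍ[ℝ])) :=
    continuous_subtype_val.comp continuous_snd
  refine Continuous.smul (h1.norm.inv₀ (fun p => ?_)) ((h2.mul h1.star).mul h2)
  exact norm_ne_zero_iff.2 (theta_ne_zero p.1 p.1.2.1 p.2 (ne_zero_X3 p.2))

theorem star_mul_self_X3 (q : X3) : star (q : ℍ[ℝ]) * (q : ℍ[ℝ]) = 1 := by
  rw [Quaternion.star_mul_self, Quaternion.normSq_eq_norm_mul_self, norm_X3]; norm_num

theorem self_mul_star_X3 (q : X3) : (q : ℍ[ℝ]) * star (q : ℍ[ℝ]) = 1 := by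
  rw [Quaternion.self_mul_star, Quaternion.normSq_eq_norm_mul_self, norm_X3]; norm_num

theorem h_one (q : X3) : h 1 q = 1 := by
  apply Subtype.ext
  show ‖theta ((1 : I) : ℝ) q‖⁻¹ • ((q : ℍ[ℝ]) * star (theta ((1 : I) : ℝ) q) * (q : ℍ[ℝ])) = 1
  rw [show ((1 : I) : ℝ) = 1 from rfl, theta_one, norm_mul, norm_X3, star_mul]
  have e : (q : ℍ[ℝ]) * (star (q : ℍ[ℝ]) * star (q : ℍ[ℝ])) * (q : ℍ[ℝ])
      = ((q : ℍ[ℝ]) * star (q : ℍ[ℝ])) * (star (q : ℍ[ℝ]) * (q : ℍ[ℝ])) := by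
    simp only [mul_assoc]
  rw [e, star_mul_self_X3, self_mul_star_X3]
  norm_num

theorem theta_zero_LR (q : ℍ[ℝ]) : theta 0 (Lq * q * Rq) = Lq * theta 0 q * Rq := by
  obtain ⟨a, b, c, d⟩ := q
  show theta 0 (Lq * mk a b c d * Rq) = Lq * theta 0 (mk a b c d) * Rq
  have h' : Real.sqrt 3 * Real.sqrt 3 = 3 := by nlinarith [sqrt3_sq]
  rw [LR_mk, theta_zero, theta_zero, mul_smul_comm, smul_mul_assoc, LR_mk]
  congr 2
  · linear_combination (b ^ 2 / 4 - a ^ 2 / 4) * h'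
  · linear_combination (a * b / 2) * h'

/-- The equivariant map, `f q = q * phi(q)^(-1) * q`. -/
theorem h_zero_equivariant (q : X3) : h 0 (g q) = g (h 0 q) := by
  apply Subtype.ext
  rw [coe_g]
  show ‖theta ((0 : I) : ℝ) (g q : X3)‖⁻¹ • (((g q : X3) : ℍ[ℝ]) *
    star (theta ((0 : I) : ℝ) (g q : X3)) * ((g q : X3) : ℍ[ℝ])) =
    Lq * (‖theta ((0 : I) : ℝ) q‖⁻¹ • ((q : ℍ[ℝ]) * star (theta ((0 : I) : ℝ) q) * (q : ℍ[ℝ]))) * Rq
  rw [show ((0 : I) : ℝ) = 0 from rfl, coe_g, theta_zero_LR, norm_mul, norm_mul]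
  have hL : ‖Lq‖ = 1 := norm_X3 L
  have hR : ‖Rq‖ = 1 := norm_X3 R
  have hLs : star Lq * Lq = 1 := star_mul_self_X3 L
  have hRs : Rq * star Rq = 1 := self_mul_star_X3 R
  rw [hL, hR, one_mul, mul_one, star_mul, star_mul, mul_smul_comm, smul_mul_assoc]
  congr 1
  calc Lq * (q : ℍ[ℝ]) * Rq * (star Rq * (star (theta 0 q) * star Lq)) * (Lq * (q : ℍ[ℝ]) * Rq)
      = Lq * (q : ℍ[ℝ]) * (Rq * star Rq) * star (theta 0 q) * (star Lq * Lq)
          * (q : ℍ[ℝ]) * Rq := by simp only [mul_assoc]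
    _ = Lq * ((q : ℍ[ℝ]) * star (theta 0 q) * (q : ℍ[ℝ])) * Rq := by
        rw [hRs, hLs]; simp only [mul_assoc, mul_one]

end Pool.Agent.Helper464.Quat
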