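import Mathlib

set_option autoImplicit false

namespace Pool.Agent.Helper464.Star

open unitInterval Topology

/-- The six-legged star, as a subset of the cube. -/
def starSet : Set (Fin 6 → ℝ) :=
  {s | (∀ a, 0 ≤ s a ∧ s a ≤ 1) ∧ ∀ a b, a ≠ b → s a * s b = 0}

abbrev SixStar : Type := starSet

theorem isClosed_starSet : IsClosed starSet := by
  have : starSet = (⋂ a, {s : Fin 6 → ℝ | 0 ≤ s a}) ∩ (⋂ a, {s : Fin 6 → ℝ | s a ≤ 1}) ∩
      ⋂ (a) (b) (_ : a ≠ b), {s : Fin 6 → ℝ | s a * s b = 0} := by
    ext s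
    simp only [starSet, Set.mem_ofPred_eq, Set.mem_inter_iff, Set.mem_iInter]
    constructor
    · rintro ⟨h1, h2⟩
      exact ⟨⟨fun a => (h1 a).1, fun a => (h1 a).2⟩, h2⟩
    · rintro ⟨⟨h1, h2⟩, h3⟩
      exact ⟨fun a => ⟨h1 a, h2 a⟩, h3⟩
  rw [this]
  refine (IsClosed.inter (isClosed_iInter fun a => ?_) (isClosed_iInter fun a => ?_)).inter
    (isClosed_iInter fun a => isClosed_iInter fun b => isClosed_iInter fun _ => ?_)
  · exact isClosed_le continuous_const (continuous_apply a)
  · exact isClosed_le (continuous_apply a) continuous_const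
  · exact isClosed_eq ((continuous_apply a).mul (continuous_apply b)) continuous_const

instance : CompactSpace SixStar := by
  rw [← isCompact_iff_compactSpace]
  refine IsCompact.of_isClosed_subset (isCompact_univ_pi
    (fun _ : Fin 6 => isCompact_Icc (a := (0 : ℝ)) (b := 1))) isClosed_starSet ?_
  intro s hs a _
  exact hs.1 a

/-- The coordinate of the star as a point of the unit interval. -/
def coord (s : SixStar) (a : Fin 6) : I := ⟨s.1 a, s.2.1 a⟩

theorem continuous_coord (a : Fin 6) : Continuous (fun s : SixStar => coord s a) :=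
  Continuous.subtype_mk ((continuous_apply a).comp continuous_subtype_val) _

/-- The end point of leg zero. -/
def base : SixStar := ⟨Pi.single 0 1, by
  constructor
  · intro a
    by_cases h : a = 0
    · subst h; simp
    · simp [h]
  · intro a b hab
    by_cases h : a = 0
    · subst h
      simp [Ne.symm hab]
    · simp [h]⟩

/-- The contraction of the star: first to the centre, then to the end point of leg zero. -/
noncomputable def con (t : I) (s : SixStar) : SixStar :=
  ⟨fun a => max 0 (1 - 2 * (t : ℝ)) * s.1 a + max 0 (2 * (t : ℝ) - 1) * base.1 a, by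
    rcases le_total (t : ℝ) (1 / 2) with h | h
    · have e1 : max 0 (1 - 2 * (t : ℝ)) = 1 - 2 * (t : ℝ) := max_eq_right (by linarith)
      have e2 : max 0 (2 * (t : ℝ) - 1) = 0 := max_eq_left (by linarith)
      rw [e1, e2]
      refine ⟨fun a => ?_, fun a b hab => ?_⟩
      · have h1 := (s.2.1 a).1
        have h2 := (s.2.1 a).2
        have h3 := t.2.1
        constructor
        · have : 0 ≤ (1 - 2 * (t : ℝ)) * s.1 a := mul_nonneg (by linarith) h1
          linarith
        · have : (1 - 2 * (t : ℝ)) * s.1 a ≤ 1 * 1 :=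
            mul_le_mul (by linarith) h2 h1 (by norm_num)
          linarith
      · have h1 := s.2.2 a b hab
        linear_combination (1 - 2 * (t : ℝ)) ^ 2 * h1
    · have e1 : max 0 (1 - 2 * (t : ℝ)) = 0 := max_eq_left (by linarith)
      have e2 : max 0 (2 * (t : ℝ) - 1) = 2 * (t : ℝ) - 1 := max_eq_right (by linarith)
      rw [e1, e2]
      refine ⟨fun a => ?_, fun a b hab => ?_⟩
      · have h1 := (base.2.1 a).1
        have h2 := (base.2.1 a).2
        have h3 := t.2.2
        constructor
        · have : 0 ≤ (2 * (t : ℝ) - 1) * base.1 a := mul_nonneg (by linarith) h1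
          linarith
        · have : (2 * (t : ℝ) - 1) * base.1 a ≤ 1 * 1 :=
            mul_le_mul (by linarith) h2 h1 (by norm_num)
          linarith
      · have h1 := base.2.2 a b hab
        linear_combination (2 * (t : ℝ) - 1) ^ 2 * h1⟩

theorem continuous_con : Continuous (fun p : I × SixStar => con p.1 p.2) := by
  refine Continuous.subtype_mk (continuous_pi fun a => ?_) _
  have h1 : Continuous (fun p : I × SixStar => (p.1 : ℝ)) := continuous_subtype_val.comp continuous_fst
  have h2 : Continuous (fun p : I × SixStar => p.2.1 a) :=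
    (continuous_apply a).comp (continuous_subtype_val.comp continuous_snd)
  exact ((continuous_const.max (continuous_const.sub (continuous_const.mul h1))).mul h2).add
    ((continuous_const.max ((continuous_const.mul h1).sub continuous_const)).mul continuous_const)

theorem con_zero (s : SixStar) : con 0 s = s := by
  apply Subtype.ext
  funext a
  simp [con]

theorem con_one (s : SixStar) : con 1 s = base := by
  apply Subtype.ext
  funext a
  have e : (2 : ℝ) * 1 - 1 = 1 := by norm_num
  have e2 : (1 : ℝ) - 2 * 1 = -1 := by norm_num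
  simp only [con, Set.Icc.coe_one, e, e2]
  norm_num

/-- The rotation of the legs. -/
def rot (s : SixStar) : SixStar :=
  ⟨fun a => s.1 (a - 1), fun a => s.2.1 (a - 1), fun a b hab =>
    s.2.2 (a - 1) (b - 1) (fun h => hab (sub_left_injective h))⟩

theorem continuous_rot : Continuous rot := by
  unfold rot
  refine Continuous.subtype_mk (continuous_pi fun a => ?_) _
  exact (continuous_apply (a - 1)).comp continuous_subtype_val

theorem rot_iter6 (s : SixStar) : rot^[6] s = s := by
  apply Subtype.ext
  funext a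
  show s.1 (a - 1 - 1 - 1 - 1 - 1 - 1) = s.1 a
  have e : ∀ a : Fin 6, a - 1 - 1 - 1 - 1 - 1 - 1 = a := by decide
  rw [e]

theorem exists_leg (s : SixStar) : ∃ a : Fin 6, ∀ b, b ≠ a → coord s b = 0 := by
  by_cases h : ∀ a, s.1 a = 0
  · exact ⟨0, fun b _ => Subtype.ext (h b)⟩
  · push Not at h
    obtain ⟨a, ha⟩ := h
    refine ⟨a, fun b hb => Subtype.ext ?_⟩
    rcases mul_eq_zero.1 (s.2.2 b a hb) with h1 | h1
    · exact h1
    · exact absurd h1 ha

section Group

variable {X : Type} [TopologicalSpace X] [Group X] [IsTopologicalGroup X]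

/-- The translate by the `a`-th power of the generator of the null-homotopy. -/
def K (L R : X) (h : I → X → X) (a : Fin 6) (t : I) (q : X) : X :=
  L ^ (a : ℕ) * h t ((L ^ (a : ℕ))⁻¹ * q * (R ^ (a : ℕ))⁻¹) * R ^ (a : ℕ)

theorem continuous_K (L R : X) (h : I → X → X) (hh : Continuous (fun p : I × X => h p.1 p.2))
    (a : Fin 6) : Continuous (fun p : I × X => K L R h a p.1 p.2) := by
  unfold K
  have h1 : Continuous (fun p : I × X => (p.1, (L ^ (a : ℕ))⁻¹ * p.2 * (R ^ (a : ℕ))⁻¹)) :=
    continuous_fst.prodMk ((continuous_const.mul continuous_snd).mul continuous_const)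
  have h2 : Continuous (fun p : I × X => h p.1 ((L ^ (a : ℕ))⁻¹ * p.2 * (R ^ (a : ℕ))⁻¹)) :=
    hh.comp h1
  exact (continuous_const.mul h2).mul continuous_const

theorem f_pow (L R : X) (h : I → X → X) (hE : ∀ q, h 0 (L * q * R) = L * h 0 q * R)
    (n : ℕ) (q : X) : L ^ n * h 0 ((L ^ n)⁻¹ * q * (R ^ n)⁻¹) * R ^ n = h 0 q := by
  have key : ∀ (n : ℕ) (q : X), h 0 (L ^ n * q * R ^ n) = L ^ n * h 0 q * R ^ n := by
    intro n
    induction n with
    | zero => intro q; simp
    | succ n ih =>
      intro q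
      have e1 : L ^ (n + 1) * q * R ^ (n + 1) = L * (L ^ n * q * R ^ n) * R := by
        rw [pow_succ' L, pow_succ R]; simp only [mul_assoc]
      have e2 : L ^ (n + 1) * h 0 q * R ^ (n + 1) = L * (L ^ n * h 0 q * R ^ n) * R := by
        rw [pow_succ' L, pow_succ R]; simp only [mul_assoc]
      rw [e1, e2, ← ih q, hE]
  have h1 := key n ((L ^ n)⁻¹ * q * (R ^ n)⁻¹)
  rw [← h1]
  congr 1
  group

theorem K_zero (L R : X) (h : I → X → X) (hE : ∀ q, h 0 (L * q * R) = L * h 0 q * R)
    (a : Fin 6) (q : X) : K L R h a 0 q = h 0 q := f_pow L R h hE a q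

theorem K_succ (L R : X) (h : I → X → X) (h6 : ∀ q : X, L ^ 6 * q * R ^ 6 = q)
    (a : Fin 6) (t : I) (q : X) :
    K L R h (a + 1) t (L * q * R) = L * (K L R h a t q) * R := by
  have main : ∀ n : ℕ, L ^ (n + 1) * h t ((L ^ (n + 1))⁻¹ * (L * q * R) * (R ^ (n + 1))⁻¹)
      * R ^ (n + 1) = L * (L ^ n * h t ((L ^ n)⁻¹ * q * (R ^ n)⁻¹) * R ^ n) * R := by
    intro n
    have e1 : (L ^ (n + 1))⁻¹ * (L * q * R) * (R ^ (n + 1))⁻¹ = (L ^ n)⁻¹ * q * (R ^ n)⁻¹ := by
      rw [pow_succ' L, pow_succ R]; group
    rw [e1, pow_succ' L, pow_succ R]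
    simp only [mul_assoc]
  unfold K
  by_cases ha : a = 5
  · subst ha
    have e5 : (((5 : Fin 6) + 1 : Fin 6) : ℕ) = 0 := rfl
    have e5' : ((5 : Fin 6) : ℕ) = 5 := rfl
    rw [e5, e5', ← main 5, h6]
    simp only [pow_zero, one_mul, mul_one, inv_one]
    congr 1
    have h7 := h6 ((L ^ 6)⁻¹ * (L * q * R) * (R ^ 6)⁻¹)
    rw [← h7]
    group
  · have e : ((a + 1 : Fin 6) : ℕ) = (a : ℕ) + 1 := by
      revert ha; revert a; decide
    rw [e, main]

/-- The factor belonging to the leg `a`. -/
def P (L R : X) (h : I → X → X) (q : X) (s : SixStar) (a : Fin 6) : X :=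
  (h 0 q)⁻¹ * K L R h a (coord s a) q

/-- The map on states, controlled by the star. -/
def F (L R : X) (h : I → X → X) (q : X) (s : SixStar) : X :=
  h 0 q * (P L R h q s 0 * P L R h q s 1 * P L R h q s 2 * P L R h q s 3 * P L R h q s 4 *
    P L R h q s 5)

theorem F_eq (L R : X) (h : I → X → X) (hE : ∀ q, h 0 (L * q * R) = L * h 0 q * R)
    (q : X) (s : SixStar) (a : Fin 6) (hs : ∀ b, b ≠ a → coord s b = 0) :
    F L R h q s = K L R h a (coord s a) q := by
  have hP : ∀ b, b ≠ a → P L R h q s b = 1 := by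
    intro b hb
    unfold P
    rw [hs b hb, K_zero L R h hE, inv_mul_cancel]
  have hfin : F L R h q s = h 0 q * P L R h q s a := by
    unfold F
    fin_cases a <;> simp [hP]
  rw [hfin]
  unfold P
  rw [mul_inv_cancel_left]

theorem continuous_P (L R : X) (h : I → X → X) (hh : Continuous (fun p : I × X => h p.1 p.2))
    (a : Fin 6) : Continuous (fun p : X × SixStar => P L R h p.1 p.2 a) := by
  unfold P
  have h1 : Continuous (fun p : X × SixStar => (coord p.2 a, p.1)) :=
    ((continuous_coord a).comp continuous_snd).prodMk continuous_fst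
  have h2 : Continuous (fun p : X × SixStar => K L R h a (coord p.2 a) p.1) :=
    (continuous_K L R h hh a).comp h1
  have h3 : Continuous (fun p : X × SixStar => h 0 p.1) :=
    hh.comp (continuous_const.prodMk continuous_fst)
  exact h3.inv.mul h2

theorem continuous_F (L R : X) (h : I → X → X) (hh : Continuous (fun p : I × X => h p.1 p.2)) :
    Continuous (fun p : X × SixStar => F L R h p.1 p.2) := by
  unfold F
  have h3 : Continuous (fun p : X × SixStar => h 0 p.1) :=
    hh.comp (continuous_const.prodMk continuous_fst)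
  have hP := continuous_P L R h hh
  exact h3.mul ((((((hP 0).mul (hP 1)).mul (hP 2)).mul (hP 3)).mul (hP 4)).mul (hP 5))

theorem F_base (L R : X) (h : I → X → X) (hE : ∀ q, h 0 (L * q * R) = L * h 0 q * R)
    (h1 : ∀ q, h 1 q = 1) (q : X) : F L R h q base = 1 := by
  rw [F_eq L R h hE q base 0 (fun b hb => Subtype.ext (by simp [coord, base, hb]))]
  have e : coord base 0 = 1 := Subtype.ext (by simp [coord, base])
  rw [e]
  unfold K
  rw [h1]
  simp

theorem F_equivariant (L R : X) (h : I → X → X) (hE : ∀ q, h 0 (L * q * R) = L * h 0 q * R)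
    (h6 : ∀ q : X, L ^ 6 * q * R ^ 6 = q) (q : X) (s : SixStar) :
    F L R h (L * q * R) (rot s) = L * F L R h q s * R := by
  obtain ⟨a, ha⟩ := exists_leg s
  have hrot : ∀ b, coord (rot s) b = coord s (b - 1) := fun b => rfl
  rw [F_eq L R h hE q s a ha, F_eq L R h hE (L * q * R) (rot s) (a + 1) ?_, hrot,
    add_sub_cancel_right, K_succ L R h h6]
  intro b hb
  rw [hrot]
  exact ha _ (fun hcon => hb (by rw [← hcon, sub_add_cancel]))

end Group

end Pool.Agent.Helper464.Star
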