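import Mathlib
import Pool.Agent.Helper464.Contr
import Pool.Agent.Helper464.Star
import Pool.Agent.Helper464.Quat

set_option autoImplicit false

namespace Pool.Agent.Helper464.PeriodicFinal

open unitInterval Topology
open Pool.Agent.Helper464

section Abs

variable {X : Type} [TopologicalSpace X] [Group X] [IsTopologicalGroup X] [CompactSpace X]
  [T2Space X] [SecondCountableTopology X]

/-- The action on sequences of (control, state) pairs. -/
def act (L R : X) (p : ℕ → Star.SixStar × X) : ℕ → Star.SixStar × X :=
  fun k => (Star.rot (p k).1, L * (p k).2 * R)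

theorem act_iter (L R : X) (p : ℕ → Star.SixStar × X) (n k : ℕ) :
    ((act L R)^[n] p) k = (Star.rot^[n] (p k).1, (fun q => L * q * R)^[n] (p k).2) := by
  induction n with
  | zero => rfl
  | succ n ih =>
    rw [Function.iterate_succ', Function.comp_apply]
    show (Star.rot (((act L R)^[n] p) k).1, L * (((act L R)^[n] p) k).2 * R) = _
    rw [ih, Function.iterate_succ', Function.iterate_succ']
    rfl

/-- From an equivariantly null-homotopic map to a contractible compact metrizable space with a
fixed point free periodic homeomorphism. -/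
theorem exists_space (L R : X) (h : I → X → X)
    (hh : Continuous (fun p : I × X => h p.1 p.2))
    (hE : ∀ q, h 0 (L * q * R) = L * h 0 q * R) (h1 : ∀ q, h 1 q = 1)
    (h6 : ∀ q : X, L ^ 6 * q * R ^ 6 = q) (hne : ∀ q : X, L * q * R ≠ q) :
    ∃ (M : Type) (_ : MetricSpace M), CompactSpace M ∧ ConnectedSpace M ∧ ContractibleSpace M ∧
      ∃ f : M ≃ₜ M, (⇑f)^[6] = id ∧ ∀ x, f x ≠ x := by
  let F := Star.F L R h
  have hF : Continuous (fun p : X × Star.SixStar => F p.1 p.2) := Star.continuous_F L R h hh
  have hcl : IsClosed (Contr.Mset F) := Contr.isClosed_Mset F hF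
  haveI : CompactSpace (Contr.Mset F) := isCompact_iff_compactSpace.1 hcl.isCompact
  haveI : ContractibleSpace (Contr.Mset F) :=
    Contr.contractible_Mset F Star.con 1 hF Star.continuous_con Star.con_zero Star.base
      Star.con_one (Star.F_base L R h hE h1)
  haveI : ConnectedSpace (Contr.Mset F) := inferInstance
  haveI : TopologicalSpace.MetrizableSpace (Contr.Mset F) :=
    TopologicalSpace.metrizableSpace_of_t3_secondCountable _
  have hact : ∀ p, p ∈ Contr.Mset F → act L R p ∈ Contr.Mset F := by
    intro p hp k
    show L * (p k).2 * R = F (L * (p (k + 1)).2 * R) (Star.rot (p k).1)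
    rw [show F (L * (p (k + 1)).2 * R) (Star.rot (p k).1) = L * F (p (k + 1)).2 (p k).1 * R from
      Star.F_equivariant L R h hE h6 _ _, ← hp k]
  have hcact : Continuous (act L R) := by
    refine continuous_pi (fun k => ?_)
    exact (Star.continuous_rot.comp (continuous_fst.comp (continuous_apply k))).prodMk
      ((continuous_const.mul (continuous_snd.comp (continuous_apply k))).mul continuous_const)
  let T : Contr.Mset F → Contr.Mset F := fun p => ⟨act L R p, hact p p.2⟩
  have hT : Continuous T := Continuous.subtype_mk (hcact.comp continuous_subtype_val) _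
  have hg6 : ∀ q : X, (fun q => L * q * R)^[6] q = q := by
    intro q
    have e : (fun q => L * q * R)^[6] q = L ^ 6 * q * R ^ 6 := by
      show L * (L * (L * (L * (L * (L * q * R) * R) * R) * R) * R) * R = _
      simp only [pow_succ, pow_zero, one_mul, mul_assoc]
    rw [e, h6]
  have hTval : ∀ n (p : Contr.Mset F), ((T^[n] p : Contr.Mset F) : ℕ → Star.SixStar × X)
      = (act L R)^[n] p := by
    intro n
    induction n with
    | zero => intro p; rfl
    | succ n ih =>
      intro p
      rw [Function.iterate_succ, Function.comp_apply, ih, Function.iterate_succ,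
        Function.comp_apply]
  have hT6 : ∀ p, T^[6] p = p := by
    intro p
    apply Subtype.ext
    rw [hTval]
    funext k
    rw [act_iter, hg6, Star.rot_iter6]
  have hT5 : Continuous (T^[5]) := hT.iterate 5
  let fH : Contr.Mset F ≃ₜ Contr.Mset F :=
    { toFun := T
      invFun := T^[5]
      left_inv := fun p => hT6 p
      right_inv := fun p => by
        have e := hT6 p
        rw [Function.iterate_succ', Function.comp_apply] at e
        exact e
      continuous_toFun := hT
      continuous_invFun := hT5 }
  letI inst : MetricSpace (Contr.Mset F) := TopologicalSpace.metrizableSpaceMetric _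
  refine ⟨Contr.Mset F, inst, inferInstance, inferInstance, inferInstance, fH, ?_, ?_⟩
  · funext p
    exact hT6 p
  · intro p hp
    have e : (act L R (p : ℕ → Star.SixStar × X)) = (p : ℕ → Star.SixStar × X) :=
      congrArg Subtype.val hp
    have e0 := congrArg Prod.snd (congrFun e 0)
    exact hne _ e0

end Abs

theorem main_exists : ∃ (M : Type) (_ : MetricSpace M), CompactSpace M ∧ ConnectedSpace M ∧
    ContractibleSpace M ∧ ∃ f : M ≃ₜ M, (⇑f)^[6] = id ∧ ∀ x, f x ≠ x := by
  haveI : ProperSpace (Quaternion ℝ) := FiniteDimensional.proper ℝ (Quaternion ℝ)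
  haveI : CompactSpace Quat.X3 := isCompact_iff_compactSpace.1 (isCompact_sphere _ _)
  refine exists_space Quat.L Quat.R Quat.h Quat.continuous_h Quat.h_zero_equivariant
    Quat.h_one ?_ Quat.g_ne
  intro q
  rw [Quat.L_pow6, Quat.R_pow6, neg_one_mul, mul_neg_one, neg_neg]

end Pool.Agent.Helper464.PeriodicFinal
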