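import Mathlib

set_option autoImplicit false

namespace Pool.Agent.Helper464.QuotTA

/-- Connectedness of a set for a symmetric relation. -/
def Cn {V : Type} (r : V → V → Prop) (H : Set V) : Prop :=
  ∀ A : Set V, A ⊆ H → A.Nonempty → (∀ a ∈ A, ∀ b ∈ H, r a b → b ∈ A) → A = H

/-- The inverse limit. -/
def Lim (V : ℕ → Type) (f : ∀ n, V (n + 1) → V n) : Type :=
  {x : ∀ n, V n // ∀ n, f n (x (n + 1)) = x n}

instance (V : ℕ → Type) (f : ∀ n, V (n + 1) → V n) [∀ n, TopologicalSpace (V n)] :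
    TopologicalSpace (Lim V f) := inferInstanceAs (TopologicalSpace {x : ∀ n, V n // _})

theorem metric_of_levels (Y : Type) (U : ℕ → Y → Y → Prop) (hrefl : ∀ n x, U n x x)
    (hsymm : ∀ n x y, U n x y → U n y x) (hmono : ∀ n x y, U (n + 1) x y → U n x y)
    (hcomp : ∀ n x y z, U (n + 1) x y → U (n + 1) y z → U n x z) :
    ∃ (M : Type) (_ : MetricSpace M) (q : Y → M), Function.Surjective q ∧
      (∀ x y, q x = q y ↔ ∀ n, U n x y) ∧
      (∀ n, ∃ ε > (0 : ℝ), ∀ x y, dist (q x) (q y) < ε → U n x y) ∧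
      (∀ ε > (0 : ℝ), ∃ n, ∀ x y, U n x y → dist (q x) (q y) < ε) := by
  classical
  have hanti : Antitone (fun n => {p : Y × Y | U n p.1 p.2}) :=
    antitone_nat_of_succ_le (fun n p hp => hmono n _ _ hp)
  let B : FilterBasis (Y × Y) :=
    { sets := Set.range (fun n => {p : Y × Y | U n p.1 p.2})
      nonempty := ⟨_, ⟨0, rfl⟩⟩
      inter_sets := by
        rintro _ _ ⟨n, rfl⟩ ⟨m, rfl⟩
        exact ⟨_, ⟨max n m, rfl⟩, Set.subset_inter (hanti (le_max_left n m)) (hanti (le_max_right n m))⟩ }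
  let C : UniformSpace.Core Y := UniformSpace.Core.mkOfBasis B
    (by rintro _ ⟨n, rfl⟩ x; exact hrefl n x)
    (by rintro _ ⟨n, rfl⟩; exact ⟨_, ⟨n, rfl⟩, fun p hp => hsymm n _ _ hp⟩)
    (by
      rintro _ ⟨n, rfl⟩
      refine ⟨_, ⟨n + 1, rfl⟩, ?_⟩
      rintro ⟨x, z⟩ ⟨y, h1, h2⟩
      exact hcomp n x y z h1 h2)
  letI : UniformSpace Y := UniformSpace.ofCore C
  have hB : (uniformity Y).HasBasis (fun _ : ℕ => True) (fun n => {p : Y × Y | U n p.1 p.2}) := by
    have h := B.hasBasis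
    refine ⟨fun t => ?_⟩
    have h2 := h.mem_iff (t := t)
    constructor
    · intro ht
      obtain ⟨_, ⟨n, rfl⟩, h3⟩ := h2.1 ht
      exact ⟨n, trivial, h3⟩
    · rintro ⟨n, -, h3⟩
      exact h2.2 ⟨_, ⟨n, rfl⟩, h3⟩
  haveI : (uniformity Y).IsCountablyGenerated := hB.isCountablyGenerated
  letI pm : PseudoMetricSpace Y := UniformSpace.pseudoMetricSpace Y
  have hd : (uniformity Y).HasBasis (fun ε : ℝ => 0 < ε) fun ε => {p : Y × Y | dist p.1 p.2 < ε} :=
    Metric.uniformity_basis_dist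
  refine ⟨SeparationQuotient Y, inferInstance, SeparationQuotient.mk,
    SeparationQuotient.surjective_mk, ?_, ?_, ?_⟩
  · intro x y
    rw [SeparationQuotient.mk_eq_mk, hB.inseparable_iff_uniformity]
    simp
  · intro n
    have : {p : Y × Y | U n p.1 p.2} ∈ uniformity Y := hB.mem_of_mem trivial
    obtain ⟨ε, hε, h⟩ := hd.mem_iff.1 this
    refine ⟨ε, hε, fun x y hxy => ?_⟩
    rw [SeparationQuotient.dist_mk] at hxy
    exact h (show (x, y) ∈ {p : Y × Y | dist p.1 p.2 < ε} from hxy)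
  · intro ε hε
    have : {p : Y × Y | dist p.1 p.2 < ε} ∈ uniformity Y := hd.mem_of_mem hε
    obtain ⟨n, -, h⟩ := hB.mem_iff.1 this
    refine ⟨n, fun x y hxy => ?_⟩
    rw [SeparationQuotient.dist_mk]
    exact h (show (x, y) ∈ {p : Y × Y | U n p.1 p.2} from hxy)

theorem thread_through (n : ℕ) : ∀ (V : ℕ → Type) (f : ∀ n, V (n + 1) → V n)
    (_ : ∀ n, Function.Surjective (f n)) (v : V n), ∃ x : ∀ k, V k,
      (∀ k, f k (x (k + 1)) = x k) ∧ x n = v := by
  induction n with
  | zero =>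
    intro V f hsurj v
    choose s hs using hsurj
    refine ⟨fun k => Nat.rec (motive := fun k => V k) v (fun k w => s k w) k, ?_, rfl⟩
    intro k
    exact hs k _
  | succ n ih =>
    intro V f hsurj v
    obtain ⟨x, hx, hxn⟩ := ih (fun k => V (k + 1)) (fun k => f (k + 1)) (fun k => hsurj (k + 1)) v
    refine ⟨fun k => Nat.casesOn (motive := fun k => V k) k (f 0 (x 0)) (fun k => x k), ?_, hxn⟩
    intro k
    cases k with
    | zero => rfl
    | succ k => exact hx k

theorem exists_quotient (V : ℕ → Type) [∀ n, Finite (V n)] [∀ n, TopologicalSpace (V n)]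
    [∀ n, DiscreteTopology (V n)] (adj : ∀ n, V n → V n → Prop) (f : ∀ n, V (n + 1) → V n)
    (hrefl : ∀ n x, adj n x x) (hsymm : ∀ n x y, adj n x y → adj n y x)
    (hsurj : ∀ n, Function.Surjective (f n))
    (hslow : ∀ n x y z, adj (n + 1) x y → adj (n + 1) y z → adj n (f n x) (f n z))
    (hconn : ∀ n, Cn (adj n) Set.univ)
    (hnt : ∃ n, ∃ u v, ¬ adj n u v) :
    ∃ (M : Type) (_ : MetricSpace M) (q : Lim V f → M), CompactSpace M ∧ ConnectedSpace M ∧
      Nontrivial M ∧ Continuous q ∧ Function.Surjective q ∧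
      ∀ x y : Lim V f, q x = q y ↔ ∀ n, adj n (x.1 n) (y.1 n) := by
  classical
  have hthread : ∀ n (v : V n), ∃ x : Lim V f, x.1 n = v := by
    intro n v
    obtain ⟨x, hx, hxn⟩ := thread_through n V f hsurj v
    exact ⟨⟨x, hx⟩, hxn⟩
  have hmono : ∀ n (x y : Lim V f), adj (n + 1) (x.1 (n + 1)) (y.1 (n + 1)) →
      adj n (x.1 n) (y.1 n) := by
    intro n x y h
    have := hslow n _ _ _ h (hrefl (n + 1) _)
    rwa [x.2 n, y.2 n] at this
  obtain ⟨M, hM, q, hqs, hq, hqε, hqn⟩ := metric_of_levels (Lim V f)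
    (fun n x y => adj n (x.1 n) (y.1 n)) (fun n x => hrefl n _) (fun n x y => hsymm n _ _)
    hmono
    (fun n x y z h1 h2 => by
      have := hslow n _ _ _ h1 h2
      rwa [x.2 n, z.2 n] at this)
  have hcont_coord : ∀ n, Continuous (fun x : Lim V f => x.1 n) := by
    intro n
    exact (continuous_apply n).comp continuous_subtype_val
  have hqc : Continuous q := by
    rw [Metric.continuous_iff']
    intro x ε hε
    obtain ⟨n, hn⟩ := hqn ε hε
    have hopen : IsOpen ((fun y : Lim V f => y.1 n) ⁻¹' {x.1 n}) :=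
      (isOpen_discrete _).preimage (hcont_coord n)
    filter_upwards [hopen.mem_nhds (by simp)] with y hy
    apply hn
    have hy' : y.1 n = x.1 n := hy
    rw [hy']
    exact hrefl n _
  have hclosed : IsClosed {x : ∀ n, V n | ∀ n, f n (x (n + 1)) = x n} := by
    have : {x : ∀ n, V n | ∀ n, f n (x (n + 1)) = x n} =
        ⋂ n, {x : ∀ n, V n | f n (x (n + 1)) = x n} := by
      ext x; simp
    rw [this]
    refine isClosed_iInter (fun n => ?_)
    exact isClosed_eq ((continuous_of_discreteTopology (f := f n)).comp (continuous_apply (n + 1)))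
      (continuous_apply n)
  have hcomp : CompactSpace (Lim V f) := by
    have : CompactSpace {x : ∀ n, V n // ∀ n, f n (x (n + 1)) = x n} :=
      isCompact_iff_compactSpace.1 hclosed.isCompact
    exact this
  have hMc : CompactSpace M := by
    refine ⟨?_⟩
    rw [← hqs.range_eq]
    exact isCompact_range hqc
  obtain ⟨n0, u, v, huv⟩ := hnt
  obtain ⟨xu, hxu⟩ := hthread n0 u
  obtain ⟨xv, hxv⟩ := hthread n0 v
  have hne : q xu ≠ q xv := by
    intro h
    have := (hq xu xv).1 h n0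
    simp only [hxu, hxv] at this
    exact huv this
  refine ⟨M, hM, q, hMc, ?_, ⟨⟨_, _, hne⟩⟩, hqc, hqs, hq⟩
  haveI : Nonempty M := ⟨q xu⟩
  have hpre : PreconnectedSpace M := by
    rw [preconnectedSpace_iff_clopen]
    intro A hA
    by_contra hcon
    push Not at hcon
    obtain ⟨hAne, hAu⟩ := hcon
    obtain ⟨δ, hδ, hδA⟩ := lebesgue_number_lemma_of_metric (s := A) (ι := Unit) (c := fun _ => A)
      hA.1.isCompact (fun _ => hA.2) (by intro a ha; simpa using ha)
    obtain ⟨n, hn⟩ := hqn δ hδ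
    have hstep : ∀ x y : Lim V f, q x ∈ A → adj n (x.1 n) (y.1 n) → q y ∈ A := by
      intro x y hx hxy
      obtain ⟨_, hball⟩ := hδA (q x) hx
      apply hball
      rw [Metric.mem_ball, dist_comm]
      exact hn x y hxy
    have hP := hconn n {w | ∃ x : Lim V f, q x ∈ A ∧ x.1 n = w} (Set.subset_univ _)
      (by
        obtain ⟨a, ha⟩ := hAne
        obtain ⟨x, rfl⟩ := hqs a
        exact ⟨x.1 n, x, ha, rfl⟩)
      (by
        rintro _ ⟨x, hx, rfl⟩ b - hab
        obtain ⟨y, hy⟩ := hthread n b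
        refine ⟨y, hstep x y hx ?_, hy⟩
        rw [hy]; exact hab)
    apply hAu
    ext a
    simp only [Set.mem_univ, iff_true]
    obtain ⟨y, rfl⟩ := hqs a
    have : y.1 n ∈ {w | ∃ x : Lim V f, q x ∈ A ∧ x.1 n = w} := by rw [hP]; trivial
    obtain ⟨x, hx, hxy⟩ := this
    apply hstep x y hx
    rw [hxy]; exact hrefl n _
  exact { hpre with toNonempty := this }

end Pool.Agent.Helper464.QuotTA
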