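import Mathlib

set_option autoImplicit false

namespace Pool.Agent.Helper464.TimeGA

/-- The allowed steps. -/
def Rel (D : Finset (ℕ × ℕ)) (a b : ℕ) : Prop :=
  a = b ∨ b = a + 1 ∨ a = b + 1 ∨
    ∃ p ∈ D, (a = p.1 ∧ b = p.1 + p.2) ∨ (b = p.1 ∧ a = p.1 + p.2)

/-- Existence of a walk. -/
def PE {X : Type} (O : ℕ → X) (s e : ℕ) (D : Finset (ℕ × ℕ)) (t t' : ℕ)
    (δ : (X → X → ℤ) → ℤ) (C : Set ℕ) : Prop :=
  ∃ (w : ℕ → ℕ) (n : ℕ), w 0 = t ∧ w n = t' ∧ (∀ y, y ≤ n → s ≤ w y ∧ w y ≤ e) ∧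
    (∀ y, y < n → Rel D (w y) (w (y + 1))) ∧ (∀ r ∈ C, ∃ y, y ≤ n ∧ w y = r) ∧
    ∀ α : X → X → ℤ, (∀ x y, α x y = - α y x) →
      ∑ y ∈ Finset.range n, α (O (w y)) (O (w (y + 1))) = δ α

section Aux

variable {X : Type} {O : ℕ → X} {s e : ℕ} {D : Finset (ℕ × ℕ)}

lemma PE.trans {t t' t'' : ℕ} {δ δ' : (X → X → ℤ) → ℤ} {C C' : Set ℕ}
    (h : PE O s e D t t' δ C) (h' : PE O s e D t' t'' δ' C') :
    PE O s e D t t'' (fun α => δ α + δ' α) (C ∪ C') := by
  obtain ⟨w1, n1, a1, b1, c1, d1, e1, f1⟩ := h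
  obtain ⟨w2, n2, a2, b2, c2, d2, e2, f2⟩ := h'
  set w : ℕ → ℕ := fun i => if i ≤ n1 then w1 i else w2 (i - n1) with hw
  have hlo : ∀ i, i ≤ n1 → w i = w1 i := fun i hi => by simp [hw, hi]
  have hhi : ∀ i, w (n1 + i) = w2 i := by
    intro i
    cases i with
    | zero => simp [hw, b1, a2]
    | succ i =>
      have : ¬ (n1 + (i + 1) ≤ n1) := by omega
      simp only [hw, this, if_false]
      congr 1
      omega
  refine ⟨w, n1 + n2, ?_, ?_, ?_, ?_, ?_, ?_⟩
  · rw [hlo 0 (Nat.zero_le _), a1]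
  · rw [hhi, b2]
  · intro y hy
    rcases le_or_gt y n1 with h | h
    · rw [hlo y h]; exact c1 y h
    · obtain ⟨k, rfl⟩ := Nat.exists_eq_add_of_le h.le
      rw [hhi]; exact c2 k (by omega)
  · intro y hy
    rcases lt_or_ge y n1 with h | h
    · rw [hlo y h.le, hlo (y + 1) h]; exact d1 y h
    · obtain ⟨k, rfl⟩ := Nat.exists_eq_add_of_le h
      rw [hhi, add_assoc, hhi]; exact d2 k (by omega)
  · rintro r (hr | hr)
    · obtain ⟨y, hy, hy'⟩ := e1 r hr
      exact ⟨y, by omega, by rw [hlo y hy, hy']⟩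
    · obtain ⟨y, hy, hy'⟩ := e2 r hr
      exact ⟨n1 + y, by omega, by rw [hhi, hy']⟩
  · intro α hα
    show _ = δ α + δ' α
    rw [Finset.sum_range_add, ← f1 α hα, ← f2 α hα]
    congr 1
    · refine Finset.sum_congr rfl fun y hy => ?_
      have := Finset.mem_range.1 hy
      rw [hlo y this.le, hlo (y + 1) this]
    · refine Finset.sum_congr rfl fun y hy => ?_
      rw [hhi, add_assoc, hhi]

lemma PE.congr {t t' : ℕ} {δ δ' : (X → X → ℤ) → ℤ} {C C' : Set ℕ}
    (h : PE O s e D t t' δ C)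
    (hδ : ∀ α : X → X → ℤ, (∀ x y, α x y = - α y x) → δ α = δ' α) (hC : C' ⊆ C) :
    PE O s e D t t' δ' C' := by
  obtain ⟨w1, n1, a1, b1, c1, d1, e1, f1⟩ := h
  exact ⟨w1, n1, a1, b1, c1, d1, fun r hr => e1 r (hC hr), fun α hα => by
    rw [f1 α hα, hδ α hα]⟩

/-- Primitive of the antisymmetric cochain. -/
def A (O : ℕ → X) (α : X → X → ℤ) (t : ℕ) : ℤ := ∑ r ∈ Finset.range t, α (O r) (O (r + 1))

lemma A_add (α : X → X → ℤ) (t k : ℕ) :
    A O α (t + k) - A O α t = ∑ r ∈ Finset.range k, α (O (t + r)) (O (t + r + 1)) := by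
  unfold A
  rw [Finset.sum_range_add]
  ring

lemma PE.up {t k : ℕ} (hs : s ≤ t) (he : t + k ≤ e) :
    PE O s e D t (t + k) (fun α => A O α (t + k) - A O α t) (Set.Icc t (t + k)) := by
  refine ⟨fun i => t + i, k, rfl, rfl, ?_, ?_, ?_, ?_⟩
  · intro y hy; constructor <;> simp only <;> omega
  · intro y _; right; left; simp only; omega
  · intro r hr
    obtain ⟨h1, h2⟩ := hr
    exact ⟨r - t, by omega, by simp only; omega⟩
  · intro α _
    show _ = A O α (t + k) - A O α t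
    rw [A_add]
    rfl

lemma PE.down {t k : ℕ} (hs : s ≤ t) (he : t + k ≤ e) :
    PE O s e D (t + k) t (fun α => A O α t - A O α (t + k)) (Set.Icc t (t + k)) := by
  refine ⟨fun i => t + k - i, k, by simp, by simp, ?_, ?_, ?_, ?_⟩
  · intro y hy; constructor <;> simp only <;> omega
  · intro y hy; right; right; left; simp only; omega
  · intro r hr
    obtain ⟨h1, h2⟩ := hr
    exact ⟨t + k - r, by omega, by simp only; omega⟩
  · intro α hα
    have h := A_add (O := O) α t k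
    have h2 : A O α t - A O α (t + k) = - ∑ r ∈ Finset.range k, α (O (t + r)) (O (t + r + 1)) := by
      rw [← h]; ring
    show _ = A O α t - A O α (t + k)
    rw [h2, ← Finset.sum_range_reflect, ← Finset.sum_neg_distrib]
    refine Finset.sum_congr rfl fun y hy => ?_
    have hy' := Finset.mem_range.1 hy
    show α (O (t + k - (k - 1 - y))) (O (t + k - (k - 1 - y + 1))) = _
    have e1 : t + k - (k - 1 - y) = t + y + 1 := by omega
    have e2 : t + k - (k - 1 - y + 1) = t + y := by omega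
    rw [e1, e2]
    exact hα _ _

lemma PE.mv {t t' : ℕ} (h1 : s ≤ t) (h2 : t ≤ e) (h3 : s ≤ t') (h4 : t' ≤ e) :
    PE O s e D t t' (fun α => A O α t' - A O α t) (Set.Icc (min t t') (max t t')) := by
  rcases le_total t t' with h | h
  · obtain ⟨k, rfl⟩ := Nat.exists_eq_add_of_le h
    rw [min_eq_left h, max_eq_right h]
    exact PE.up h1 h4
  · obtain ⟨k, rfl⟩ := Nat.exists_eq_add_of_le h
    rw [min_eq_right h, max_eq_left h]
    exact PE.down h3 h2

lemma PE.jump {a b : ℕ} (h1 : s ≤ a) (h2 : a ≤ e) (h3 : s ≤ b) (h4 : b ≤ e) (hr : Rel D a b) :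
    PE O s e D a b (fun α => α (O a) (O b)) ∅ := by
  refine ⟨fun i => if i = 0 then a else b, 1, by simp, by simp, ?_, ?_, ?_, ?_⟩
  · intro y hy
    by_cases h : y = 0
    · simp [h, h1, h2]
    · simp [h, h3, h4]
  · intro y hy
    have : y = 0 := by omega
    subst this
    simpa using hr
  · intro r hr; exact absurd hr (Set.notMem_empty r)
  · intro α _
    simp

lemma antisymm_self {α : X → X → ℤ} (hα : ∀ x y, α x y = - α y x) (x : X) : α x x = 0 := by
  have := hα x x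
  omega

end Aux

theorem exists_tw {X : Type} (O : ℕ → X) (s e t : ℕ) (hs : s ≤ t) (ht : t ≤ e)
    (D : Finset (ℕ × ℕ)) (hD : ∀ p ∈ D, s ≤ p.1 ∧ p.1 + p.2 ≤ e ∧ O (p.1 + p.2) = O p.1) :
    ∃ (w : ℕ → ℕ) (n : ℕ), w 0 = t ∧ (∀ y, n ≤ y → w y = t) ∧ (∀ y, s ≤ w y ∧ w y ≤ e) ∧
      (∀ y, w y = w (y + 1) ∨ w (y + 1) = w y + 1 ∨ w y = w (y + 1) + 1 ∨
        ∃ p ∈ D, (w y = p.1 ∧ w (y + 1) = p.1 + p.2) ∨ (w (y + 1) = p.1 ∧ w y = p.1 + p.2)) ∧
      (∀ r, s ≤ r → r ≤ e → ∃ y, y ≤ n ∧ w y = r) ∧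
      ∀ α : X → X → ℤ, (∀ x y, α x y = - α y x) →
        ∑ y ∈ Finset.range n, α (O (w y)) (O (w (y + 1)))
          = ∑ p ∈ D, ∑ r ∈ Finset.range p.2, α (O (p.1 + r)) (O (p.1 + r + 1)) := by
  classical
  have hse : s ≤ e := hs.trans ht
  have main : ∀ D' : Finset (ℕ × ℕ), D' ⊆ D → PE O s e D t t
      (fun α => ∑ p ∈ D', ∑ r ∈ Finset.range p.2, α (O (p.1 + r)) (O (p.1 + r + 1)))
      (Set.Icc s e) := by
    intro D'
    induction D' using Finset.induction_on with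
    | empty =>
      intro _
      have h1 := (PE.mv (O := O) (D := D) hs ht le_rfl hse).trans
        ((PE.mv (O := O) (D := D) le_rfl hse hse le_rfl).trans
          (PE.mv (O := O) (D := D) hse le_rfl hs ht))
      refine h1.congr ?_ ?_
      · intro α _
        simp
      · intro r hr
        right; left
        rw [min_eq_left hse, max_eq_right hse]
        exact hr
    | insert p D' hp ih =>
      intro hsub
      have hpD : p ∈ D := hsub (Finset.mem_insert_self _ _)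
      obtain ⟨q1, q2, q3⟩ := hD p hpD
      have ih' := ih ((Finset.subset_insert _ _).trans hsub)
      have hp1e : p.1 ≤ e := by omega
      have hsp : s ≤ p.1 + p.2 := by omega
      have h1 := (PE.mv (O := O) (D := D) hs ht q1 hp1e).trans
        ((PE.mv (O := O) (D := D) q1 hp1e hsp q2).trans
          ((PE.jump (O := O) (D := D) hsp q2 q1 hp1e
            (Or.inr (Or.inr (Or.inr ⟨p, hpD, Or.inr ⟨rfl, rfl⟩⟩)))).trans
            (PE.mv (O := O) (D := D) q1 hp1e hs ht)))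
      refine (h1.trans ih').congr ?_ ?_
      · intro α hα
        rw [Finset.sum_insert hp]
        congr 1
        rw [q3, antisymm_self hα, ← A_add]
        ring
      · intro r hr
        right; exact hr
  obtain ⟨w, n, h1, h2, h3, h4, h5, h6⟩ := main D (Finset.Subset.refl _)
  set w' : ℕ → ℕ := fun i => if i ≤ n then w i else t with hw'
  have hlo : ∀ i, i ≤ n → w' i = w i := fun i hi => by simp [hw', hi]
  have hhi : ∀ i, n ≤ i → w' i = t := by
    intro i hi
    rcases hi.eq_or_lt with rfl | hlt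
    · rw [hlo _ le_rfl, h2]
    · simp [hw', not_le.2 hlt]
  refine ⟨w', n, ?_, hhi, ?_, ?_, ?_, ?_⟩
  · rw [hlo 0 (Nat.zero_le _), h1]
  · intro y
    rcases le_or_gt y n with h | h
    · rw [hlo y h]; exact h3 y h
    · rw [hhi y h.le]; exact ⟨hs, ht⟩
  · intro y
    rcases lt_or_ge y n with h | h
    · rw [hlo y h.le, hlo (y + 1) h]; exact h4 y h
    · left; rw [hhi y h, hhi (y + 1) (by omega)]
  · intro r hr1 hr2
    obtain ⟨y, hy, hy'⟩ := h5 r ⟨hr1, hr2⟩
    exact ⟨y, hy, by rw [hlo y hy, hy']⟩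
  · intro α hα
    refine Eq.trans ?_ (h6 α hα)
    refine Finset.sum_congr rfl fun y hy => ?_
    have := Finset.mem_range.1 hy
    rw [hlo y this.le, hlo (y + 1) this]

end Pool.Agent.Helper464.TimeGA
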